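import Pool.Agent.NH60.SS.Stmts
import Pool.Agent.X272.LMBase

/-!
# The power series ring over a quotient of a power series ring
-/

set_option autoImplicit false

namespace Pool.Agent.NH60.SS.Z

open Finset Module IsLocalRing

section Dim

theorem mem_max_iff {R : Type*} [CommRing R] [IsLocalRing R] (f : PowerSeries R) :
    f ∈ maximalIdeal (PowerSeries R) ↔ PowerSeries.constantCoeff f ∈ maximalIdeal R := by
  rw [mem_maximalIdeal, mem_maximalIdeal, mem_nonunits_iff, mem_nonunits_iff,
    PowerSeries.isUnit_iff_constantCoeff]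

theorem dim_ps (B : Type*) [CommRing B] [IsNoetherianRing B] [IsLocalRing B] :
    ringKrullDim (PowerSeries B) = ringKrullDim B + 1 := by
  have h1 := ringKrullDim_quotient_span_singleton_succ_eq_ringKrullDim_of_mem_nonZeroDivisors
    (R := PowerSeries B) (x := PowerSeries.X) (by
      rw [mem_nonZeroDivisors_iff_right]
      intro f hf
      exact PowerSeries.X_mul_inj.1 (by rw [mul_comm, hf, mul_zero])) (by
      rw [mem_max_iff, PowerSeries.constantCoeff_X]
      exact Ideal.zero_mem _)
  have hker : RingHom.ker (PowerSeries.constantCoeff : PowerSeries B →+* B) =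
      Ideal.span {PowerSeries.X} := by
    ext f
    rw [RingHom.mem_ker, Ideal.mem_span_singleton, PowerSeries.X_dvd_iff]
  have e : (PowerSeries B ⧸ Ideal.span {(PowerSeries.X : PowerSeries B)}) ≃+* B :=
    (Ideal.quotEquivOfEq hker.symm).trans
      (RingHom.quotientKerEquivOfSurjective PowerSeries.constantCoeff_surj)
  rw [ringKrullDim_eq_of_ringEquiv e] at h1
  exact h1.symm

theorem dim_mv (k : Type) [Field k] (r : ℕ) :
    ringKrullDim (MvPowerSeries (Fin r) k) = ((r : ℕ) : WithBot ℕ∞) := by
  induction r with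
  | zero =>
    rw [ringKrullDim_eq_of_ringEquiv (MvPowerSeries.isEmptyEquiv (Fin 0) k).toRingEquiv,
      ringKrullDim_eq_zero_of_field]
    rfl
  | succ r ih =>
    rw [ringKrullDim_eq_of_ringEquiv (MvPowerSeries.finSuccEquiv k r).toRingEquiv,
      dim_ps (MvPowerSeries (Fin r) k), ih]
    rfl

end Dim

section Quot

variable {k : Type} [Field k] (f : MvPowerSeries (Fin 3) k)

/-- the quotient ring -/
abbrev Rf : Type := MvPowerSeries (Fin 3) k ⧸ Ideal.span {f}

theorem mem_max_S {g : MvPowerSeries (Fin 3) k} :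
    g ∈ maximalIdeal (MvPowerSeries (Fin 3) k) ↔ MvPowerSeries.constantCoeff g = 0 := by
  rw [mem_maximalIdeal, mem_nonunits_iff, MvPowerSeries.isUnit_iff_constantCoeff,
    isUnit_iff_ne_zero, not_not]

variable {f}

theorem local_Rf (hf : MvPowerSeries.constantCoeff f = 0) : IsLocalRing (Rf f) := by
  have hne : Ideal.span {f} ≠ ⊤ := by
    rw [Ne, Ideal.span_singleton_eq_top, MvPowerSeries.isUnit_iff_constantCoeff, hf]
    simp
  have : Nontrivial (Rf f) := Ideal.Quotient.nontrivial_iff.2 hne
  exact IsLocalRing.of_surjective' (Ideal.Quotient.mk _) Ideal.Quotient.mk_surjective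

theorem dim_Rf (hf : MvPowerSeries.constantCoeff f = 0) (h0 : f ≠ 0) :
    ringKrullDim (Rf f) + 1 = 3 := by
  have h1 := ringKrullDim_quotient_span_singleton_succ_eq_ringKrullDim_of_mem_nonZeroDivisors
    (mem_nonZeroDivisors_of_ne_zero h0) (mem_max_S.2 hf)
  rw [dim_mv] at h1
  exact h1

theorem dimN_A (hf : MvPowerSeries.constantCoeff f = 0) (h0 : f ≠ 0) :
    Pool.Agent.X272.LMBase.dimN (PowerSeries (Rf f)) = 3 := by
  haveI := local_Rf hf
  rw [Pool.Agent.X272.LMBase.dimN, dim_ps, dim_Rf hf h0]
  rfl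

theorem mk_mem (hf : MvPowerSeries.constantCoeff f = 0) {g : MvPowerSeries (Fin 3) k}
    (hg : MvPowerSeries.constantCoeff g = 0) :
    haveI := local_Rf hf
    Ideal.Quotient.mk (Ideal.span {f}) g ∈ maximalIdeal (Rf f) := by
  haveI := local_Rf hf
  have hs : Function.Surjective (Ideal.Quotient.mk (Ideal.span {f})) :=
    Ideal.Quotient.mk_surjective
  have : IsLocalHom (Ideal.Quotient.mk (Ideal.span {f})) :=
    IsLocalHom.of_surjective (Ideal.Quotient.mk (Ideal.span {f})) hs
  rw [mem_maximalIdeal, mem_nonunits_iff, isUnit_map_iff, MvPowerSeries.isUnit_iff_constantCoeff,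
    hg]
  simp

theorem span_X_le (hf : MvPowerSeries.constantCoeff f = 0) :
    haveI := local_Rf hf
    Ideal.span (Set.range fun i : Fin 3 => (Ideal.Quotient.mk (Ideal.span {f})
      (MvPowerSeries.X i : MvPowerSeries (Fin 3) k))) ≤ maximalIdeal (Rf f) := by
  haveI := local_Rf hf
  rw [Ideal.span_le]
  rintro _ ⟨i, rfl⟩
  exact mk_mem hf (MvPowerSeries.constantCoeff_X i)

theorem res_A (hf : MvPowerSeries.constantCoeff f = 0) :
    haveI := local_Rf hf
    ∀ b : PowerSeries (Rf f), ∃ a : k, b - algebraMap k (PowerSeries (Rf f)) a ∈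
      maximalIdeal (PowerSeries (Rf f)) := by
  haveI := local_Rf hf
  intro b
  obtain ⟨g, hg⟩ := Ideal.Quotient.mk_surjective (PowerSeries.constantCoeff b)
  refine ⟨MvPowerSeries.constantCoeff g, ?_⟩
  rw [mem_max_iff, map_sub]
  have h1 : PowerSeries.constantCoeff (algebraMap k (PowerSeries (Rf f))
      (MvPowerSeries.constantCoeff g)) = Ideal.Quotient.mk (Ideal.span {f})
        (MvPowerSeries.C (MvPowerSeries.constantCoeff g)) := by
    rw [PowerSeries.algebraMap_apply, PowerSeries.constantCoeff_C]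
    rfl
  rw [h1, ← hg, ← map_sub]
  apply mk_mem hf
  rw [map_sub, MvPowerSeries.constantCoeff_C, sub_self]

end Quot

section Coord

variable {k O : Type} [Field k] [CommRing O] [IsDomain O] [Algebra k O] {E : Ell k O} {d : ℕ}
  {R : Type} [CommRing R] [Algebra k R]

/-- the coordinates on the ring of power series over a ring with coordinates -/
noncomputable def psC (Y : Coord1 E d R) : Coord E d (PowerSeries R) where
  co n j := (Y.co n).comp ((PowerSeries.coeff (R := R) j).restrictScalars k)
  mem n j x := Y.mem n _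
  inj := by
    intro x hx
    ext j
    rw [map_zero]
    exact Y.inj _ fun n => hx n j
  surj := by
    intro F hF
    choose g hg using fun j => Y.surj (fun n => F n j) fun n => hF n j
    refine ⟨PowerSeries.mk g, fun n j => ?_⟩
    show Y.co n (PowerSeries.coeff j (PowerSeries.mk g)) = F n j
    rw [PowerSeries.coeff_mk]
    exact hg j n
  one := by
    intro n j
    show Y.co n (PowerSeries.coeff j (1 : PowerSeries R)) = _
    rw [PowerSeries.coeff_one]
    by_cases hj : j = 0
    · subst hj
      rw [if_pos rfl, Y.one]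
      simp
    · rw [if_neg hj, map_zero, if_neg (fun h => hj h.2)]
  mul := by
    intro n j x y
    show Y.co n (PowerSeries.coeff j (x * y)) = _
    rw [PowerSeries.coeff_mul, map_sum, sum_comm]
    exact sum_congr rfl fun q _ => Y.mul n _ _

theorem ps_co (Y : Coord1 E d R) (n j : ℕ) (x : PowerSeries R) :
    (psC Y).co n j x = Y.co n (PowerSeries.coeff j x) := rfl

theorem ps_pow_mem (I : Ideal R) {N : ℕ} {r : R} (hr : r ∈ I ^ N) :
    PowerSeries.C r ∈ (I.map (PowerSeries.C (R := R))) ^ N := by
  rw [← Ideal.map_pow]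
  exact Ideal.mem_map_of_mem _ hr

/-- A box ideal lies in a power of the maximal ideal. -/
theorem box_le [IsLocalRing R] (Y : Coord1 E d R)
    (hY : ∀ N : ℕ, ∃ M : ℕ, ∀ u, (∀ n < M, Y.co n u = 0) → u ∈ (maximalIdeal R) ^ N) (N : ℕ) :
    ∃ M : ℕ, (psC Y).Box M ≤ (maximalIdeal (PowerSeries R)) ^ N := by
  obtain ⟨M, hM⟩ := hY N
  refine ⟨M + N, fun x hx => ?_⟩
  have h1 : x = ∑ j ∈ range N, PowerSeries.C (PowerSeries.coeff j x) * PowerSeries.X ^ j +
      PowerSeries.X ^ N * PowerSeries.mk (fun i => PowerSeries.coeff (N + i) x) := by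
    ext j
    rw [map_add, map_sum, PowerSeries.coeff_X_pow_mul', PowerSeries.coeff_mk]
    by_cases hj : N ≤ j
    · rw [if_pos hj, Nat.add_sub_cancel' hj]
      rw [sum_eq_zero, zero_add]
      intro i hi
      rw [mem_range] at hi
      rw [PowerSeries.coeff_C_mul, PowerSeries.coeff_X_pow, if_neg (by omega), mul_zero]
    · rw [if_neg hj, add_zero, sum_eq_single j]
      · rw [PowerSeries.coeff_C_mul, PowerSeries.coeff_X_pow, if_pos rfl, mul_one]
      · intro i _ hij
        rw [PowerSeries.coeff_C_mul, PowerSeries.coeff_X_pow, if_neg (fun h => hij h.symm),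
          mul_zero]
      · intro h
        rw [mem_range] at h
        omega
  have hC : (maximalIdeal R).map (PowerSeries.C (R := R)) ≤ maximalIdeal (PowerSeries R) := by
    rw [Ideal.map_le_iff_le_comap]
    intro r hr
    rw [Ideal.mem_comap, mem_max_iff, PowerSeries.constantCoeff_C]
    exact hr
  have hX : (PowerSeries.X : PowerSeries R) ∈ maximalIdeal (PowerSeries R) := by
    rw [mem_max_iff, PowerSeries.constantCoeff_X]
    exact Ideal.zero_mem _
  rw [h1]
  refine add_mem (sum_mem fun j hj => ?_) ?_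
  · rw [mem_range] at hj
    refine Ideal.mul_mem_right _ _ (Ideal.pow_right_mono hC N (ps_pow_mem _ (hM _ fun n hn => ?_)))
    exact hx n (by omega) j (by omega)
  · exact Ideal.mul_mem_right _ _ (Ideal.pow_mem_pow hX N)

end Coord

end Pool.Agent.NH60.SS.Z
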