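import Pool.Agent.NH60.SS.Multi

/-!
# Leading spaces of powers of an ideal
-/

set_option autoImplicit false

namespace Pool.Agent.NH60.SS.Z

open Finset Module

/-- the statements of the first four modules -/
structure Mods : Prop where
  rr : StmtRR
  pen : StmtPencil
  mu : StmtMu
  len : StmtLen

section

variable {k O : Type} [Field k] [Infinite k] [CommRing O] [IsDedekindDomain O] [Algebra k O]
  {E : Ell k O} {d : ℕ} {A : Type} [CommRing A] [Algebra k A] (X : Coord E d A)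

theorem one_mem_L (t : ℕ) : (1 : O) ∈ E.L t := by
  rw [Ell.mem_L, ← map_one (algebraMap k O), E.deg_algebraMap]
  exact Nat.zero_le _

theorem one_le_L (t : ℕ) : (1 : Submodule k O) ≤ E.L t := by
  rw [Submodule.one_le]
  exact one_mem_L t

theorem L_ne_bot (t : ℕ) : E.L t ≠ ⊥ := by
  intro h
  have := one_mem_L (E := E) t
  rw [h] at this
  exact one_ne_zero this

theorem V_le (hM : Mods) (J : Ideal A) (n j : ℕ) : X.V J n j ≤ E.L (d * n) :=
  (hM.len k O A E d X (hM.rr k O E).1).1 J n j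

theorem V_mul (hM : Mods) (I J : Ideal A) (n j n' j' : ℕ) :
    X.V I n j * X.V J n' j' ≤ X.V (I * J) (n + n') (j + j') :=
  (hM.len k O A E d X (hM.rr k O E).1).2.1 I J n j n' j'

theorem V_top (hM : Mods) (n j : ℕ) : X.V ⊤ n j = E.L (d * n) :=
  (hM.len k O A E d X (hM.rr k O E).1).2.2.1 n j

theorem V_box (hM : Mods) {J : Ideal A} {M : ℕ} (h : X.Box M ≤ J) {n j : ℕ} (hn : M ≤ n ∨ M ≤ j) :
    X.V J n j = E.L (d * n) :=
  (hM.len k O A E d X (hM.rr k O E).1).2.2.2.1 J M h n j hn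

theorem finD (hM : Mods) (E : Ell k O) (t : ℕ) : FiniteDimensional k (E.L t) := (hM.rr k O E).1 t

theorem finrank_L (hM : Mods) (E : Ell k O) (t : ℕ) :
    finrank k (E.L t) = if t = 0 then 1 else t := by
  split_ifs with h
  · subst h
    exact (hM.rr k O E).2.1
  · exact (hM.rr k O E).2.2.1 t (by omega)

theorem V_pow (hM : Mods) (I : Ideal A) (n j r : ℕ) :
    X.V I n j ^ r ≤ X.V (I ^ r) (r * n) (r * j) := by
  induction r with
  | zero =>
    rw [pow_zero, pow_zero, zero_mul, zero_mul, Ideal.one_eq_top, V_top X hM]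
    exact one_le_L _
  | succ r ih =>
    rw [pow_succ, pow_succ, add_mul, add_mul, one_mul, one_mul]
    exact (mul_le_mul' ih le_rfl).trans (V_mul X hM _ _ _ _ _ _)

theorem V_prod (hM : Mods) (I : Ideal A) (G : Finset (ℕ × ℕ)) (m : ℕ × ℕ → ℕ) :
    ∏ p ∈ G, X.V I p.1 p.2 ^ m p ≤
      X.V (I ^ (∑ p ∈ G, m p)) (∑ p ∈ G, m p * p.1) (∑ p ∈ G, m p * p.2) := by
  classical
  induction G using Finset.induction_on with
  | empty =>
    rw [prod_empty, sum_empty, sum_empty, sum_empty, pow_zero, Ideal.one_eq_top, V_top X hM]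
    exact one_le_L _
  | insert a G ha ih =>
    rw [prod_insert ha, sum_insert ha, sum_insert ha, sum_insert ha, pow_add]
    exact (mul_le_mul' (V_pow X hM _ _ _ _) ih).trans (V_mul X hM _ _ _ _ _ _)

theorem V_mono (hM : Mods) (I : Ideal A) (n : ℕ) {j j' : ℕ} (h : j ≤ j') :
    X.V I n j ≤ X.V I n j' := by
  obtain ⟨r, rfl⟩ := Nat.exists_eq_add_of_le h
  have h1 := V_mul X hM I ⊤ n j 0 r
  rw [V_top X hM, Ideal.mul_top, add_zero] at h1
  refine le_trans ?_ h1
  intro v hv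
  rw [← mul_one v]
  exact Submodule.mul_mem_mul hv (one_mem_L _)

/-- the defect of a leading space -/
noncomputable def dl (I : Ideal A) (p : ℕ × ℕ) : ℕ := d * p.1 - E.mu (X.V I p.1 p.2)

/-- achievable costs -/
def Ach (I : Ideal A) (G : Finset (ℕ × ℕ)) (m n j κ : ℕ) : Prop :=
  ∃ μ : ℕ × ℕ → ℕ, ∑ p ∈ G, μ p = m ∧ ∑ p ∈ G, μ p * p.1 ≤ n ∧
    ∑ p ∈ G, μ p * dl X I p ≤ j ∧ ∑ p ∈ G, μ p * p.2 ≤ κ

theorem ach_add (I : Ideal A) (G : Finset (ℕ × ℕ)) (m n j κ m' n' j' κ' : ℕ)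
    (h : Ach X I G m n j κ) (h' : Ach X I G m' n' j' κ') :
    Ach X I G (m + m') (n + n') (j + j') (κ + κ') := by
  obtain ⟨μ, a1, a2, a3, a4⟩ := h
  obtain ⟨μ', b1, b2, b3, b4⟩ := h'
  refine ⟨μ + μ', ?_, ?_, ?_, ?_⟩
  · simp only [Pi.add_apply, sum_add_distrib]
    omega
  · simp only [Pi.add_apply, add_mul, sum_add_distrib]
    omega
  · simp only [Pi.add_apply, add_mul, sum_add_distrib]
    omega
  · simp only [Pi.add_apply, add_mul, sum_add_distrib]
    omega

theorem ach_mono (I : Ideal A) (G : Finset (ℕ × ℕ)) (m n j κ n' j' κ' : ℕ) (hn : n ≤ n')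
    (hj : j ≤ j') (hκ : κ ≤ κ') (h : Ach X I G m n j κ) : Ach X I G m n' j' κ' := by
  obtain ⟨μ, a1, a2, a3, a4⟩ := h
  exact ⟨μ, a1, a2.trans hn, a3.trans hj, a4.trans hκ⟩

theorem ach_zero (I : Ideal A) (G : Finset (ℕ × ℕ)) : Ach X I G 0 0 0 0 :=
  ⟨0, by simp, by simp, by simp, by simp⟩

theorem ach_one (I : Ideal A) {G : Finset (ℕ × ℕ)} {p : ℕ × ℕ} (hp : p ∈ G) :
    Ach X I G 1 p.1 (dl X I p) p.2 := by
  classical
  refine ⟨fun q => if q = p then 1 else 0, ?_, ?_, ?_, ?_⟩ <;> simp [hp]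

theorem ach_mul (I : Ideal A) (G : Finset (ℕ × ℕ)) {m n j κ : ℕ} (h : Ach X I G m n j κ) (r : ℕ) :
    Ach X I G (r * m) (r * n) (r * j) (r * κ) := by
  induction r with
  | zero =>
    simp only [zero_mul]
    exact ach_zero X I G
  | succ r ih =>
    simp only [Nat.succ_mul]
    exact ach_add X I G _ _ _ _ _ _ _ _ ih h

/-- The bound for the codimensions of the leading spaces of a power. -/
theorem ach_bound (hM : Mods) (hd : 1 ≤ d) (I : Ideal A) (G : Finset (ℕ × ℕ))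
    (hG : ∀ p ∈ G, X.V I p.1 p.2 ≠ ⊥) :
    ∃ s0 : ℕ, 1 ≤ s0 ∧ ∀ m n j κ, Ach X I G m n j κ → ∀ n' κ', n + s0 ≤ n' → κ ≤ κ' →
      finrank k (E.L (d * n')) ≤ finrank k (X.V (I ^ m) n' κ') + j := by
  set s0 := ∑ p ∈ G, (E.mu (X.V I p.1 p.2) + 1) + 1 with hs0
  refine ⟨s0, by omega, ?_⟩
  rintro m n j κ ⟨μ, a1, a2, a3, a4⟩ n' κ' hn' hκ'
  have hmu : ∀ p ∈ G, cod k (cont (X.V I p.1 p.2)) ≤ E.top (X.V I p.1 p.2) ∧
      E.top (X.V I p.1 p.2) ≤ d * p.1 := by
    intro p hp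
    have h := (hM.mu k O E).1 (X.V I p.1 p.2) (d * p.1) (hG p hp) (V_le X hM _ _ _)
    exact ⟨h.1, h.2.1⟩
  have hq : ∀ p ∈ G, E.mu (X.V I p.1 p.2) + 1 ≤ s0 := by
    intro p hp
    have := single_le_sum (f := fun p => E.mu (X.V I p.1 p.2) + 1) (fun _ _ => Nat.zero_le _) hp
    omega
  set q := d * (n' - ∑ p ∈ G, μ p * p.1) with hqd
  have hq0 : s0 ≤ q := by
    calc s0 ≤ 1 * (n' - ∑ p ∈ G, μ p * p.1) := by omega
      _ ≤ q := Nat.mul_le_mul_right _ hd
  have h1 := finrank_prod E hM.rr hM.pen G (fun p => X.V I p.1 p.2) (fun p => d * p.1) s0 hG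
    (fun p _ => V_le X hM _ _ _) (fun p hp => (hmu p hp).1) hq μ q hq0 (by omega)
  have h2 : (∏ p ∈ G, X.V I p.1 p.2 ^ μ p) * E.L q ≤ X.V (I ^ m) n' κ' := by
    have h3 := V_mul X hM (I ^ (∑ p ∈ G, μ p)) ⊤ (∑ p ∈ G, μ p * p.1) (∑ p ∈ G, μ p * p.2)
      (n' - ∑ p ∈ G, μ p * p.1) (κ' - ∑ p ∈ G, μ p * p.2)
    rw [V_top X hM, Ideal.mul_top, a1, Nat.add_sub_cancel' (by omega),
      Nat.add_sub_cancel' (by omega)] at h3
    have h4 := V_prod X hM I G μ
    rw [a1] at h4
    exact (mul_le_mul' h4 le_rfl).trans h3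
  haveI : FiniteDimensional k (E.L (d * n')) := finD hM E _
  haveI : FiniteDimensional k (X.V (I ^ m) n' κ') :=
    Submodule.finiteDimensional_of_le (V_le X hM _ _ _)
  have h5 := Submodule.finrank_mono h2
  rw [h1] at h5
  rw [finrank_L hM E, if_neg (by
    have : 1 * 1 ≤ d * n' := Nat.mul_le_mul hd (by omega)
    omega)]
  have h6 : ∑ p ∈ G, μ p * dl X I p + ∑ p ∈ G, μ p * E.mu (X.V I p.1 p.2) =
      d * ∑ p ∈ G, μ p * p.1 := by
    rw [← sum_add_distrib, mul_sum]
    refine sum_congr rfl fun p hp => ?_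
    rw [← mul_add, mul_left_comm]
    congr 1
    have := (hmu p hp).2
    unfold dl Ell.mu
    omega
  have h7 : d * n' = q + d * ∑ p ∈ G, μ p * p.1 := by
    rw [hqd, ← mul_add]
    congr 1
    omega
  have h8 : (fun p : ℕ × ℕ => μ p * E.mu (X.V I p.1 p.2)) =
    (fun p : ℕ × ℕ => μ p * E.mu ((fun p : ℕ × ℕ => X.V I p.1 p.2) p)) := rfl
  omega

/-- the place `(n, κ)` has a leading space of defect at most `j` -/
def Hit (I : Ideal A) (n j κ : ℕ) : Prop := X.V I n κ ≠ ⊥ ∧ dl X I (n, κ) ≤ j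

theorem hit_mono (hM : Mods) (I : Ideal A) (n : ℕ) {j κ j' κ' : ℕ} (hj : j ≤ j') (hκ : κ ≤ κ')
    (h : Hit X I n j κ) : Hit X I n j' κ' := by
  have h1 := V_mono X hM I n hκ
  refine ⟨fun h0 => h.1 (le_bot_iff.1 (h0 ▸ h1)), ?_⟩
  have h2 := ((hM.mu k O E).1 (X.V I n κ) (d * n) h.1 (V_le X hM _ _ _)).2.2.2.2.2 _ h1
    (V_le X hM _ _ _)
  have h3 := h.2
  unfold dl at h3 ⊢
  simp only at h3 ⊢
  omega

theorem mu_L (hM : Mods) (E : Ell k O) (t : ℕ) : E.mu (E.L t) = if t = 1 then 0 else t := by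
  have h := (hM.mu k O E).2
  split_ifs with h1
  · subst h1
    exact h.2.1
  · by_cases h0 : t = 0
    · subst h0
      exact h.1
    · exact h.2.2 t (by omega)

theorem hit_full (hM : Mods) {I : Ideal A} {M : ℕ} (h : X.Box M ≤ I) {n κ : ℕ}
    (hn : M ≤ n ∨ M ≤ κ) (j : ℕ) (hj : d * n = 1 → 1 ≤ j) : Hit X I n j κ := by
  have hV := V_box X hM h hn
  refine ⟨?_, ?_⟩
  · rw [hV]
    exact L_ne_bot _
  · unfold dl
    simp only
    rw [hV, mu_L hM]
    split_ifs with h1
    · have := hj h1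
      omega
    · omega

/-- the indices which count in a row -/
def Jn (d n : ℕ) : Finset ℕ := (range (d * n + 1)).filter fun j => j + 1 ≠ d * n

open scoped Classical in
theorem row_place (hM : Mods) (hd : 1 ≤ d) (I : Ideal A) (n κ : ℕ) :
    ((Jn d n).filter fun j => ¬ Hit X I n j κ).card ≤
      finrank k (E.L (d * n)) - finrank k (X.V I n κ) := by
  have hfin : FiniteDimensional k (E.L (d * n)) := finD hM E _
  rw [finrank_L hM E]
  by_cases hV : X.V I n κ = ⊥
  · rw [hV, finrank_bot]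
    refine (card_filter_le _ _).trans ?_
    by_cases h0 : d * n = 0
    · rw [if_pos h0, Jn, h0]
      exact (card_filter_le _ _).trans (by simp)
    · rw [if_neg h0, Jn]
      have : ((range (d * n + 1)).filter fun j => j + 1 ≠ d * n) =
          (range (d * n + 1)).erase (d * n - 1) := by
        ext j
        rw [mem_filter, mem_erase]
        constructor
        · rintro ⟨h1, h2⟩
          exact ⟨by omega, h1⟩
        · rintro ⟨h1, h2⟩
          exact ⟨h2, by omega⟩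
      rw [this, card_erase_of_mem (mem_range.2 (by omega)), card_range]
      omega
  · have hmu := (hM.mu k O E).1 (X.V I n κ) (d * n) hV (V_le X hM _ _ _)
    obtain ⟨m1, m2, m3, m4, m5, m6⟩ := hmu
    have hmule : E.mu (X.V I n κ) ≤ d * n := (Nat.sub_le _ _).trans m2
    have hsub : ((Jn d n).filter fun j => ¬ Hit X I n j κ) ⊆
        (Jn d n).filter fun j => j < d * n - E.mu (X.V I n κ) := by
      intro j hj
      rw [mem_filter] at hj ⊢
      refine ⟨hj.1, ?_⟩
      by_contra hcon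
      exact hj.2 ⟨hV, by unfold dl; simp only; omega⟩
    refine (card_le_card hsub).trans ?_
    rcases Nat.lt_or_ge (E.mu (X.V I n κ)) 2 with h2 | h2
    · have h0 : E.mu (X.V I n κ) = 0 := by omega
      rw [m4 h0, h0, Nat.sub_zero]
      by_cases hdn : d * n = 0
      · rw [if_pos hdn, hdn]
        simp
      · rw [if_neg hdn]
        have : ((Jn d n).filter fun j => j < d * n) ⊆ range (d * n - 1) := by
          intro j hj
          rw [mem_filter, Jn, mem_filter] at hj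
          rw [mem_range]
          omega
        exact (card_le_card this).trans (by rw [card_range])
    · have hdn : d * n ≠ 0 := by omega
      rw [if_neg hdn]
      have : ((Jn d n).filter fun j => j < d * n - E.mu (X.V I n κ)) ⊆
          range (d * n - E.mu (X.V I n κ)) := by
        intro j hj
        rw [mem_filter] at hj
        exact mem_range.2 hj.2
      refine (card_le_card this).trans ?_
      rw [card_range]
      have := m5 h2
      omega

end

end Pool.Agent.NH60.SS.Z
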