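import Pool.Agent.NH60.SS.Stmts

/-!
# Asymptotic lattice sum by bilinear interpolation on cells
-/

set_option autoImplicit false

namespace Pool.Agent.NH60.SS

open Finset

namespace Comb

theorem sum_mul_range (f : ℕ → ℝ) (d s : ℕ) :
    ∑ i ∈ range d, ∑ b ∈ range s, f (i * s + b) = ∑ j ∈ range (d * s), f j := by
  induction d with
  | zero => simp
  | succ d ih => rw [sum_range_succ, ih, Nat.succ_mul, sum_range_add]

/-- weights of the corners of a cell -/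
theorem weights {m r r' : ℕ} (hm : 1 ≤ m) (hr : r < m) (hr' : r' < m) :
    ∃ m00 m10 m01 m11 : ℕ, m00 + m10 + m01 + m11 = m ∧ m10 + m11 = r ∧ m01 + m11 = r' ∧
      (m11 : ℝ) ≤ r * r' / m ∧ (m10 : ℝ) ≤ r * (m - r') / m + 1 ∧
      (m01 : ℝ) ≤ (m - r) * r' / m + 1 ∧ (m00 : ℝ) ≤ (m - r) * (m - r') / m := by
  have hq1 : r * r' / m ≤ r := Nat.div_le_of_le_mul (by nlinarith)
  have hq2 : r * r' / m ≤ r' := Nat.div_le_of_le_mul (by nlinarith)
  have hq3 : r + r' ≤ m + r * r' / m := by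
    by_contra hlt
    push Not at hlt
    have h1 : r * r' < m * (r * r' / m + 1) := Nat.lt_mul_div_succ _ (by omega)
    obtain ⟨u, hu⟩ := Nat.exists_eq_add_of_lt hr
    obtain ⟨v, hv⟩ := Nat.exists_eq_add_of_lt hr'
    have h2 : m * (r * r' / m + 1) ≤ m * (r + r' - m) := Nat.mul_le_mul_left _ (by omega)
    have h3 : m ≤ r + r' := le_trans (Nat.le_add_right _ _) hlt.le
    have h4 : r * r' < m * (r + r' - m) := lt_of_lt_of_le h1 h2
    zify [h3] at h4
    have h5 : (0 : ℤ) ≤ ((m : ℤ) - r) * ((m : ℤ) - r') := by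
      apply mul_nonneg
      · have : (r : ℤ) < m := by exact_mod_cast hr
        linarith
      · have : (r' : ℤ) < m := by exact_mod_cast hr'
        linarith
    nlinarith
  have hm0 : (0 : ℝ) < m := by exact_mod_cast hm
  have hf1 : ((r * r' / m : ℕ) : ℝ) ≤ r * r' / m := by
    have := @Nat.cast_div_le ℝ _ _ _ (r * r') m
    push_cast at this
    exact this
  have hf2 : (r * r' / m : ℝ) ≤ ((r * r' / m : ℕ) : ℝ) + 1 := by
    rw [div_le_iff₀ hm0]
    have h1 : r * r' < m * (r * r' / m + 1) := Nat.lt_mul_div_succ _ (by omega)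
    have h2 : ((r * r' : ℕ) : ℝ) ≤ ((m * (r * r' / m + 1) : ℕ) : ℝ) := by exact_mod_cast h1.le
    push_cast at h2
    linarith
  refine ⟨m + r * r' / m - r - r', r - r * r' / m, r' - r * r' / m, r * r' / m, by omega, by omega,
    by omega, hf1, ?_, ?_, ?_⟩
  · rw [Nat.cast_sub hq1]
    have : (r * (m - r') / m : ℝ) = r - r * r' / m := by
      field_simp
    rw [this]
    linarith
  · rw [Nat.cast_sub hq2]
    have : ((m - r) * r' / m : ℝ) = r' - r * r' / m := by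
      field_simp
    rw [this]
    linarith
  · have h1 : m + r * r' / m - r - r' = (m + r * r' / m) - (r + r') := by omega
    rw [h1, Nat.cast_sub hq3]
    have : ((m - r) * (m - r') / m : ℝ) = m + r * r' / m - (r + r') := by
      field_simp
      ring
    rw [this]
    push_cast
    linarith

theorem sum_id (m : ℕ) : ∑ r ∈ range m, (r : ℝ) = m * (m - 1) / 2 := by
  induction m with
  | zero => simp
  | succ m ih =>
    rw [sum_range_succ, ih]
    push_cast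
    ring

theorem sum_co (m : ℕ) : ∑ r ∈ range m, ((m : ℝ) - r) = m * (m + 1) / 2 := by
  rw [sum_sub_distrib, sum_id, sum_const, card_range, nsmul_eq_mul]
  ring

theorem sum2 (m : ℕ) (f g : ℕ → ℝ) (c : ℝ) :
    ∑ r ∈ range m, ∑ r' ∈ range m, (f r * g r' / m + c) =
      (∑ r ∈ range m, f r) * (∑ r ∈ range m, g r) / m + c * m ^ 2 := by
  rw [sum_mul_sum, sum_div, pow_two]
  have : ∀ r ∈ range m, ∑ r' ∈ range m, (f r * g r' / m + c) =
      (∑ j ∈ range m, f r * g j) / m + m * c := by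
    intro r _
    rw [sum_add_distrib, sum_div, sum_const, card_range, nsmul_eq_mul]
  rw [sum_congr rfl this, sum_add_distrib, sum_const, card_range, nsmul_eq_mul]
  ring

section

variable (d : ℕ) (Ach : ℕ → ℕ → ℕ → ℕ → Prop)
  (h1 : ∀ m n j κ m' n' j' κ', Ach m n j κ → Ach m' n' j' κ' →
      Ach (m + m') (n + n') (j + j') (κ + κ'))
  (h2 : ∀ m n j κ n' j' κ', n ≤ n' → j ≤ j' → κ ≤ κ' → Ach m n j κ → Ach m n' j' κ')
  (h3 : Ach 0 0 0 0)
  (γ : ℕ → ℕ → ℝ) (ns : ℕ) (C : ℝ) (hC : 0 ≤ C) (h4 : ∀ n j, 0 ≤ γ n j)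
  (h5 : ∀ n j, ns ≤ n → γ n j = 0)
  (h6 : Ach 1 ns 0 0)
  (h7 : ∀ n j, j ≤ d * n → ∀ m κ : ℕ, γ n j * m + C ≤ κ → Ach m (m * n) (m * j) κ)

/-- the sum of the values at the corners of a cell -/
noncomputable def Gam (i s b : ℕ) : ℝ :=
  γ s (i * s + b) + γ (s + 1) (i * (s + 1) + b) + γ (s + 1) (i * (s + 1) + (b + 1)) +
    γ (s + 2) (i * (s + 2) + (b + 1))

/-- the bound at a point of a cell -/
noncomputable def F (m : ℕ) (i s b r r' : ℕ) : ℝ :=
  γ s (i * s + b) * ((m - r) * (m - r') / m + 0) +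
    γ (s + 1) (i * (s + 1) + b) * (r * (m - r') / m + 1) +
    γ (s + 1) (i * (s + 1) + (b + 1)) * ((m - r) * r' / m + 1) +
    γ (s + 2) (i * (s + 2) + (b + 1)) * (r * r' / m + 0) + 4 * (C + 1)

include h4 in
theorem Gam_nonneg (i s b : ℕ) : 0 ≤ Gam γ i s b := by
  unfold Gam
  have := h4 s (i * s + b)
  have := h4 (s + 1) (i * (s + 1) + b)
  have := h4 (s + 1) (i * (s + 1) + (b + 1))
  have := h4 (s + 2) (i * (s + 2) + (b + 1))
  linarith

include h4 hC in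
theorem F_nonneg {m i s b r r' : ℕ} (hr : r < m) (hr' : r' < m) : 0 ≤ F γ C m i s b r r' := by
  have a1 : (0 : ℝ) ≤ r := Nat.cast_nonneg _
  have a2 : (0 : ℝ) ≤ r' := Nat.cast_nonneg _
  have a3 : (0 : ℝ) ≤ (m : ℝ) - r := by
    have : (r : ℝ) ≤ m := by exact_mod_cast hr.le
    linarith
  have a4 : (0 : ℝ) ≤ (m : ℝ) - r' := by
    have : (r' : ℝ) ≤ m := by exact_mod_cast hr'.le
    linarith
  have := h4 s (i * s + b)
  have := h4 (s + 1) (i * (s + 1) + b)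
  have := h4 (s + 1) (i * (s + 1) + (b + 1))
  have := h4 (s + 2) (i * (s + 2) + (b + 1))
  unfold F
  positivity

theorem sum_F {m : ℕ} (hm : 1 ≤ m) (i s b : ℕ) (h4 : ∀ n j, 0 ≤ γ n j) :
    ∑ r ∈ range m, ∑ r' ∈ range m, F γ C m i s b r r' ≤
      Gam γ i s b / 4 * (m : ℝ) ^ 3 + (Gam γ i s b + 4 * (C + 1)) * (m : ℝ) ^ 2 := by
  have hm0 : (1 : ℝ) ≤ m := by exact_mod_cast hm
  have hmp : (0 : ℝ) < m := by linarith
  have key : ∑ r ∈ range m, ∑ r' ∈ range m, F γ C m i s b r r' =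
      γ s (i * s + b) * ((m * (m + 1) / 2) * (m * (m + 1) / 2) / m + 0 * m ^ 2) +
      γ (s + 1) (i * (s + 1) + b) * ((m * (m - 1) / 2) * (m * (m + 1) / 2) / m + 1 * m ^ 2) +
      γ (s + 1) (i * (s + 1) + (b + 1)) *
        ((m * (m + 1) / 2) * (m * (m - 1) / 2) / m + 1 * m ^ 2) +
      γ (s + 2) (i * (s + 2) + (b + 1)) *
        ((m * (m - 1) / 2) * (m * (m - 1) / 2) / m + 0 * m ^ 2) + 4 * (C + 1) * m ^ 2 := by
    rw [← sum_id m, ← sum_co m, ← sum2, ← sum2, ← sum2, ← sum2]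
    unfold F
    simp only [sum_add_distrib, ← mul_sum, sum_const, card_range, nsmul_eq_mul]
    ring
  have e1 : (m * (m + 1) / 2 : ℝ) * (m * (m + 1) / 2) / m + 0 * m ^ 2 ≤ m ^ 3 / 4 + m ^ 2 := by
    have : (m * (m + 1) / 2 : ℝ) * (m * (m + 1) / 2) / m = m * (m + 1) ^ 2 / 4 := by
      field_simp
      ring
    rw [this]
    nlinarith
  have e2 : (m * (m - 1) / 2 : ℝ) * (m * (m + 1) / 2) / m + 1 * m ^ 2 ≤ m ^ 3 / 4 + m ^ 2 := by
    have : (m * (m - 1) / 2 : ℝ) * (m * (m + 1) / 2) / m = m * (m ^ 2 - 1) / 4 := by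
      field_simp
      ring
    rw [this]
    nlinarith
  have e3 : (m * (m + 1) / 2 : ℝ) * (m * (m - 1) / 2) / m + 1 * m ^ 2 ≤ m ^ 3 / 4 + m ^ 2 := by
    have : (m * (m + 1) / 2 : ℝ) * (m * (m - 1) / 2) / m = m * (m ^ 2 - 1) / 4 := by
      field_simp
      ring
    rw [this]
    nlinarith
  have e4 : (m * (m - 1) / 2 : ℝ) * (m * (m - 1) / 2) / m + 0 * m ^ 2 ≤ m ^ 3 / 4 + m ^ 2 := by
    have : (m * (m - 1) / 2 : ℝ) * (m * (m - 1) / 2) / m = m * (m - 1) ^ 2 / 4 := by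
      field_simp
      ring
    rw [this]
    nlinarith
  rw [key]
  have f1 := mul_le_mul_of_nonneg_left e1 (h4 s (i * s + b))
  have f2 := mul_le_mul_of_nonneg_left e2 (h4 (s + 1) (i * (s + 1) + b))
  have f3 := mul_le_mul_of_nonneg_left e3 (h4 (s + 1) (i * (s + 1) + (b + 1)))
  have f4 := mul_le_mul_of_nonneg_left e4 (h4 (s + 2) (i * (s + 2) + (b + 1)))
  unfold Gam
  linarith

include h1 h7 h4 hC in
theorem K_le {m : ℕ} (hm : 1 ≤ m) {K : ℕ → ℕ → ℕ} (hK : ∀ n j κ, Ach m n j κ → K n j ≤ κ)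
    {i s b r r' : ℕ} (hi : i < d) (hb : b ≤ s) (hr : r < m) (hr' : r' < m) :
    (K (m * s + r + r') (i * (m * s + r + r') + (m * b + r')) : ℝ) ≤ F γ C m i s b r r' := by
  obtain ⟨m00, m10, m01, m11, w1, w2, w3, b11, b10, b01, b00⟩ := weights hm hr hr'
  have hi1 : i + 1 ≤ d := hi
  have c0 : i * s + b ≤ d * s := by nlinarith
  have c1 : i * (s + 1) + b ≤ d * (s + 1) := by nlinarith
  have c2 : i * (s + 1) + (b + 1) ≤ d * (s + 1) := by nlinarith
  have c3 : i * (s + 2) + (b + 1) ≤ d * (s + 2) := by nlinarith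
  have hce : ∀ (g : ℝ) (w : ℕ), g * w + C ≤ ((⌈g * w + C⌉₊ : ℕ) : ℝ) := fun g w => Nat.le_ceil _
  have a0 := h7 _ _ c0 m00 _ (hce _ _)
  have a1 := h7 _ _ c1 m10 _ (hce _ _)
  have a2 := h7 _ _ c2 m01 _ (hce _ _)
  have a3 := h7 _ _ c3 m11 _ (hce _ _)
  have a := h1 _ _ _ _ _ _ _ _ (h1 _ _ _ _ _ _ _ _ (h1 _ _ _ _ _ _ _ _ a0 a1) a2) a3
  have en : m00 * s + m10 * (s + 1) + m01 * (s + 1) + m11 * (s + 2) = m * s + r + r' := by
    rw [← w1, ← w2, ← w3]
    ring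
  have ej : m00 * (i * s + b) + m10 * (i * (s + 1) + b) + m01 * (i * (s + 1) + (b + 1)) +
      m11 * (i * (s + 2) + (b + 1)) = i * (m * s + r + r') + (m * b + r') := by
    rw [← w1, ← w2, ← w3]
    ring
  rw [w1, en, ej] at a
  have hle := hK _ _ _ a
  have hcl : ∀ (g : ℝ) (w : ℕ) (y : ℝ), 0 ≤ g → (w : ℝ) ≤ y →
      ((⌈g * w + C⌉₊ : ℕ) : ℝ) ≤ g * y + (C + 1) := by
    intro g w y hg hw
    have : ((⌈g * w + C⌉₊ : ℕ) : ℝ) < g * w + C + 1 := Nat.ceil_lt_add_one (by positivity)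
    have h8 := mul_le_mul_of_nonneg_left hw hg
    linarith
  have k0 := hcl (γ s (i * s + b)) m00 ((m - r) * (m - r') / m + 0) (h4 _ _) (by linarith)
  have k1 := hcl (γ (s + 1) (i * (s + 1) + b)) m10 (r * (m - r') / m + 1) (h4 _ _) b10
  have k2 := hcl (γ (s + 1) (i * (s + 1) + (b + 1))) m01 ((m - r) * r' / m + 1) (h4 _ _) b01
  have k3 := hcl (γ (s + 2) (i * (s + 2) + (b + 1))) m11 (r * r' / m + 0) (h4 _ _) (by linarith)
  have hle' : (K (m * s + r + r') (i * (m * s + r + r') + (m * b + r')) : ℝ) ≤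
      ((⌈γ s (i * s + b) * m00 + C⌉₊ : ℕ) : ℝ) + ((⌈γ (s + 1) (i * (s + 1) + b) * m10 + C⌉₊ : ℕ) : ℝ) +
      ((⌈γ (s + 1) (i * (s + 1) + (b + 1)) * m01 + C⌉₊ : ℕ) : ℝ) +
      ((⌈γ (s + 2) (i * (s + 2) + (b + 1)) * m11 + C⌉₊ : ℕ) : ℝ) := by
    exact_mod_cast hle
  unfold F
  linarith

include h1 h2 h3 h6 in
theorem K_zero {m : ℕ} {K : ℕ → ℕ → ℕ} (hK : ∀ n j κ, Ach m n j κ → K n j ≤ κ)
    {n j : ℕ} (hn : m * ns ≤ n) : K n j = 0 := by
  have key : ∀ m : ℕ, Ach m (m * ns) 0 0 := by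
    intro m
    induction m with
    | zero => simpa using h3
    | succ m ih =>
      have := h1 _ _ _ _ _ _ _ _ ih h6
      rw [Nat.succ_mul]
      exact this
  exact Nat.le_zero.1 (hK n j 0 (h2 _ _ _ _ _ _ _ hn (Nat.zero_le _) le_rfl (key m)))

include h4 h5 in
theorem cells (i : ℕ) : ∑ s ∈ range ns, ∑ b ∈ range (s + 1), Gam γ i s b ≤
    γ 0 0 + 2 * ∑ s ∈ range ns, ∑ b ∈ range (s + 1),
      (γ (s + 1) (i * (s + 1) + b) + γ (s + 1) (i * (s + 1) + (b + 1))) := by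
  -- `P s`: the contribution of the row `s`
  set P : ℕ → ℝ := fun s => ∑ b ∈ range s, (γ s (i * s + b) + γ s (i * s + (b + 1))) with hP
  set Q : ℕ → ℝ := fun s => ∑ b ∈ range (s + 1), γ s (i * s + b) with hQ
  set R : ℕ → ℝ := fun s => ∑ b ∈ range (s - 1), γ s (i * s + (b + 1)) with hR
  have hP0 : ∀ s, 0 ≤ P s := fun s => sum_nonneg fun b _ => add_nonneg (h4 _ _) (h4 _ _)
  have hlhs : ∀ s, ∑ b ∈ range (s + 1), Gam γ i s b = Q s + P (s + 1) + R (s + 2) := by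
    intro s
    simp only [Gam, hP, hQ, hR, sum_add_distrib]
    rw [show s + 2 - 1 = s + 1 by omega]
    ring
  have hQR : ∀ s, Q (s + 1) + R (s + 1) = P (s + 1) := by
    intro s
    simp only [hP, hQ, hR, sum_add_distrib, Nat.add_sub_cancel]
    rw [sum_range_succ (fun b => γ (s + 1) (i * (s + 1) + b)) (s + 1),
      sum_range_succ (fun b => γ (s + 1) (i * (s + 1) + (b + 1))) s]
    ring
  have hR1 : R 1 = 0 := by simp [hR]
  have hind : ∀ M : ℕ, ∑ s ∈ range (M + 1), (Q s + P (s + 1) + R (s + 2)) =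
      γ 0 0 + ∑ s ∈ range M, P (s + 1) + ∑ s ∈ range (M + 1), P (s + 1) + R (M + 1) + R (M + 2) := by
    intro M
    induction M with
    | zero =>
      rw [zero_add, sum_range_one, sum_range_one, sum_range_zero, hR1]
      simp [hQ]
    | succ M ih =>
      rw [sum_range_succ, ih, sum_range_succ (fun s => P (s + 1)) (M + 1)]
      have := hQR M
      rw [sum_range_succ (fun s => P (s + 1)) M]
      linarith
  rw [sum_congr rfl fun s _ => hlhs s]
  show ∑ s ∈ range ns, (Q s + P (s + 1) + R (s + 2)) ≤ γ 0 0 + 2 * ∑ s ∈ range ns, P (s + 1)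
  rcases Nat.eq_zero_or_pos ns with h0 | hpos
  · rw [h0]
    simp only [range_zero, sum_empty]
    have := h4 0 0
    linarith
  · obtain ⟨M, rfl⟩ : ∃ M, ns = M + 1 := ⟨ns - 1, by omega⟩
    have hz1 : R (M + 1) = 0 := sum_eq_zero fun b _ => h5 _ _ le_rfl
    have hz2 : R (M + 2) = 0 := sum_eq_zero fun b _ => h5 _ _ (by omega)
    rw [hind, hz1, hz2, sum_range_succ (fun s => P (s + 1)) M]
    have := hP0 (M + 1)
    linarith

end

end Comb

open Comb

theorem t_Comb : StmtComb := by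
  intro d hd Ach h1 h2 h3 γ ns C0 h4 h5 h6 h70
  set C : ℝ := max C0 0 with hCdef
  have hC : 0 ≤ C := le_max_right _ _
  have h7 : ∀ n j, j ≤ d * n → ∀ m κ : ℕ, γ n j * m + C ≤ κ → Ach m (m * n) (m * j) κ := by
    intro n j hj m κ h
    exact h70 n j hj m κ (by have := le_max_left C0 0; linarith)
  refine ⟨∑ i ∈ range d, ∑ s ∈ range ns, ∑ b ∈ range (s + 1), (Gam γ i s b + 4 * (C + 1)), ?_⟩
  intro m hm K hK N
  classical
  -- the transfer to cells
  let φ : (Σ _ : ℕ, ℕ) → (Σ _ : ℕ, Σ _ : ℕ, Σ _ : ℕ, Σ _ : ℕ, ℕ) := fun x =>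
    ⟨x.2 / x.1, (x.1 - x.2 % x.1) / m + (x.2 % x.1) / m, (x.2 % x.1) / m, (x.1 - x.2 % x.1) % m,
      (x.2 % x.1) % m⟩
  let ψ : (Σ _ : ℕ, Σ _ : ℕ, Σ _ : ℕ, Σ _ : ℕ, ℕ) → (Σ _ : ℕ, ℕ) := fun t =>
    ⟨m * t.2.1 + t.2.2.2.1 + t.2.2.2.2,
      t.1 * (m * t.2.1 + t.2.2.2.1 + t.2.2.2.2) + (m * t.2.2.1 + t.2.2.2.2)⟩
  let S : Finset (Σ _ : ℕ, ℕ) := (range N).sigma fun n => range (d * n)
  let T : Finset (Σ _ : ℕ, Σ _ : ℕ, Σ _ : ℕ, Σ _ : ℕ, ℕ) :=
    (range d).sigma fun _ => (range ns).sigma fun s => (range (s + 1)).sigma fun _ =>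
      (range m).sigma fun _ => range m
  let G : (Σ _ : ℕ, Σ _ : ℕ, Σ _ : ℕ, Σ _ : ℕ, ℕ) → ℝ := fun t =>
    F γ C m t.1 t.2.1 t.2.2.1 t.2.2.2.1 t.2.2.2.2
  have hleft : ∀ x ∈ S, ψ (φ x) = x := by
    rintro ⟨n, j⟩ hx
    have hx' := mem_sigma.1 hx
    have hj : j < d * n := mem_range.1 hx'.2
    have hn : 0 < n := by
      rcases Nat.eq_zero_or_pos n with h | h
      · rw [h, mul_zero] at hj
        omega
      · exact h
    have hβ : j % n < n := Nat.mod_lt _ hn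
    have e1 := Nat.div_add_mod (n - j % n) m
    have e2 := Nat.div_add_mod (j % n) m
    have e3 := Nat.div_add_mod j n
    have hn' : m * ((n - j % n) / m + (j % n) / m) + (n - j % n) % m + (j % n) % m = n := by
      rw [mul_add]
      omega
    have hj' : j / n * n + (m * ((j % n) / m) + (j % n) % m) = j := by
      rw [e2, mul_comm]
      exact e3
    simp only [φ, ψ]
    rw [hn', hj']
  have hlhs : (∑ n ∈ range N, ∑ j ∈ range (d * n), (K n j : ℝ)) = ∑ x ∈ S, (K x.1 x.2 : ℝ) := by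
    rw [sum_sigma]
  have hfil : ∑ x ∈ S, (K x.1 x.2 : ℝ) = ∑ x ∈ S with K x.1 x.2 ≠ 0, (K x.1 x.2 : ℝ) := by
    rw [sum_filter]
    refine sum_congr rfl fun x _ => ?_
    by_cases h : K x.1 x.2 = 0
    · simp [h]
    · simp [h]
  have hmem : ∀ x ∈ S.filter (fun x => K x.1 x.2 ≠ 0), φ x ∈ T := by
    rintro x hx
    have hxS := (mem_filter.1 hx).1
    have hxK := (mem_filter.1 hx).2
    have hl := hleft x hxS
    obtain ⟨n, j⟩ := x
    have hj : j < d * n := mem_range.1 (mem_sigma.1 hxS).2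
    have hn : m * ((n - j % n) / m + (j % n) / m) + (n - j % n) % m + (j % n) % m = n :=
      congrArg Sigma.fst hl
    have hns : (n - j % n) / m + (j % n) / m < ns := by
      by_contra hge
      push Not at hge
      apply hxK
      apply K_zero Ach h1 h2 h3 ns h6 hK
      have hle : m * ((n - j % n) / m + (j % n) / m) ≤
          m * ((n - j % n) / m + (j % n) / m) + (n - j % n) % m + (j % n) % m := by
        rw [add_assoc]
        exact Nat.le_add_right _ _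
      exact (Nat.mul_le_mul_left _ hge).trans (hle.trans (le_of_eq hn))
    simp only [φ, T, mem_sigma, mem_range]
    refine ⟨Nat.div_lt_of_lt_mul (by rw [mul_comm]; exact hj), hns,
      Nat.lt_succ_of_le (Nat.le_add_left _ _),
      Nat.mod_lt _ (by omega), Nat.mod_lt _ (by omega)⟩
  have hval : ∀ x ∈ S.filter (fun x => K x.1 x.2 ≠ 0), (K x.1 x.2 : ℝ) ≤ G (φ x) := by
    intro x hx
    have hT := hmem x hx
    have hl := hleft x (mem_filter.1 hx).1
    generalize φ x = t at hT hl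
    subst hl
    obtain ⟨i, s, b, r, r'⟩ := t
    simp only [T, mem_sigma, mem_range] at hT
    obtain ⟨t1, t2, t3, t4, t5⟩ := hT
    exact K_le d Ach h1 γ C hC h4 h7 hm hK t1 (Nat.lt_succ_iff.1 t3) t4 t5
  have hinj : Set.InjOn φ (S.filter (fun x => K x.1 x.2 ≠ 0) : Set (Σ _ : ℕ, ℕ)) := by
    intro x hx y hy h
    have hx' := hleft x (mem_filter.1 (mem_coe.1 hx)).1
    have hy' := hleft y (mem_filter.1 (mem_coe.1 hy)).1
    rw [← hx', ← hy', h]
  have hsum : ∑ x ∈ S with K x.1 x.2 ≠ 0, (K x.1 x.2 : ℝ) ≤ ∑ t ∈ T, G t := by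
    calc ∑ x ∈ S with K x.1 x.2 ≠ 0, (K x.1 x.2 : ℝ)
        ≤ ∑ x ∈ S with K x.1 x.2 ≠ 0, G (φ x) := sum_le_sum hval
      _ = ∑ t ∈ (S.filter (fun x => K x.1 x.2 ≠ 0)).image φ, G t := (sum_image hinj).symm
      _ ≤ ∑ t ∈ T, G t := by
          apply sum_le_sum_of_subset_of_nonneg
          · intro t ht
            obtain ⟨x, hx, rfl⟩ := mem_image.1 ht
            exact hmem x hx
          · rintro ⟨i, s, b, r, r'⟩ ht _
            simp only [T, mem_sigma, mem_range] at ht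
            obtain ⟨t1, t2, t3, t4, t5⟩ := ht
            exact F_nonneg γ C hC h4 t4 t5
  have hT : ∑ t ∈ T, G t = ∑ i ∈ range d, ∑ s ∈ range ns, ∑ b ∈ range (s + 1),
      ∑ r ∈ range m, ∑ r' ∈ range m, F γ C m i s b r r' := by
    simp only [T, G, sum_sigma]
  have hbd : ∑ t ∈ T, G t ≤ (∑ i ∈ range d, ∑ s ∈ range ns, ∑ b ∈ range (s + 1), Gam γ i s b) / 4 *
      (m : ℝ) ^ 3 + (∑ i ∈ range d, ∑ s ∈ range ns, ∑ b ∈ range (s + 1),
        (Gam γ i s b + 4 * (C + 1))) * (m : ℝ) ^ 2 := by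
    rw [hT]
    simp only [sum_div, sum_mul, ← sum_add_distrib]
    exact sum_le_sum fun i _ => sum_le_sum fun s _ => sum_le_sum fun b _ =>
      sum_F γ C hm i s b h4
  have hG : (∑ i ∈ range d, ∑ s ∈ range ns, ∑ b ∈ range (s + 1), Gam γ i s b) / 4 ≤
      (d : ℝ) / 4 * γ 0 0 +
          ∑ n ∈ Icc 1 ns, ∑ j ∈ range (d * n), (γ n j + γ n (j + 1)) / 2 := by
    have g1 : ∑ i ∈ range d, ∑ s ∈ range ns, ∑ b ∈ range (s + 1), Gam γ i s b ≤
        ∑ i ∈ range d, (γ 0 0 + 2 * ∑ s ∈ range ns, ∑ b ∈ range (s + 1),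
          (γ (s + 1) (i * (s + 1) + b) + γ (s + 1) (i * (s + 1) + (b + 1)))) :=
      sum_le_sum fun i _ => cells γ ns h4 h5 i
    have g2 : ∑ n ∈ Icc 1 ns, ∑ j ∈ range (d * n), (γ n j + γ n (j + 1)) / 2 =
        (∑ i ∈ range d, ∑ s ∈ range ns, ∑ b ∈ range (s + 1),
          (γ (s + 1) (i * (s + 1) + b) + γ (s + 1) (i * (s + 1) + (b + 1)))) / 2 := by
      have : Icc 1 ns = Ico 1 (ns + 1) := by
        ext x
        simp only [mem_Icc, mem_Ico]
        omega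
      rw [this, sum_Ico_eq_sum_range, sum_comm, sum_div, Nat.add_sub_cancel]
      refine sum_congr rfl fun s _ => ?_
      rw [add_comm 1 s, ← sum_mul_range (fun j => (γ (s + 1) j + γ (s + 1) (j + 1)) / 2), sum_div]
      refine sum_congr rfl fun i _ => ?_
      rw [sum_div]
      rfl
    rw [g2]
    rw [sum_add_distrib, sum_const, card_range, nsmul_eq_mul, ← mul_sum] at g1
    linarith
  rw [hlhs, hfil]
  refine hsum.trans (hbd.trans ?_)
  have hm3 : (0 : ℝ) ≤ (m : ℝ) ^ 3 := by positivity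
  have := mul_le_mul_of_nonneg_right hG hm3
  linarith

end Pool.Agent.NH60.SS
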