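import Pool.Agent.NH60.SS.Wei
import Pool.Agent.X261.BC.Fam

/-!
# The elliptic curves which occur
-/

set_option autoImplicit false

namespace Pool.Agent.NH60.SS

open Polynomial Module
open WeierstrassCurve.Affine WeierstrassCurve.Affine.CoordinateRing
open Pool.Agent.X261.BC (cub wei cub_eq ded_wei cub_monic)

theorem sep_of_discr (a b c : ℂ)
    (h : a ^ 2 * b ^ 2 - 4 * b ^ 3 - 4 * a ^ 3 * c - 27 * c ^ 2 + 18 * a * b * c ≠ 0) :
    (cub a b c).Separable := by
  have hs : (cub a b c).Splits := IsAlgClosed.splits _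
  rw [← nodup_roots_iff_of_splits (cub_monic a b c).ne_zero hs]
  have h1 := Cubic.discr_ne_zero_iff_roots_nodup (P := (⟨1, a, b, c⟩ : Cubic ℂ))
    (φ := RingHom.id ℂ) (by exact one_ne_zero) (by rw [← cub_eq, Polynomial.map_id]; exact hs)
  have h2 : (⟨1, a, b, c⟩ : Cubic ℂ).discr ≠ 0 := by
    unfold Cubic.discr
    intro h0
    apply h
    linear_combination h0
  have h3 := h1.1 h2
  rw [Cubic.map_roots, ← cub_eq, Polynomial.map_id] at h3
  exact h3

/-- The curve `y ^ 2 = x ^ 3 + a x ^ 2 + b x + c`. -/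
theorem exists_curve (a b c : ℂ)
    (h : a ^ 2 * b ^ 2 - 4 * b ^ 3 - 4 * a ^ 3 * c - 27 * c ^ 2 + 18 * a * b * c ≠ 0) :
    ∃ (O : Type) (_ : CommRing O) (_ : IsDedekindDomain O) (_ : Algebra ℂ O) (E : Ell ℂ O)
      (x y : O), E.deg x = 2 ∧ E.deg y = 3 ∧
        y ^ 2 = x ^ 3 + a • x ^ 2 + b • x + algebraMap ℂ O c := by
  refine ⟨(wei a b c).CoordinateRing, inferInstance, ded_wei two_ne_zero (sep_of_discr a b c h),
    inferInstance, ellW (wei a b c), algebraMap ℂ[X] _ X, CoordinateRing.mk _ X,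
    ellW_deg_x _, ellW_deg_y _, ?_⟩
  have h00 : CoordinateRing.mk (wei a b c) (wei a b c).polynomial = 0 := AdjoinRoot.mk_self
  have h0 : CoordinateRing.mk (wei a b c) (X ^ 2 - C (cub a b c)) = 0 := by
    have h1 := Pool.Agent.X261.BC.poly_wei a b c
    exact (congrArg (CoordinateRing.mk (wei a b c)) h1).symm.trans h00
  rw [cub] at h0
  have hx : (algebraMap ℂ[X] (wei a b c).CoordinateRing X) = CoordinateRing.mk (wei a b c) (C X) :=
    rfl
  have hc : ∀ u : ℂ, ∀ z : (wei a b c).CoordinateRing,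
      u • z = CoordinateRing.mk (wei a b c) (C (C u)) * z := by
    intro u z
    rw [Algebra.smul_def]
    rfl
  have hc' : ∀ u : ℂ, algebraMap ℂ (wei a b c).CoordinateRing u =
      CoordinateRing.mk (wei a b c) (C (C u)) := fun u => rfl
  rw [hx, hc, hc, hc']
  simp only [map_add, map_sub, map_mul, map_pow, C_add, C_mul, C_pow] at h0 ⊢
  linear_combination h0

end Pool.Agent.NH60.SS
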