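import Mathlib

/-!
# Semistability of simple elliptic surface singularities: definitions

Degree functions of elliptic type, truncated ideals, and coordinates on a ring of power series.
-/

set_option autoImplicit false

namespace Pool.Agent.NH60.SS

open Finset Module

/-- A degree function of elliptic type on a domain `O` over a field `k`: it behaves like the order
of the pole at the origin for the functions on an affine elliptic curve. -/
structure Ell (k O : Type) [Field k] [CommRing O] [IsDomain O] [Algebra k O] where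
  /-- the degree -/
  deg : O → ℕ
  deg_zero : deg 0 = 0
  deg_mul : ∀ f g : O, f ≠ 0 → g ≠ 0 → deg (f * g) = deg f + deg g
  deg_add : ∀ f g : O, deg (f + g) ≤ max (deg f) (deg g)
  deg_const : ∀ f : O, deg f = 0 → ∃ c : k, f = algebraMap k O c
  deg_algebraMap : ∀ c : k, deg (algebraMap k O c) = 0
  deg_ne_one : ∀ f : O, deg f ≠ 1
  exists_deg : ∀ m : ℕ, m ≠ 1 → ∃ f : O, f ≠ 0 ∧ deg f = m
  lead : ∀ f g : O, deg f = deg g → 0 < deg f → ∃ c : k, deg (f - c • g) < deg f
  fin_quot : ∀ b : Ideal O, b ≠ ⊥ → Module.Finite k (O ⧸ b)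
  cod_span : ∀ f : O, f ≠ 0 → finrank k (O ⧸ Ideal.span {f}) = deg f

/-- the codimension of an ideal -/
noncomputable def cod (k : Type) {O : Type} [Field k] [CommRing O] [Algebra k O] (b : Ideal O) : ℕ :=
  finrank k (O ⧸ b)

/-- the ideal generated by a subspace -/
def cont {k O : Type} [Field k] [CommRing O] [Algebra k O] (V : Submodule k O) : Ideal O :=
  Ideal.span (V : Set O)

namespace Ell

variable {k O : Type} [Field k] [CommRing O] [IsDomain O] [Algebra k O] (E : Ell k O)

theorem deg_smul_le (c : k) (f : O) : E.deg (c • f) ≤ E.deg f := by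
  by_cases hc : c = 0
  · rw [hc, zero_smul, E.deg_zero]
    exact Nat.zero_le _
  by_cases hf : f = 0
  · rw [hf, smul_zero]
  rw [Algebra.smul_def, E.deg_mul _ _ ?_ hf, E.deg_algebraMap, zero_add]
  rwa [Ne, FaithfulSMul.algebraMap_eq_zero_iff]

/-- the elements of degree at most `t` -/
def L (t : ℕ) : Submodule k O where
  carrier := {f | E.deg f ≤ t}
  zero_mem' := by
    show E.deg 0 ≤ t
    rw [E.deg_zero]
    exact Nat.zero_le _
  add_mem' := by
    intro f g hf hg
    exact (E.deg_add f g).trans (max_le hf hg)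
  smul_mem' := by
    intro c f hf
    exact (E.deg_smul_le c f).trans hf

theorem mem_L {t : ℕ} {f : O} : f ∈ E.L t ↔ E.deg f ≤ t := Iff.rfl

/-- the elements of degree at most `t` of an ideal -/
def cap (b : Ideal O) (t : ℕ) : Submodule k O := b.restrictScalars k ⊓ E.L t

theorem mem_cap {b : Ideal O} {t : ℕ} {f : O} : f ∈ E.cap b t ↔ f ∈ b ∧ E.deg f ≤ t := Iff.rfl

/-- the largest degree of an element of a subspace (of bounded degree) -/
noncomputable def top (V : Submodule k O) : ℕ := sSup (E.deg '' (V : Set O))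

/-- the degree of the moving part of a subspace -/
noncomputable def mu (V : Submodule k O) : ℕ := E.top V - cod k (cont V)

end Ell

/-- Coordinates on a `k`-algebra `A`: it is identified with the ring of all double series
`∑ a (n, j) s ^ n t ^ j` with `a (n, j)` in `L (d n)`. -/
structure Coord {k O : Type} [Field k] [CommRing O] [IsDomain O] [Algebra k O] (E : Ell k O)
    (d : ℕ) (A : Type) [CommRing A] [Algebra k A] where
  /-- the coefficients -/
  co : ℕ → ℕ → A →ₗ[k] O
  mem : ∀ n j x, co n j x ∈ E.L (d * n)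
  inj : ∀ x, (∀ n j, co n j x = 0) → x = 0
  surj : ∀ F : ℕ → ℕ → O, (∀ n j, F n j ∈ E.L (d * n)) → ∃ x, ∀ n j, co n j x = F n j
  one : ∀ n j, co n j 1 = if n = 0 ∧ j = 0 then 1 else 0
  mul : ∀ n j x y, co n j (x * y) =
    ∑ p ∈ antidiagonal n, ∑ q ∈ antidiagonal j, co p.1 q.1 x * co p.2 q.2 y

namespace Coord

variable {k O : Type} [Field k] [CommRing O] [IsDomain O] [Algebra k O] {E : Ell k O}
  {d : ℕ} {A : Type} [CommRing A] [Algebra k A] (X : Coord E d A)

/-- the ideal of elements without coefficients in a box -/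
def Box (M : ℕ) : Ideal A where
  carrier := {x | ∀ n < M, ∀ j < M, X.co n j x = 0}
  zero_mem' := by
    intro n _ j _
    rw [map_zero]
  add_mem' := by
    intro x y hx hy n hn j hj
    rw [map_add, hx n hn j hj, hy n hn j hj, add_zero]
  smul_mem' := by
    intro a x hx n hn j hj
    rw [smul_eq_mul, X.mul]
    refine sum_eq_zero fun p hp => sum_eq_zero fun q hq => ?_
    have h1 := mem_antidiagonal.1 hp
    have h2 := mem_antidiagonal.1 hq
    rw [hx p.2 (by omega) q.2 (by omega), mul_zero]

theorem mem_Box {M : ℕ} {x : A} : x ∈ X.Box M ↔ ∀ n < M, ∀ j < M, X.co n j x = 0 := Iff.rfl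

/-- the leading coefficients, at the place `(n, j)`, of the elements of an ideal; the places are
ordered lexicographically -/
def V (J : Ideal A) (n j : ℕ) : Submodule k O where
  carrier := {v | ∃ x ∈ J, X.co n j x = v ∧
    ∀ n' j', (n' < n ∨ (n' = n ∧ j' < j)) → X.co n' j' x = 0}
  zero_mem' := ⟨0, J.zero_mem, map_zero _, fun _ _ _ => map_zero _⟩
  add_mem' := by
    rintro v w ⟨x, hx, hxv, hx0⟩ ⟨y, hy, hyw, hy0⟩
    refine ⟨x + y, J.add_mem hx hy, by rw [map_add, hxv, hyw], fun n' j' h => ?_⟩
    rw [map_add, hx0 n' j' h, hy0 n' j' h, add_zero]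
  smul_mem' := by
    rintro c v ⟨x, hx, hxv, hx0⟩
    refine ⟨c • x, ?_, by rw [map_smul, hxv], fun n' j' h => ?_⟩
    · rw [Algebra.smul_def]
      exact J.mul_mem_left _ hx
    · rw [map_smul, hx0 n' j' h, smul_zero]

theorem mem_V {J : Ideal A} {n j : ℕ} {v : O} : v ∈ X.V J n j ↔ ∃ x ∈ J, X.co n j x = v ∧
    ∀ n' j', (n' < n ∨ (n' = n ∧ j' < j)) → X.co n' j' x = 0 := Iff.rfl

end Coord

end Pool.Agent.NH60.SS
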