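import Pool.Agent.NH60.SS.Stmts

/-!
# Semistability of simple elliptic surface singularities: the three families
-/

set_option autoImplicit false

namespace Pool.Agent.NH60.SS.Fams

open Finset Module MvPolynomial Pool.Agent.NH60.SS

section Deg

variable {k O : Type} [Field k] [CommRing O] [IsDomain O] [Algebra k O] (E : Ell k O)

theorem deg_smul {c : k} (hc : c ≠ 0) (f : O) : E.deg (c • f) = E.deg f := by
  refine le_antisymm (E.deg_smul_le c f) ?_
  have h := E.deg_smul_le c⁻¹ (c • f)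
  rwa [smul_smul, inv_mul_cancel₀ hc, one_smul] at h

theorem deg_neg (f : O) : E.deg (-f) = E.deg f := by
  have h := deg_smul E (neg_ne_zero.2 one_ne_zero : (-1 : k) ≠ 0) f
  rwa [neg_smul, one_smul] at h

theorem deg_one : E.deg (1 : O) = 0 := by
  have h := E.deg_algebraMap 1
  rwa [map_one] at h

theorem deg_pow {f : O} (hf : f ≠ 0) (n : ℕ) : E.deg (f ^ n) = n * E.deg f := by
  induction n with
  | zero => rw [pow_zero, deg_one, zero_mul]
  | succ n ih => rw [pow_succ, E.deg_mul _ _ (pow_ne_zero _ hf) hf, ih]; ring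

theorem deg_add_of_lt {f g : O} (h : E.deg f < E.deg g) : E.deg (f + g) = E.deg g := by
  have h1 := E.deg_add f g
  have h2 := E.deg_add (f + g) (-f)
  rw [deg_neg, add_neg_cancel_comm] at h2
  omega

theorem deg_mul_le (f g : O) : E.deg (f * g) ≤ E.deg f + E.deg g := by
  by_cases hf : f = 0
  · rw [hf, zero_mul, E.deg_zero]
    exact Nat.zero_le _
  by_cases hg : g = 0
  · rw [hg, mul_zero, E.deg_zero]
    exact Nat.zero_le _
  exact (E.deg_mul f g hf hg).le

theorem ne_zero_of_deg {f : O} (h : 0 < E.deg f) : f ≠ 0 := by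
  rintro rfl
  rw [E.deg_zero] at h
  exact lt_irrefl _ h

end Deg

section Cnt

/-- the number of `q` with `a p + b q ≤ n` -/
def F (a b n p : ℕ) : ℕ := if a * p ≤ n then (n - a * p) / b + 1 else 0

theorem cnt_eq (a b n N : ℕ) (ha : 1 ≤ a) (hb : 1 ≤ b) (hN : n < N) :
    cnt a b 1 n = ∑ p ∈ range N, F a b n p := by
  have h1 : cnt a b 1 n = ∑ p ∈ range (n + 1), F a b n p := by
    unfold cnt
    rw [card_eq_sum_card_fiberwise (f := fun p : ℕ × ℕ × ℕ => p.1) (t := range (n + 1))]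
    · refine sum_congr rfl fun p hp => ?_
      unfold F
      split_ifs with hap
      · have : (n - a * p) / b + 1 = (range ((n - a * p) / b + 1)).card := (card_range _).symm
        rw [this]
        symm
        refine card_bij (fun q _ => (p, q, n - a * p - b * q)) ?_ ?_ ?_
        · intro q hq
          rw [mem_range, Nat.lt_succ_iff, Nat.le_div_iff_mul_le (by omega)] at hq
          have hq' : b * q ≤ n - a * p := by rw [mul_comm]; exact hq
          have hqn : q ≤ n := by nlinarith [Nat.sub_le n (a * p)]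
          have hpn := mem_range.1 hp
          simp only [mem_filter, mem_product, mem_range]
          refine ⟨⟨⟨hpn, by omega, by omega⟩, by omega⟩, trivial⟩
        · intro q _ q' _ h
          simpa using congrArg (fun z : ℕ × ℕ × ℕ => z.2.1) h
        · rintro ⟨p', q, r⟩ h
          simp only [mem_filter, mem_product, mem_range] at h
          obtain ⟨⟨⟨h1, h2, h3⟩, h4⟩, rfl⟩ := h
          refine ⟨q, ?_, ?_⟩
          · rw [mem_range, Nat.lt_succ_iff, Nat.le_div_iff_mul_le (by omega), mul_comm]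
            omega
          · have : n - a * p' - b * q = r := by omega
            rw [this]
      · rw [card_eq_zero, filter_eq_empty_iff]
        rintro ⟨p', q, r⟩ h h'
        simp only [mem_filter, mem_product, mem_range] at h
        simp only at h'
        subst h'
        exact hap (by omega)
    · intro p hp
      simp only [coe_filter, Set.mem_ofPred_eq, mem_product] at hp
      exact hp.1.1
  rw [h1]
  refine sum_subset (range_subset_range.2 (by omega)) fun p _ hp => ?_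
  rw [mem_range, not_lt] at hp
  unfold F
  rw [if_neg]
  have : p ≤ a * p := Nat.le_mul_of_pos_left _ ha
  omega

theorem cnt_rec (a b s n : ℕ) (ha : 1 ≤ a) (hb : 1 ≤ b) :
    cnt a b 1 n = ∑ p ∈ range s, F a b n p + (if a * s ≤ n then cnt a b 1 (n - a * s) else 0) := by
  rw [cnt_eq a b n (s + (n + 1)) ha hb (by omega), sum_range_add]
  congr 1
  split_ifs with h
  · rw [cnt_eq a b (n - a * s) (n + 1) ha hb (by omega)]
    refine sum_congr rfl fun p _ => ?_
    unfold F
    rw [mul_add]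
    by_cases h1 : a * s + a * p ≤ n
    · rw [if_pos h1, if_pos (by omega), Nat.sub_add_eq]
    · rw [if_neg h1, if_neg (by omega)]
  · refine sum_eq_zero fun p _ => ?_
    unfold F
    rw [mul_add, if_neg (by omega)]

theorem cnt_J (n : ℕ) (hn : 1 ≤ n) :
    cnt 3 2 1 n = 1 * n + (if 6 ≤ n then cnt 3 2 1 (n - 6) else 0) := by
  rw [cnt_rec 3 2 2 n (by norm_num) (by norm_num)]
  congr 1
  simp only [sum_range_succ, sum_range_zero, F]
  split_ifs <;> omega

theorem cnt_X (n : ℕ) (hn : 1 ≤ n) :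
    cnt 2 1 1 n = 2 * n + (if 4 ≤ n then cnt 2 1 1 (n - 4) else 0) := by
  rw [cnt_rec 2 1 2 n (by norm_num) (by norm_num)]
  congr 1
  simp only [sum_range_succ, sum_range_zero, F]
  split_ifs <;> omega

theorem cnt_T (n : ℕ) (hn : 1 ≤ n) :
    cnt 1 1 1 n = 3 * n + (if 3 ≤ n then cnt 1 1 1 (n - 3) else 0) := by
  rw [cnt_rec 1 1 3 n (by norm_num) (by norm_num)]
  congr 1
  simp only [sum_range_succ, sum_range_zero, F]
  split_ifs <;> omega

end Cnt

theorem wh_C_mul {w : Fin 3 → ℕ} {k : Type} [Field k] {P : MvPolynomial (Fin 3) k} {n : ℕ} (c : k)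
    (h : IsWeightedHomogeneous w P n) : IsWeightedHomogeneous w (C c * P) n := by
  have h1 := (isWeightedHomogeneous_C w c).mul h
  rwa [zero_add] at h1

theorem wh_pow {w : Fin 3 → ℕ} {k : Type} [Field k] {P : MvPolynomial (Fin 3) k} {n : ℕ} (j : ℕ)
    (h : IsWeightedHomogeneous w P n) : IsWeightedHomogeneous w (P ^ j) (j * n) := by
  have h1 := h.pow j
  rwa [smul_eq_mul] at h1

end Pool.Agent.NH60.SS.Fams

namespace Pool.Agent.NH60.SS

open Finset Module MvPolynomial Pool.Agent.NH60.SS.Fams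

theorem t_FamJ : StmtFamJ := by
  intro O _ _ _ E x y lam hx hy hrel
  have hx0 : x ≠ 0 := ne_zero_of_deg E (by omega)
  have hnx0 : -x ≠ 0 := neg_ne_zero.2 hx0
  have hnx : E.deg (-x) = 2 := by rw [deg_neg, hx]
  have h0 : E.deg (y + (lam / 2) • x) = 3 := by
    rw [add_comm, deg_add_of_lt, hy]
    have := E.deg_smul_le (lam / 2) x
    omega
  have h00 : y + (lam / 2) • x ≠ 0 := ne_zero_of_deg E (by omega)
  have e0 := isWeightedHomogeneous_X ℂ ![3, 2, 1] (0 : Fin 3)
  have e1 := isWeightedHomogeneous_X ℂ ![3, 2, 1] (1 : Fin 3)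
  have e2 := isWeightedHomogeneous_X ℂ ![3, 2, 1] (2 : Fin 3)
  change IsWeightedHomogeneous _ _ 3 at e0
  change IsWeightedHomogeneous _ _ 2 at e1
  change IsWeightedHomogeneous _ _ 1 at e2
  refine ⟨?_, by norm_num, ?_, ?_, ?_, ?_, ?_, ?_⟩
  · intro i
    fin_cases i <;> simp
  · intro i
    rw [E.mem_L]
    fin_cases i
    · change E.deg (y + (lam / 2) • x) ≤ 1 * 3
      omega
    · change E.deg (-x) ≤ 1 * 2
      omega
    · change E.deg 1 ≤ 1 * 1
      rw [deg_one]
      omega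
  · intro h
    have h1 := congrArg (fun P => MvPolynomial.eval ![(1 : ℂ), 0, 0] P) h
    simp [fJ] at h1
  · exact (((wh_pow 2 e0).add (wh_pow 3 e1)).add (wh_pow 6 e2)).add
      (wh_C_mul lam ((e0.mul e1).mul e2))
  · simp only [fJ, map_add, map_mul, map_pow, aeval_X, aeval_C, Matrix.cons_val_zero,
      Matrix.cons_val_one, Matrix.cons_val]
    have a1 : algebraMap ℂ O lam = 2 * algebraMap ℂ O (lam / 2) := by
      rw [← map_ofNat (algebraMap ℂ O), ← map_mul]
      congr 1
      ring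
    have a2 : algebraMap ℂ O (lam ^ 2 / 4) = algebraMap ℂ O (lam / 2) ^ 2 := by
      rw [← map_pow]
      congr 1
      ring
    simp only [Algebra.smul_def, map_neg, map_one, map_zero, a2] at hrel ⊢
    rw [a1]
    linear_combination hrel
  · intro n m hm hm1
    rcases Nat.even_or_odd' m with ⟨b, rfl | rfl⟩
    · refine ⟨X 1 ^ b * X 2 ^ (n - 2 * b), ?_, ?_, ?_⟩
      · have h := (wh_pow b e1).mul (wh_pow (n - 2 * b) e2)
        have h2 : b * 2 + (n - 2 * b) * 1 = n := by omega
        rwa [h2] at h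
      · simp only [map_mul, map_pow, aeval_X, Matrix.cons_val_one, Matrix.cons_val]
        rw [one_pow, mul_one]
        exact pow_ne_zero _ hnx0
      · simp only [map_mul, map_pow, aeval_X, Matrix.cons_val_one, Matrix.cons_val]
        rw [one_pow, mul_one, deg_pow E hnx0, hnx, mul_comm]
    · obtain ⟨b, rfl⟩ : ∃ b', b = b' + 1 := ⟨b - 1, by omega⟩
      refine ⟨X 0 * X 1 ^ b * X 2 ^ (n - 3 - 2 * b), ?_, ?_, ?_⟩
      · have h := (e0.mul (wh_pow b e1)).mul (wh_pow (n - 3 - 2 * b) e2)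
        have h2 : 3 + b * 2 + (n - 3 - 2 * b) * 1 = n := by omega
        rwa [h2] at h
      · simp only [map_mul, map_pow, aeval_X, Matrix.cons_val_zero, Matrix.cons_val_one,
          Matrix.cons_val]
        rw [one_pow, mul_one]
        exact mul_ne_zero h00 (pow_ne_zero _ hnx0)
      · simp only [map_mul, map_pow, aeval_X, Matrix.cons_val_zero, Matrix.cons_val_one,
          Matrix.cons_val]
        rw [one_pow, mul_one, E.deg_mul _ _ h00 (pow_ne_zero _ hnx0), deg_pow E hnx0, hnx, h0]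
        ring
  · intro n hn
    exact cnt_J n hn

theorem t_FamX : StmtFamX := by
  intro O _ _ _ E x y lam ρ e hρ he hx hy hrel
  have he0 : e ≠ 0 := fun h => by
    rw [h, zero_mul] at he
    exact zero_ne_one he
  have hx0 : x ≠ 0 := ne_zero_of_deg E (by omega)
  have hy0 : y ≠ 0 := ne_zero_of_deg E (by omega)
  have hE0 : algebraMap ℂ O e ≠ 0 := by
    rwa [Ne, FaithfulSMul.algebraMap_eq_zero_iff]
  have hEd : E.deg (algebraMap ℂ O e) = 0 := E.deg_algebraMap e
  have hu : E.deg (ρ • x + algebraMap ℂ O e) ≤ 2 := by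
    have h1 := E.deg_add (ρ • x) (algebraMap ℂ O e)
    have h2 := E.deg_smul_le ρ x
    omega
  have e0 := isWeightedHomogeneous_X ℂ ![2, 1, 1] (0 : Fin 3)
  have e1 := isWeightedHomogeneous_X ℂ ![2, 1, 1] (1 : Fin 3)
  have e2 := isWeightedHomogeneous_X ℂ ![2, 1, 1] (2 : Fin 3)
  change IsWeightedHomogeneous _ _ 2 at e0
  change IsWeightedHomogeneous _ _ 1 at e1
  change IsWeightedHomogeneous _ _ 1 at e2
  have e3 : IsWeightedHomogeneous ![2, 1, 1] (X 1 + C (-ρ) * X 2 : MvPolynomial (Fin 3) ℂ) 1 :=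
    e1.add (wh_C_mul (-ρ) e2)
  have a1 : algebraMap ℂ O lam = 2 * algebraMap ℂ O (lam / 2) := by
    rw [← map_ofNat (algebraMap ℂ O), ← map_mul]
    congr 1
    ring
  have v3 : aeval ![y - (lam / 2) • ((ρ • x + algebraMap ℂ O e) * x),
      ρ • x + algebraMap ℂ O e, x] (X 1 + C (-ρ) * X 2 : MvPolynomial (Fin 3) ℂ) =
      algebraMap ℂ O e := by
    simp only [map_add, map_mul, aeval_X, aeval_C, Matrix.cons_val_one, Matrix.cons_val,
      Algebra.smul_def, map_neg]
    ring
  have v4 : aeval ![y - (lam / 2) • ((ρ • x + algebraMap ℂ O e) * x),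
      ρ • x + algebraMap ℂ O e, x] (X 0 + C (lam / 2) * (X 1 * X 2) : MvPolynomial (Fin 3) ℂ) =
      y := by
    simp only [map_add, map_mul, aeval_X, aeval_C, Matrix.cons_val_zero, Matrix.cons_val_one,
      Matrix.cons_val, Algebra.smul_def]
    ring
  refine ⟨?_, by norm_num, ?_, ?_, ?_, ?_, ?_, ?_⟩
  · intro i
    fin_cases i <;> simp
  · intro i
    rw [E.mem_L]
    fin_cases i
    · change E.deg (y - (lam / 2) • ((ρ • x + algebraMap ℂ O e) * x)) ≤ 2 * 2
      rw [sub_eq_add_neg]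
      have h1 := E.deg_add y (-((lam / 2) • ((ρ • x + algebraMap ℂ O e) * x)))
      have h2 := E.deg_smul_le (lam / 2) ((ρ • x + algebraMap ℂ O e) * x)
      have h3 := deg_mul_le E (ρ • x + algebraMap ℂ O e) x
      rw [deg_neg] at h1
      omega
    · change E.deg (ρ • x + algebraMap ℂ O e) ≤ 2 * 1
      omega
    · change E.deg x ≤ 2 * 1
      omega
  · intro h
    have h1 := congrArg (fun P => MvPolynomial.eval ![(1 : ℂ), 0, 0] P) h
    simp [fX] at h1
  · exact (((wh_pow 2 e0).add (wh_pow 4 e1)).add (wh_pow 4 e2)).add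
      (wh_C_mul lam ((e0.mul e1).mul e2))
  · simp only [fX, map_add, map_mul, map_pow, aeval_X, aeval_C, Matrix.cons_val_zero,
      Matrix.cons_val_one, Matrix.cons_val]
    have r1 : algebraMap ℂ O (lam / 2) ^ 2 * algebraMap ℂ O ρ ^ 2 - algebraMap ℂ O ρ ^ 4 - 1
        = 0 := by
      rw [← map_pow, ← map_pow, ← map_pow, ← map_mul, ← map_sub, ← map_one (algebraMap ℂ O),
        ← map_sub, ← map_zero (algebraMap ℂ O)]
      congr 1
      rw [← hρ]
      ring
    have r2 : algebraMap ℂ O e * (2 * algebraMap ℂ O (lam / 2) ^ 2 * algebraMap ℂ O ρ -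
        4 * algebraMap ℂ O ρ ^ 3) = 1 := by
      rw [← map_ofNat (algebraMap ℂ O) 2, ← map_ofNat (algebraMap ℂ O) 4, ← map_pow, ← map_pow,
        ← map_mul, ← map_mul, ← map_mul, ← map_sub, ← map_mul, ← map_one (algebraMap ℂ O)]
      congr 1
      rw [← he]
      ring
    have b1 : algebraMap ℂ O (-6 * ρ ^ 2 * e ^ 2 + lam ^ 2 * e ^ 2 / 4) =
        -6 * algebraMap ℂ O ρ ^ 2 * algebraMap ℂ O e ^ 2 +
          algebraMap ℂ O (lam / 2) ^ 2 * algebraMap ℂ O e ^ 2 := by
      have : (-6 * ρ ^ 2 * e ^ 2 + lam ^ 2 * e ^ 2 / 4) =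
        -6 * ρ ^ 2 * e ^ 2 + (lam / 2) ^ 2 * e ^ 2 := by ring
      rw [this]
      simp only [map_add, map_mul, map_pow, map_neg, map_ofNat]
    have b2 : algebraMap ℂ O (-4 * ρ * e ^ 3) =
        -4 * algebraMap ℂ O ρ * algebraMap ℂ O e ^ 3 := by
      simp only [map_mul, map_pow, map_neg, map_ofNat]
    have b3 : algebraMap ℂ O (-e ^ 4) = -algebraMap ℂ O e ^ 4 := by
      simp only [map_pow, map_neg]
    simp only [Algebra.smul_def, b1, b2, b3] at hrel ⊢
    rw [a1]
    linear_combination hrel - x ^ 4 * r1 - x ^ 3 * r2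
  · intro n m hm hm1
    rcases Nat.even_or_odd' m with ⟨c, rfl | rfl⟩
    · refine ⟨(X 1 + C (-ρ) * X 2) ^ (n - c) * X 2 ^ c, ?_, ?_, ?_⟩
      · have h := (wh_pow (n - c) e3).mul (wh_pow c e2)
        have h2 : (n - c) * 1 + c * 1 = n := by omega
        rwa [h2] at h
      · rw [map_mul, map_pow, v3, map_pow, aeval_X]
        exact mul_ne_zero (pow_ne_zero _ hE0) (pow_ne_zero _ hx0)
      · rw [map_mul, map_pow, v3, map_pow, aeval_X]
        change E.deg (algebraMap ℂ O e ^ (n - c) * x ^ c) = 2 * c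
        rw [E.deg_mul _ _ (pow_ne_zero _ hE0) (pow_ne_zero _ hx0), deg_pow E hE0, deg_pow E hx0,
          hEd, hx]
        ring
    · obtain ⟨c, rfl⟩ : ∃ c', c = c' + 1 := ⟨c - 1, by omega⟩
      refine ⟨(X 0 + C (lam / 2) * (X 1 * X 2)) *
        ((X 1 + C (-ρ) * X 2) ^ (n - 2 - c) * X 2 ^ c), ?_, ?_, ?_⟩
      · have e4 : IsWeightedHomogeneous ![2, 1, 1]
            (X 0 + C (lam / 2) * (X 1 * X 2) : MvPolynomial (Fin 3) ℂ) 2 :=
          e0.add (wh_C_mul (lam / 2) (e1.mul e2))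
        have h := e4.mul ((wh_pow (n - 2 - c) e3).mul (wh_pow c e2))
        have h2 : 2 + ((n - 2 - c) * 1 + c * 1) = n := by omega
        rwa [h2] at h
      · rw [map_mul, map_mul, map_pow, v3, v4, map_pow, aeval_X]
        exact mul_ne_zero hy0 (mul_ne_zero (pow_ne_zero _ hE0) (pow_ne_zero _ hx0))
      · rw [map_mul, map_mul, map_pow, v3, v4, map_pow, aeval_X]
        change E.deg (y * (algebraMap ℂ O e ^ (n - 2 - c) * x ^ c)) = 2 * (c + 1) + 1
        rw [E.deg_mul _ _ hy0 (mul_ne_zero (pow_ne_zero _ hE0) (pow_ne_zero _ hx0)),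
          E.deg_mul _ _ (pow_ne_zero _ hE0) (pow_ne_zero _ hx0), deg_pow E hE0, deg_pow E hx0,
          hEd, hx, hy]
        ring
  · intro n hn
    exact cnt_X n hn

theorem t_FamT : StmtFamT := by
  intro O _ _ _ E x y lam e he he0 hx hy hrel
  have hx0 : x ≠ 0 := ne_zero_of_deg E (by omega)
  have hy0 : y ≠ 0 := ne_zero_of_deg E (by omega)
  have hE0 : algebraMap ℂ O e ≠ 0 := by
    rwa [Ne, FaithfulSMul.algebraMap_eq_zero_iff]
  have hEd : E.deg (algebraMap ℂ O e) = 0 := E.deg_algebraMap e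
  have e0 := isWeightedHomogeneous_X ℂ ![1, 1, 1] (0 : Fin 3)
  have e1 := isWeightedHomogeneous_X ℂ ![1, 1, 1] (1 : Fin 3)
  have e2 := isWeightedHomogeneous_X ℂ ![1, 1, 1] (2 : Fin 3)
  change IsWeightedHomogeneous _ _ 1 at e0
  change IsWeightedHomogeneous _ _ 1 at e1
  change IsWeightedHomogeneous _ _ 1 at e2
  have eu : IsWeightedHomogeneous ![1, 1, 1]
      (C 3 * (X 0 + X 1) + C (-lam) * X 2 : MvPolynomial (Fin 3) ℂ) 1 :=
    (wh_C_mul 3 (e0.add e1)).add (wh_C_mul (-lam) e2)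
  have et : IsWeightedHomogeneous ![1, 1, 1]
      (X 0 + C (-1) * X 1 : MvPolynomial (Fin 3) ℂ) 1 := e0.add (wh_C_mul (-1) e1)
  have a1 : algebraMap ℂ O lam = 3 * algebraMap ℂ O (lam / 3) := by
    rw [← map_ofNat (algebraMap ℂ O), ← map_mul]
    congr 1
    ring
  have a2 : algebraMap ℂ O e = 9 * algebraMap ℂ O (e / 9) := by
    rw [← map_ofNat (algebraMap ℂ O), ← map_mul]
    congr 1
    ring
  have a3 : algebraMap ℂ O (e / 3) = 3 * algebraMap ℂ O (e / 9) := by
    rw [← map_ofNat (algebraMap ℂ O), ← map_mul]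
    congr 1
    ring
  have a4 : 2 * algebraMap ℂ O (1 / 2) = 1 := by
    rw [← map_ofNat (algebraMap ℂ O), ← map_mul, ← map_one (algebraMap ℂ O)]
    congr 1
    ring
  have vu : aeval ![(1 / 2 : ℂ) • ((lam / 3) • x + algebraMap ℂ O (e / 3) + y),
      (1 / 2 : ℂ) • ((lam / 3) • x + algebraMap ℂ O (e / 3) - y), x]
      (C 3 * (X 0 + X 1) + C (-lam) * X 2 : MvPolynomial (Fin 3) ℂ) = algebraMap ℂ O e := by
    simp only [map_add, map_mul, aeval_X, aeval_C, Matrix.cons_val_zero, Matrix.cons_val_one,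
      Matrix.cons_val, Algebra.smul_def, map_neg, map_ofNat]
    rw [a1, a2, a3]
    linear_combination (3 * algebraMap ℂ O (lam / 3) * x + 9 * algebraMap ℂ O (e / 9)) * a4
  have vt : aeval ![(1 / 2 : ℂ) • ((lam / 3) • x + algebraMap ℂ O (e / 3) + y),
      (1 / 2 : ℂ) • ((lam / 3) • x + algebraMap ℂ O (e / 3) - y), x]
      (X 0 + C (-1) * X 1 : MvPolynomial (Fin 3) ℂ) = y := by
    simp only [map_add, map_mul, aeval_X, aeval_C, Matrix.cons_val_zero, Matrix.cons_val_one,
      Matrix.cons_val, Algebra.smul_def, map_neg, map_one]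
    linear_combination y * a4
  have hs : E.deg ((lam / 3) • x + algebraMap ℂ O (e / 3)) ≤ 2 := by
    have h1 := E.deg_add ((lam / 3) • x) (algebraMap ℂ O (e / 3))
    have h2 := E.deg_smul_le (lam / 3) x
    have h3 := E.deg_algebraMap (e / 3)
    omega
  refine ⟨?_, by norm_num, ?_, ?_, ?_, ?_, ?_, ?_⟩
  · intro i
    fin_cases i <;> simp
  · intro i
    rw [E.mem_L]
    fin_cases i
    · change E.deg ((1 / 2 : ℂ) • ((lam / 3) • x + algebraMap ℂ O (e / 3) + y)) ≤ 3 * 1
      have h1 := E.deg_smul_le (1 / 2) ((lam / 3) • x + algebraMap ℂ O (e / 3) + y)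
      have h2 := E.deg_add ((lam / 3) • x + algebraMap ℂ O (e / 3)) y
      omega
    · change E.deg ((1 / 2 : ℂ) • ((lam / 3) • x + algebraMap ℂ O (e / 3) - y)) ≤ 3 * 1
      have h1 := E.deg_smul_le (1 / 2) ((lam / 3) • x + algebraMap ℂ O (e / 3) - y)
      have h2 := E.deg_add ((lam / 3) • x + algebraMap ℂ O (e / 3)) (-y)
      rw [deg_neg, ← sub_eq_add_neg] at h2
      omega
    · change E.deg x ≤ 3 * 1
      omega
  · intro h
    have h1 := congrArg (fun P => MvPolynomial.eval ![(1 : ℂ), 0, 0] P) h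
    simp [fT] at h1
  · exact (((wh_pow 3 e0).add (wh_pow 3 e1)).add (wh_pow 3 e2)).add
      (wh_C_mul lam ((e0.mul e1).mul e2))
  · simp only [fT, map_add, map_mul, map_pow, aeval_X, aeval_C, Matrix.cons_val_zero,
      Matrix.cons_val_one, Matrix.cons_val]
    have r1 : 9 * algebraMap ℂ O (e / 9) = -4 * (1 + algebraMap ℂ O (lam / 3) ^ 3) := by
      have h1 : 9 * (e / 9) = -4 * (1 + (lam / 3) ^ 3) := by
        linear_combination he / 27
      have h2 := congrArg (algebraMap ℂ O) h1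
      simpa only [map_add, map_mul, map_pow, map_neg, map_ofNat, map_one] using h2
    have b1 : algebraMap ℂ O (-lam ^ 2 / 3) = -3 * algebraMap ℂ O (lam / 3) ^ 2 := by
      have : (-lam ^ 2 / 3) = -3 * (lam / 3) ^ 2 := by ring
      rw [this]
      simp only [map_mul, map_pow, map_neg, map_ofNat]
    have b2 : algebraMap ℂ O (-2 * e * lam / 9) =
        -6 * algebraMap ℂ O (e / 9) * algebraMap ℂ O (lam / 3) := by
      have : (-2 * e * lam / 9) = -6 * (e / 9) * (lam / 3) := by ring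
      rw [this]
      simp only [map_mul, map_neg, map_ofNat]
    have b3 : algebraMap ℂ O (-e ^ 2 / 27) = -3 * algebraMap ℂ O (e / 9) ^ 2 := by
      have : (-e ^ 2 / 27) = -3 * (e / 9) ^ 2 := by ring
      rw [this]
      simp only [map_mul, map_pow, map_neg, map_ofNat]
    simp only [Algebra.smul_def, b1, b2, b3, a3] at hrel ⊢
    rw [a1]
    set h := algebraMap ℂ O (1 / 2) with hh
    set l := algebraMap ℂ O (lam / 3) with hl
    set m := algebraMap ℂ O (e / 9) with hm
    linear_combination (h ^ 2 * 9 * m) * hrel + (h ^ 2 * x ^ 3) * r1 +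
      (h ^ 2 * ((l * x + 3 * m) ^ 3 + 3 * (l * x + 3 * m) * y ^ 2) - (2 * h + 1) * x ^ 3) * a4
  · intro n m hm hm1
    obtain ⟨a, c, ha, hac, rfl⟩ : ∃ a c : ℕ, a ≤ 2 ∧ a + c ≤ n ∧ m = 2 * a + 3 * c := by
      have h3 : m % 3 < 3 := Nat.mod_lt _ (by norm_num)
      have h4 := Nat.div_add_mod m 3
      interval_cases h : m % 3
      · exact ⟨0, m / 3, by omega, by omega, by omega⟩
      · exact ⟨2, m / 3 - 1, by omega, by omega, by omega⟩
      · exact ⟨1, m / 3, by omega, by omega, by omega⟩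
    refine ⟨X 2 ^ a * (X 0 + C (-1) * X 1) ^ c *
      (C 3 * (X 0 + X 1) + C (-lam) * X 2) ^ (n - a - c), ?_, ?_, ?_⟩
    · have h := ((wh_pow a e2).mul (wh_pow c et)).mul (wh_pow (n - a - c) eu)
      have h2 : a * 1 + c * 1 + (n - a - c) * 1 = n := by omega
      rwa [h2] at h
    · rw [map_mul, map_mul, map_pow, map_pow, map_pow, vu, vt, aeval_X]
      exact mul_ne_zero (mul_ne_zero (pow_ne_zero _ hx0) (pow_ne_zero _ hy0)) (pow_ne_zero _ hE0)
    · rw [map_mul, map_mul, map_pow, map_pow, map_pow, vu, vt, aeval_X]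
      change E.deg (x ^ a * y ^ c * algebraMap ℂ O e ^ (n - a - c)) = 2 * a + 3 * c
      rw [E.deg_mul _ _ (mul_ne_zero (pow_ne_zero _ hx0) (pow_ne_zero _ hy0)) (pow_ne_zero _ hE0),
        E.deg_mul _ _ (pow_ne_zero _ hx0) (pow_ne_zero _ hy0), deg_pow E hE0, deg_pow E hx0,
        deg_pow E hy0, hEd, hx, hy]
      ring
  · intro n hn
    exact cnt_T n hn

end Pool.Agent.NH60.SS
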