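import Pool.Agent.NH60.SS.Stmts

/-!
# Leading coefficients of ideals and lengths
-/

set_option autoImplicit false

namespace Pool.Agent.NH60.SS

open Finset Module

namespace Len

section Lead

variable {k B O : Type} [Field k] [AddCommGroup B] [Module k B] [AddCommGroup O] [Module k O]

/-- elements of `W` whose first `p` coordinates vanish -/
def Fil (c : ℕ → B →ₗ[k] O) (W : Submodule k B) (p : ℕ) : Submodule k B where
  carrier := {x | x ∈ W ∧ ∀ i < p, c i x = 0}
  zero_mem' := ⟨W.zero_mem, fun i _ => map_zero _⟩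
  add_mem' := by
    rintro x y ⟨hx, hx'⟩ ⟨hy, hy'⟩
    exact ⟨W.add_mem hx hy, fun i hi => by rw [map_add, hx' i hi, hy' i hi, add_zero]⟩
  smul_mem' := by
    rintro a x ⟨hx, hx'⟩
    exact ⟨W.smul_mem a hx, fun i hi => by rw [map_smul, hx' i hi, smul_zero]⟩

variable (c : ℕ → B →ₗ[k] O) (W : Submodule k B)

theorem mem_Fil {p : ℕ} {x : B} : x ∈ Fil c W p ↔ x ∈ W ∧ ∀ i < p, c i x = 0 := Iff.rfl

theorem Fil_zero : Fil c W 0 = W := by
  ext x
  rw [mem_Fil]
  exact ⟨fun h => h.1, fun h => ⟨h, fun i hi => absurd hi (Nat.not_lt_zero _)⟩⟩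

theorem Fil_succ (p : ℕ) : Fil c W (p + 1) = Fil c W p ⊓ LinearMap.ker (c p) := by
  ext x
  rw [Submodule.mem_inf, mem_Fil, mem_Fil, LinearMap.mem_ker]
  constructor
  · rintro ⟨h1, h2⟩
    exact ⟨⟨h1, fun i hi => h2 i (by omega)⟩, h2 p (by omega)⟩
  · rintro ⟨⟨h1, h2⟩, h3⟩
    refine ⟨h1, fun i hi => ?_⟩
    rcases Nat.lt_succ_iff_lt_or_eq.1 hi with h | h
    · exact h2 i h
    · rw [h]; exact h3

theorem Fil_step (p : ℕ) (h1 : FiniteDimensional k ((Fil c W p).map (c p)))
    (h2 : FiniteDimensional k (Fil c W (p + 1))) :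
    FiniteDimensional k (Fil c W p) ∧
    finrank k (Fil c W p) = finrank k ((Fil c W p).map (c p)) + finrank k (Fil c W (p + 1)) := by
  have hfin : FiniteDimensional k (Fil c W p) := by
    refine Module.Finite.iff_fg.2 ?_
    refine Submodule.fg_of_fg_map_of_fg_inf_ker (c p) (Module.Finite.iff_fg.1 h1) ?_
    rw [← Fil_succ]
    exact Module.Finite.iff_fg.1 h2
  refine ⟨hfin, ?_⟩
  have h3 := LinearMap.finrank_range_add_finrank_ker ((c p).domRestrict (Fil c W p))
  rw [← h3, LinearMap.range_domRestrict]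
  congr 1
  have hle : Fil c W (p + 1) ≤ Fil c W p := by
    rw [Fil_succ]; exact inf_le_left
  have e := Submodule.comapSubtypeEquivOfLe hle
  rw [← e.finrank_eq]
  have : LinearMap.ker ((c p).domRestrict (Fil c W p)) =
      Submodule.comap (Fil c W p).subtype (Fil c W (p + 1)) := by
    ext x
    rw [LinearMap.mem_ker, Submodule.mem_comap, Fil_succ, Submodule.mem_inf, LinearMap.mem_ker]
    exact ⟨fun h => ⟨x.2, h⟩, fun h => h.2⟩
  rw [this]

theorem Fil_sum (N : ℕ) (h1 : ∀ p < N, FiniteDimensional k ((Fil c W p).map (c p)))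
    (h2 : Fil c W N = ⊥) :
    FiniteDimensional k W ∧
    finrank k W = ∑ p ∈ range N, finrank k ((Fil c W p).map (c p)) := by
  have key : ∀ q, q ≤ N → FiniteDimensional k (Fil c W (N - q)) ∧
      finrank k W = finrank k W := by
    intro q hq
    exact ⟨by
      induction q with
      | zero => 
        rw [Nat.sub_zero, h2]
        infer_instance
      | succ q ih =>
        have h := ih (by omega)
        have e : N - q = N - (q + 1) + 1 := by omega
        rw [e] at h
        exact (Fil_step c W _ (h1 _ (by omega)) h).1, rfl⟩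
  have fd : ∀ p, p ≤ N → FiniteDimensional k (Fil c W p) := by
    intro p hp
    have := (key (N - p) (by omega)).1
    rwa [show N - (N - p) = p by omega] at this
  have sum : ∀ p, p ≤ N → finrank k (Fil c W 0) =
      ∑ i ∈ range p, finrank k ((Fil c W i).map (c i)) + finrank k (Fil c W p) := by
    intro p hp
    induction p with
    | zero => simp
    | succ p ih =>
      rw [ih (by omega), sum_range_succ, (Fil_step c W p (h1 p (by omega)) (fd _ hp)).2]
      ring
  have h0 := fd 0 (Nat.zero_le _)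
  have hs := sum N le_rfl
  rw [Fil_zero] at h0 hs
  refine ⟨h0, ?_⟩
  rw [hs, h2, finrank_bot, add_zero]

end Lead

section Main

variable {k O : Type} [Field k] [CommRing O] [IsDomain O] [Algebra k O] {E : Ell k O}
  {d : ℕ} {A : Type} [CommRing A] [Algebra k A] (X : Coord E d A)

theorem V_le (J : Ideal A) (n j : ℕ) : X.V J n j ≤ E.L (d * n) := by
  rintro v ⟨x, hx, rfl, -⟩
  exact X.mem _ _ _

theorem V_mono {I J : Ideal A} (h : I ≤ J) (n j : ℕ) : X.V I n j ≤ X.V J n j := by
  rintro v ⟨x, hx, hv, h0⟩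
  exact ⟨x, h hx, hv, h0⟩

theorem V_mul (I J : Ideal A) (n j n' j' : ℕ) :
    X.V I n j * X.V J n' j' ≤ X.V (I * J) (n + n') (j + j') := by
  rw [Submodule.mul_le]
  rintro v ⟨x, hx, hv, hx0⟩ w ⟨y, hy, hw, hy0⟩
  refine ⟨x * y, Ideal.mul_mem_mul hx hy, ?_, ?_⟩
  · rw [X.mul, sum_eq_single (n, n'), sum_eq_single (j, j'), hv, hw]
    · rintro ⟨a, b⟩ hab hne
      have hab' := mem_antidiagonal.1 hab
      simp only at hab' ⊢
      rcases lt_trichotomy a j with h | h | h
      · rw [hx0 _ _ (Or.inr ⟨rfl, h⟩), zero_mul]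
      · exfalso
        exact hne (by rw [Prod.mk.injEq]; omega)
      · rw [hy0 _ _ (Or.inr ⟨rfl, by omega⟩), mul_zero]
    · intro h
      exact (h (mem_antidiagonal.2 rfl)).elim
    · rintro ⟨a, b⟩ hab hne
      have hab' := mem_antidiagonal.1 hab
      simp only at hab' ⊢
      refine sum_eq_zero fun q hq => ?_
      rcases lt_trichotomy a n with h | h | h
      · rw [hx0 _ _ (Or.inl h), zero_mul]
      · exfalso
        exact hne (by rw [Prod.mk.injEq]; omega)
      · rw [hy0 _ _ (Or.inl (by omega)), mul_zero]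
    · intro h
      exact (h (mem_antidiagonal.2 rfl)).elim
  · intro m i hmi
    rw [X.mul]
    refine sum_eq_zero ?_
    rintro ⟨a, b⟩ hab
    have hab' := mem_antidiagonal.1 hab
    simp only at hab' ⊢
    refine sum_eq_zero ?_
    rintro ⟨e, f⟩ hef
    have hef' := mem_antidiagonal.1 hef
    simp only at hef' ⊢
    by_cases h1 : a < n ∨ (a = n ∧ e < j)
    · rw [hx0 _ _ h1, zero_mul]
    · rw [hy0 _ _ (by omega), mul_zero]

theorem V_top (n j : ℕ) : X.V ⊤ n j = E.L (d * n) := by
  refine le_antisymm (V_le X _ _ _) ?_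
  intro v hv
  obtain ⟨x, hx⟩ := X.surj (fun n' j' => if n' = n ∧ j' = j then v else 0) (by
    intro n' j'
    by_cases h : n' = n ∧ j' = j
    · rw [if_pos h, h.1]; exact hv
    · rw [if_neg h]; exact Submodule.zero_mem _)
  refine ⟨x, Submodule.mem_top, ?_, ?_⟩
  · rw [hx, if_pos ⟨rfl, rfl⟩]
  · intro n' j' h
    rw [hx, if_neg (by omega)]

theorem V_big (J : Ideal A) (M : ℕ) (hJ : X.Box M ≤ J) (n j : ℕ) (h : M ≤ n ∨ M ≤ j) :
    X.V J n j = E.L (d * n) := by
  refine le_antisymm (V_le X _ _ _) ?_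
  intro v hv
  obtain ⟨x, hx⟩ := X.surj (fun n' j' => if n' = n ∧ j' = j then v else 0) (by
    intro n' j'
    by_cases h : n' = n ∧ j' = j
    · rw [if_pos h, h.1]; exact hv
    · rw [if_neg h]; exact Submodule.zero_mem _)
  refine ⟨x, hJ ?_, ?_, ?_⟩
  · intro n' hn' j' hj'
    rw [hx, if_neg (by omega)]
  · rw [hx, if_pos ⟨rfl, rfl⟩]
  · intro n' j' h
    rw [hx, if_neg (by omega)]

/-- the coefficients in the box, in lexicographic order -/
noncomputable def pr (M : ℕ) : A →ₗ[k] (ℕ → O) :=
  LinearMap.pi fun p => if p < M * M then X.co (p / M) (p % M) else 0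

theorem pr_lt {M p : ℕ} (h : p < M * M) (x : A) : pr X M x p = X.co (p / M) (p % M) x := by
  rw [pr, LinearMap.pi_apply, if_pos h]

theorem pr_ge {M p : ℕ} (h : ¬ p < M * M) (x : A) : pr X M x p = 0 := by
  rw [pr, LinearMap.pi_apply, if_neg h, LinearMap.zero_apply]

theorem pr_ker {M : ℕ} {x : A} : pr X M x = 0 ↔ x ∈ X.Box M := by
  rw [X.mem_Box]
  constructor
  · intro h n hn j hj
    have hM : 0 < M := by omega
    have hlt : n * M + j < M * M := by
      calc n * M + j < n * M + M := by omega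
        _ = (n + 1) * M := by ring
        _ ≤ M * M := Nat.mul_le_mul_right _ hn
    have := congrFun h (n * M + j)
    rw [pr_lt X hlt] at this
    have e1 : (n * M + j) / M = n := by
      rw [mul_comm, Nat.mul_add_div hM, Nat.div_eq_of_lt hj, add_zero]
    have e2 : (n * M + j) % M = j := by
      rw [mul_comm, Nat.mul_add_mod, Nat.mod_eq_of_lt hj]
    rw [e1, e2] at this
    exact this
  · intro h
    funext p
    by_cases hp : p < M * M
    · rw [pr_lt X hp]
      have hM : 0 < M := by
        rcases Nat.eq_zero_or_pos M with h | h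
        · subst h; simp at hp
        · exact h
      exact h _ (Nat.div_lt_of_lt_mul hp) _ (Nat.mod_lt _ hM)
    · rw [pr_ge X hp]; rfl

theorem lead_eq (J : Ideal A) (M : ℕ) (hJ : X.Box M ≤ J) (p : ℕ) (hp : p < M * M) :
    (Fil (fun i => (LinearMap.proj i : (ℕ → O) →ₗ[k] O)) ((J.restrictScalars k).map (pr X M)) p).map
      (LinearMap.proj p : (ℕ → O) →ₗ[k] O) = X.V J (p / M) (p % M) := by
  have hM : 0 < M := by
    rcases Nat.eq_zero_or_pos M with h | h
    · subst h; simp at hp
    · exact h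
  ext v
  rw [Submodule.mem_map, X.mem_V]
  constructor
  · rintro ⟨f, ⟨⟨x, hx, rfl⟩, h0⟩, rfl⟩
    have hx' : x ∈ J := hx
    -- remove the coefficients outside the box
    obtain ⟨w, hw⟩ := X.surj (fun n j => if n < M ∧ j < M then 0 else X.co n j x) (by
      intro n j
      by_cases h : n < M ∧ j < M
      · simp only [if_pos h]; exact Submodule.zero_mem _
      · simp only [if_neg h]; exact X.mem _ _ _)
    have hwB : w ∈ X.Box M := by
      intro n hn j hj
      rw [hw, if_pos ⟨hn, hj⟩]
    refine ⟨x - w, J.sub_mem hx' (hJ hwB), ?_, ?_⟩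
    · rw [map_sub, hw, if_pos ⟨Nat.div_lt_of_lt_mul hp, Nat.mod_lt _ hM⟩, sub_zero,
        LinearMap.proj_apply, pr_lt X hp]
    · intro n j hnj
      rw [map_sub, hw]
      by_cases h : n < M ∧ j < M
      · rw [if_pos h, sub_zero]
        have hlt : n * M + j < p := by
          have hpp := Nat.div_add_mod p M
          rcases hnj with h1 | ⟨h1, h2⟩
          · have : (n + 1) * M ≤ p / M * M := Nat.mul_le_mul_right _ h1
            have e : (n + 1) * M = n * M + M := by ring
            have e2 : p / M * M = M * (p / M) := by ring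
            omega
          · rw [h1]
            have e2 : p / M * M = M * (p / M) := by ring
            omega
        have h3 := h0 _ hlt
        rw [LinearMap.proj_apply, pr_lt X (hlt.trans hp)] at h3
        have e1 : (n * M + j) / M = n := by
          rw [mul_comm, Nat.mul_add_div hM, Nat.div_eq_of_lt h.2, add_zero]
        have e2 : (n * M + j) % M = j := by
          rw [mul_comm, Nat.mul_add_mod, Nat.mod_eq_of_lt h.2]
        rw [e1, e2] at h3
        exact h3
      · rw [if_neg h, sub_self]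
  · rintro ⟨x, hx, hv, h0⟩
    refine ⟨pr X M x, ⟨⟨x, hx, rfl⟩, ?_⟩, ?_⟩
    · intro i hi
      rw [LinearMap.proj_apply, pr_lt X (hi.trans hp)]
      refine h0 _ _ ?_
      rcases lt_or_ge (i / M) (p / M) with h | h
      · exact Or.inl h
      · right
        have h1 : i / M ≤ p / M := Nat.div_le_div_right hi.le
        have h2 : i / M = p / M := le_antisymm h1 h
        refine ⟨h2, ?_⟩
        have e1 := Nat.div_add_mod i M
        have e2 := Nat.div_add_mod p M
        rw [h2] at e1
        omega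
    · rw [LinearMap.proj_apply, pr_lt X hp, hv]

theorem Fil_last (J : Ideal A) (M : ℕ) :
    Fil (fun i => (LinearMap.proj i : (ℕ → O) →ₗ[k] O)) ((J.restrictScalars k).map (pr X M))
      (M * M) = ⊥ := by
  rw [eq_bot_iff]
  rintro f ⟨⟨x, hx, rfl⟩, h0⟩
  rw [Submodule.mem_bot]
  funext p
  by_cases hp : p < M * M
  · exact h0 p hp
  · rw [pr_ge X hp]; rfl

theorem image_dim (hE : ∀ t, FiniteDimensional k (E.L t)) (J : Ideal A) (M : ℕ)
    (hJ : X.Box M ≤ J) :
    FiniteDimensional k ((J.restrictScalars k).map (pr X M)) ∧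
    finrank k ((J.restrictScalars k).map (pr X M)) =
      ∑ p ∈ range (M * M), finrank k (X.V J (p / M) (p % M)) := by
  have h := Fil_sum (fun i => (LinearMap.proj i : (ℕ → O) →ₗ[k] O))
    ((J.restrictScalars k).map (pr X M)) (M * M) (by
      intro p hp
      rw [lead_eq X J M hJ p hp]
      have := hE (d * (p / M))
      exact Submodule.finiteDimensional_of_le (V_le X J _ _)) (Fil_last X J M)
  refine ⟨h.1, h.2.trans (sum_congr rfl fun p hp => ?_)⟩
  rw [lead_eq X J M hJ p (mem_range.1 hp)]

theorem sum_box (M : ℕ) (g : ℕ → ℕ → ℕ) :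
    ∑ p ∈ range (M * M), g (p / M) (p % M) = ∑ n ∈ range M, ∑ j ∈ range M, g n j := by
  have : ∀ K, ∑ p ∈ range (K * M), g (p / M) (p % M) = ∑ n ∈ range K, ∑ j ∈ range M, g n j := by
    intro K
    induction K with
    | zero => simp
    | succ K ih =>
      rw [sum_range_succ, ← ih, Nat.succ_mul, sum_range_add]
      congr 1
      refine sum_congr rfl fun j hj => ?_
      have hj' := mem_range.1 hj
      have hM : 0 < M := by omega
      have e1 : (K * M + j) / M = K := by
        rw [mul_comm, Nat.mul_add_div hM, Nat.div_eq_of_lt hj', add_zero]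
      have e2 : (K * M + j) % M = j := by
        rw [mul_comm, Nat.mul_add_mod, Nat.mod_eq_of_lt hj']
      rw [e1, e2]
  exact this M

theorem length (hE : ∀ t, FiniteDimensional k (E.L t)) (J : Ideal A) (M : ℕ)
    (hJ : X.Box M ≤ J) :
    FiniteDimensional k (A ⧸ J) ∧
      finrank k (A ⧸ J) = ∑ n ∈ range M, ∑ j ∈ range M,
        (finrank k (E.L (d * n)) - finrank k (X.V J n j)) := by
  set W : Submodule k (ℕ → O) := ((⊤ : Ideal A).restrictScalars k).map (pr X M) with hW
  set W' : Submodule k (ℕ → O) := (J.restrictScalars k).map (pr X M) with hW'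
  obtain ⟨f1, r1⟩ := image_dim X hE ⊤ M le_top
  obtain ⟨f2, r2⟩ := image_dim X hE J M hJ
  rw [← hW] at f1 r1
  rw [← hW'] at f2 r2
  have hle : W' ≤ W := Submodule.map_mono (fun x _ => Submodule.mem_top)
  -- the surjection `A → W / W'`
  let g : A →ₗ[k] W := (pr X M).codRestrict W (fun x => ⟨x, Submodule.mem_top, rfl⟩)
  let W'' : Submodule k W := W'.comap W.subtype
  let φ : A →ₗ[k] (W ⧸ W'') := W''.mkQ ∘ₗ g
  have hsur : Function.Surjective φ := by
    intro y
    obtain ⟨⟨w, hw⟩, rfl⟩ := W''.mkQ_surjective y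
    obtain ⟨x, hx, rfl⟩ := hw
    exact ⟨x, rfl⟩
  have hker : LinearMap.ker φ = J.restrictScalars k := by
    ext x
    rw [LinearMap.mem_ker, LinearMap.comp_apply, Submodule.mkQ_apply,
      Submodule.Quotient.mk_eq_zero, Submodule.mem_comap, Submodule.restrictScalars_mem]
    constructor
    · rintro ⟨y, hy, hxy⟩
      have h1 : pr X M (x - y) = 0 := by
        rw [map_sub, hxy]
        exact sub_self _
      have h2 := hJ ((pr_ker X).1 h1)
      have h3 := J.add_mem h2 (show y ∈ J from hy)
      rwa [sub_add_cancel] at h3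
    · intro hx
      exact ⟨x, hx, rfl⟩
  have e1 : (A ⧸ J.restrictScalars k) ≃ₗ[k] (W ⧸ W'') :=
    (Submodule.quotEquivOfEq _ _ hker.symm).trans (LinearMap.quotKerEquivOfSurjective φ hsur)
  have e2 : (A ⧸ J) ≃ₗ[k] (W ⧸ W'') := (Submodule.Quotient.restrictScalarsEquiv k J).symm.trans e1
  have e3 : W'' ≃ₗ[k] W' := Submodule.comapSubtypeEquivOfLe hle
  refine ⟨e2.symm.finiteDimensional, ?_⟩
  have h4 := Submodule.finrank_quotient_add_finrank W''
  rw [e2.finrank_eq]
  have h5 : ∀ p, finrank k (X.V J (p / M) (p % M)) ≤ finrank k (E.L (d * (p / M))) := by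
    intro p
    have := hE (d * (p / M))
    exact Submodule.finrank_mono (V_le X J _ _)
  have h6 : ∑ p ∈ range (M * M), (finrank k (E.L (d * (p / M))) -
      finrank k (X.V J (p / M) (p % M))) + ∑ p ∈ range (M * M), finrank k (X.V J (p / M) (p % M))
      = ∑ p ∈ range (M * M), finrank k (E.L (d * (p / M))) := by
    rw [← sum_add_distrib]
    exact sum_congr rfl fun p _ => Nat.sub_add_cancel (h5 p)
  rw [← sum_box M (fun n j => finrank k (E.L (d * n)) - finrank k (X.V J n j))]
  have h7 : finrank k W = ∑ p ∈ range (M * M), finrank k (E.L (d * (p / M))) := by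
    rw [r1]
    exact sum_congr rfl fun p _ => by rw [V_top]
  rw [e3.finrank_eq, r2, h7, ← h6] at h4
  exact Nat.add_right_cancel h4

end Main

end Len

theorem t_Len : StmtLen := by
  intro k O A _ _ _ _ E d _ _ X hE
  exact ⟨Len.V_le X, Len.V_mul X, Len.V_top X, Len.V_big X, Len.length X hE⟩

end Pool.Agent.NH60.SS
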