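import Pool.Agent.NH60.SS.Stmts

/-!
# The degree of the moving part of a space of functions
-/

set_option autoImplicit false

namespace Pool.Agent.NH60.SS

open Finset Module

section

variable {k O : Type} [Field k] [CommRing O] [IsDomain O] [Algebra k O] (E : Ell k O)

theorem mu_bdd {V : Submodule k O} {s : ℕ} (hs : V ≤ E.L s) :
    BddAbove (E.deg '' (V : Set O)) := by
  refine ⟨s, ?_⟩
  rintro _ ⟨f, hf, rfl⟩
  exact hs hf

theorem mu_le_top {V : Submodule k O} {s : ℕ} (hs : V ≤ E.L s) {f : O} (hf : f ∈ V) :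
    E.deg f ≤ E.top V :=
  le_csSup (mu_bdd E hs) ⟨f, hf, rfl⟩

theorem mu_top_le {V : Submodule k O} {s : ℕ} (hs : V ≤ E.L s) : E.top V ≤ s := by
  refine csSup_le ⟨_, 0, V.zero_mem, rfl⟩ ?_
  rintro _ ⟨f, hf, rfl⟩
  exact hs hf

theorem mu_exists_top {V : Submodule k O} {s : ℕ} (h0 : V ≠ ⊥) (hs : V ≤ E.L s) :
    ∃ f ∈ V, f ≠ 0 ∧ E.deg f = E.top V := by
  obtain ⟨v, hv, hv0⟩ := Submodule.exists_mem_ne_zero_of_ne_bot h0
  have h1 : sSup (E.deg '' (V : Set O)) ∈ E.deg '' (V : Set O) :=
    Nat.sSup_mem ⟨_, 0, V.zero_mem, rfl⟩ (mu_bdd E hs)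
  obtain ⟨f, hf, hft⟩ := h1
  by_cases hf0 : f = 0
  · refine ⟨v, hv, hv0, ?_⟩
    have h2 : E.top V = 0 := by
      show sSup (E.deg '' (V : Set O)) = 0
      rw [← hft, hf0, E.deg_zero]
    have h3 := mu_le_top E hs hv
    omega
  · exact ⟨f, hf, hf0, hft⟩

theorem mu_cont_mem {V : Submodule k O} {f : O} (hf : f ∈ V) : f ∈ cont V :=
  Ideal.subset_span hf

theorem mu_cont_ne {V : Submodule k O} (h0 : V ≠ ⊥) : cont V ≠ ⊥ := by
  obtain ⟨v, hv, hv0⟩ := Submodule.exists_mem_ne_zero_of_ne_bot h0
  intro h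
  have := mu_cont_mem hv
  rw [h] at this
  exact hv0 this

include E in
theorem mu_cod_anti {b c : Ideal O} (hb : b ≠ ⊥) (hbc : b ≤ c) : cod k c ≤ cod k b := by
  have := E.fin_quot b hb
  exact LinearMap.finrank_le_finrank_of_surjective (f := (Ideal.Quotient.factorₐ k hbc).toLinearMap)
    (Ideal.Quotient.factor_surjective hbc)

theorem mu_cod_top : cod k (⊤ : Ideal O) = 0 := by
  have : Subsingleton (O ⧸ (⊤ : Ideal O)) := Ideal.Quotient.subsingleton_iff.2 rfl
  exact Module.finrank_zero_of_subsingleton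

theorem mu_top_zero {V : Submodule k O} (h : ∀ f ∈ V, E.deg f = 0) : E.mu V = 0 := by
  have h1 : E.top V = 0 := by
    have h2 : V ≤ E.L 0 := fun f hf => (h f hf).le
    exact Nat.le_zero.1 (mu_top_le E h2)
  rw [Ell.mu, h1, Nat.zero_sub]

end

theorem t_Mu : StmtRR → StmtMu := by
  intro RR k O _ _ _ _ E
  obtain ⟨r1, r2, r3, r4, r5, r6⟩ := RR k O E
  have := r1
  refine ⟨?_, ?_, ?_, ?_⟩
  · intro V s h0 hs
    obtain ⟨f, hf, hf0, hft⟩ := mu_exists_top E h0 hs
    have hb := mu_cont_ne h0
    have hcod : cod k (cont V) ≤ E.top V := hft ▸ r5 _ f (mu_cont_mem hf) hf0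
    have : FiniteDimensional k V := Submodule.finiteDimensional_of_le hs
    have hcap : ∀ t, E.top V ≤ t → V ≤ E.cap (cont V) t := fun t ht g hg =>
      E.mem_cap.2 ⟨mu_cont_mem hg, (mu_le_top E hs hg).trans ht⟩
    have hfin : ∀ (b : Ideal O) (t : ℕ), FiniteDimensional k (E.cap b t) := fun b t =>
      Submodule.finiteDimensional_of_le (inf_le_right : E.cap b t ≤ E.L t)
    have hle : ∀ t, E.top V ≤ t → cod k (cont V) + 1 ≤ t →
        finrank k V + cod k (cont V) ≤ t := by
      intro t ht h1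
      have h2 := r6 (cont V) t hb h1
      have := hfin (cont V) t
      have h3 := Submodule.finrank_mono (hcap t ht)
      omega
    have hpos : 1 ≤ finrank k V := by
      rw [Nat.one_le_iff_ne_zero]
      intro h
      exact h0 (Submodule.finrank_eq_zero.1 h)
    have hone : finrank k V = 1 → cod k (cont V) = E.top V := by
      intro h1
      have h2 : cont V = Ideal.span {f} := by
        apply le_antisymm
        · refine Ideal.span_le.2 fun g hg => ?_
          obtain ⟨c, hc⟩ := (finrank_eq_one_iff_of_nonzero' (⟨f, hf⟩ : V)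
            (fun h => hf0 (congrArg Subtype.val h))).1 h1 ⟨g, hg⟩
          have h3 : c • f = g := congrArg Subtype.val hc
          show g ∈ Ideal.span {f}
          rw [← h3, Algebra.smul_def]
          exact Ideal.mul_mem_left _ _ (Ideal.subset_span rfl)
        · refine Ideal.span_le.2 ?_
          rintro _ rfl
          exact mu_cont_mem hf
      rw [h2, ← hft]
      exact E.cod_span f hf0
    refine ⟨hcod, mu_top_le E hs, ?_, ?_, ?_, ?_⟩
    · intro hmu
      have h1 : E.top V - cod k (cont V) = 1 := hmu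
      have h2 := hle (E.top V) le_rfl (by omega)
      have h3 := hone (by omega)
      omega
    · intro hmu
      have h1 : E.top V - cod k (cont V) = 0 := hmu
      have h2 := hle (cod k (cont V) + 1) (by omega) le_rfl
      omega
    · intro hmu
      have h1 : 2 ≤ E.top V - cod k (cont V) := hmu
      have h2 := hle (E.top V) le_rfl (by omega)
      show finrank k V ≤ E.top V - cod k (cont V)
      omega
    · intro W hVW hW
      have h1 : E.top V ≤ E.top W := by
        rw [← hft]
        exact mu_le_top E hW (hVW hf)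
      have h2 : cod k (cont W) ≤ cod k (cont V) :=
        mu_cod_anti E hb (Ideal.span_mono hVW)
      exact tsub_le_tsub h1 h2
  · exact mu_top_zero E fun f hf => Nat.le_zero.1 hf
  · refine mu_top_zero E fun f hf => ?_
    have h1 : E.deg f ≤ 1 := hf
    have h2 := E.deg_ne_one f
    omega
  · intro t ht
    have h1 : E.top (E.L t) = t := by
      apply le_antisymm (mu_top_le E le_rfl)
      obtain ⟨f, hf0, hf⟩ := E.exists_deg t (by omega)
      have h2 := mu_le_top E (le_refl (E.L t)) (f := f) hf.le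
      omega
    have h2 : cont (E.L t) = ⊤ := by
      refine (Ideal.eq_top_iff_one _).2 (mu_cont_mem ?_)
      show E.deg 1 ≤ t
      rw [← map_one (algebraMap k O), E.deg_algebraMap]
      exact Nat.zero_le _
    show E.top (E.L t) - cod k (cont (E.L t)) = t
    rw [h1, h2, mu_cod_top, Nat.sub_zero]

end Pool.Agent.NH60.SS
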