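import Pool.Agent.NH60.SS.Stmts

/-!
# Semistability of simple elliptic surface singularities: multiplication by a pencil
-/

set_option autoImplicit false

namespace Pool.Agent.NH60.SS.Pencil

open Finset Module Pool.Agent.NH60.SS

variable {k O : Type} [Field k] [CommRing O] [IsDedekindDomain O] [Algebra k O] (E : Ell k O)

theorem deg_mul_le (f g : O) : E.deg (f * g) ≤ E.deg f + E.deg g := by
  by_cases hf : f = 0
  · rw [hf, zero_mul, E.deg_zero]
    exact Nat.zero_le _
  by_cases hg : g = 0
  · rw [hg, mul_zero, E.deg_zero]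
    exact Nat.zero_le _
  exact (E.deg_mul f g hf hg).le

theorem deg_le_top {V : Submodule k O} {s : ℕ} (hs : V ≤ E.L s) {f : O} (hf : f ∈ V) :
    E.deg f ≤ E.top V := by
  refine le_csSup ⟨s, ?_⟩ ⟨f, hf, rfl⟩
  rintro _ ⟨g, hg, rfl⟩
  exact hs hg

theorem exists_top {V : Submodule k O} {s : ℕ} (hs : V ≤ E.L s) (hV : V ≠ ⊥) :
    ∃ f ∈ V, f ≠ 0 ∧ E.deg f = E.top V := by
  have hb : BddAbove (E.deg '' (V : Set O)) := by
    refine ⟨s, ?_⟩
    rintro _ ⟨g, hg, rfl⟩
    exact hs hg
  have hne : (E.deg '' (V : Set O)).Nonempty := ⟨E.deg 0, 0, V.zero_mem, rfl⟩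
  obtain ⟨f, hf, hfd⟩ := Nat.sSup_mem hne hb
  change E.deg f = E.top V at hfd
  by_cases h0 : f = 0
  · obtain ⟨g, hg, hg0⟩ := Submodule.exists_mem_ne_zero_of_ne_bot hV
    refine ⟨g, hg, hg0, ?_⟩
    have h1 := deg_le_top E hs hg
    rw [h0, E.deg_zero] at hfd
    omega
  · exact ⟨f, hf, h0, hfd⟩

/-- A space of functions has an element whose moving part has no common factor with a given
nonzero ideal. -/
theorem exists_coprime [Infinite k] {V : Submodule k O} (hV : V ≠ ⊥) {q : Ideal O} (hq : q ≠ ⊥)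
    {b : Ideal O} (hb : b = cont V) :
    ∃ g ∈ V, g ≠ 0 ∧ ∀ q' : Ideal O, Ideal.span {g} = b * q' → q ⊔ q' = ⊤ := by
  classical
  have hb0 : b ≠ ⊥ := by
    obtain ⟨g, hg, hg0⟩ := Submodule.exists_mem_ne_zero_of_ne_bot hV
    intro h
    have h1 : g ∈ cont V := Ideal.subset_span hg
    rw [← hb, h] at h1
    exact hg0 (by simpa using h1)
  have hfin := Ideal.finite_factors (I := q) hq
  have : Finite {v : IsDedekindDomain.HeightOneSpectrum O | v.asIdeal ∣ q} := hfin
  let W : Option {v : IsDedekindDomain.HeightOneSpectrum O | v.asIdeal ∣ q} → Subspace k V :=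
    fun o => match o with
      | none => ⊥
      | some v => ((b * v.1.asIdeal).restrictScalars k).comap V.subtype
  have hW : ∀ o, W o ≠ ⊤ := by
    rintro (_ | v) h
    · change (⊥ : Submodule k V) = ⊤ at h
      apply hV
      rw [eq_bot_iff]
      intro x hx
      have h1 : (⟨x, hx⟩ : V) ∈ (⊤ : Submodule k V) := Submodule.mem_top
      rw [← h] at h1
      have h2 : (⟨x, hx⟩ : V) = 0 := by simpa using h1
      have h3 : x = 0 := congrArg Subtype.val h2
      rw [h3]
      exact Submodule.zero_mem _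
    · change ((b * v.1.asIdeal).restrictScalars k).comap V.subtype = ⊤ at h
      have h1 : b ≤ b * v.1.asIdeal := by
        conv_lhs => rw [hb]
        refine Ideal.span_le.2 fun x hx => ?_
        have h2 : (⟨x, hx⟩ : V) ∈ (⊤ : Submodule k V) := Submodule.mem_top
        rw [← h] at h2
        exact h2
      have h2 : b * v.1.asIdeal = b * 1 := by
        rw [mul_one]
        exact le_antisymm Ideal.mul_le_left h1
      have h3 := mul_left_cancel₀ hb0 h2
      exact v.1.isPrime.ne_top (by rw [h3, Ideal.one_eq_top])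
  have hU : (⋃ o, (W o : Set V)) ≠ Set.univ := fun h => by
    obtain ⟨o, ho⟩ := Subspace.exists_eq_top_of_iUnion_eq_univ h
    exact hW o ho
  obtain ⟨g, hg⟩ := (Set.ne_univ_iff_exists_notMem _).1 hU
  rw [Set.mem_iUnion, not_exists] at hg
  refine ⟨g, g.2, ?_, ?_⟩
  · intro h
    apply hg none
    change g ∈ (⊥ : Submodule k V)
    rw [Submodule.mem_bot]
    exact Subtype.ext h
  · intro q' hq'
    by_contra hne
    obtain ⟨p, hp, hple⟩ := Ideal.exists_le_maximal _ hne
    have hqp : q ≤ p := le_sup_left.trans hple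
    have hq'p : q' ≤ p := le_sup_right.trans hple
    have hp0 : p ≠ ⊥ := fun h => hq (eq_bot_iff.2 (h ▸ hqp))
    apply hg (some ⟨⟨p, hp.isPrime, hp0⟩, Ideal.dvd_iff_le.2 hqp⟩)
    change (g : O) ∈ b * p
    have h1 : Ideal.span {(g : O)} ≤ b * p := by
      rw [hq']
      exact Ideal.mul_mono_right hq'p
    exact h1 (Ideal.mem_span_singleton_self _)

theorem finrank_map_mulLeft (f : O) (hf : f ≠ 0) (M : Submodule k O) :
    finrank k (M.map (LinearMap.mulLeft k f)) = finrank k M := by
  have hinj : Function.Injective (LinearMap.mulLeft k f) := by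
    intro x y hxy
    exact mul_left_cancel₀ hf hxy
  exact (Submodule.equivMapOfInjective _ hinj M).finrank_eq.symm

end Pool.Agent.NH60.SS.Pencil

namespace Pool.Agent.NH60.SS

open Finset Module Pool.Agent.NH60.SS.Pencil

theorem t_Pencil : StmtRR → StmtPencil := by
  intro hRR k O _ _ _ _ _ E V s c t hV hs hc ht
  obtain ⟨hfd, -, -, hcm, hcd, hcap⟩ := hRR k O E
  obtain ⟨f, hfV, hf0, hfd'⟩ := exists_top E hs hV
  set b := cont V with hb
  set a := E.top V with ha
  have hfb : f ∈ b := Ideal.subset_span hfV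
  have hb0 : b ≠ ⊥ := fun h => hf0 (by rw [h] at hfb; simpa using hfb)
  have hba : cod k b ≤ a := hfd' ▸ hcd b f hfb hf0
  have hmu : E.mu V = a - cod k b := rfl
  have := hfd
  have hcapfd : ∀ (I : Ideal O) (n : ℕ), FiniteDimensional k (E.cap I n) := fun I n =>
    Submodule.finiteDimensional_of_le (inf_le_right : E.cap I n ≤ E.L n)
  -- the upper bound
  have hle : V * E.cap c t ≤ E.cap (b * c) (t + a) := by
    refine Submodule.mul_le.2 fun v hv x hx => ?_
    refine ⟨Ideal.mul_mem_mul (Ideal.subset_span hv) hx.1, ?_⟩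
    have h1 := deg_mul_le E v x
    have h2 := deg_le_top E hs hv
    have h3 : E.deg x ≤ t := hx.2
    change E.deg (v * x) ≤ t + a
    omega
  have := hcapfd
  refine Submodule.eq_of_le_of_finrank_le hle ?_
  -- the two functions
  obtain ⟨q, hq⟩ : ∃ q, Ideal.span {f} = b * q :=
    Ideal.dvd_iff_le.2 ((Ideal.span_singleton_le_iff_mem _).2 hfb)
  have hf00 : Ideal.span {f} ≠ (⊥ : Ideal O) := by
    rwa [Ne, Ideal.span_singleton_eq_bot]
  have hq0 : q ≠ ⊥ := fun h => hf00 (by rw [hq, h, Ideal.mul_bot])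
  obtain ⟨g, hgV, hg0, hg⟩ := exists_coprime hV hq0 hb
  have hgb : g ∈ b := Ideal.subset_span hgV
  obtain ⟨q', hq'⟩ : ∃ q', Ideal.span {g} = b * q' :=
    Ideal.dvd_iff_le.2 ((Ideal.span_singleton_le_iff_mem _).2 hgb)
  have hg00 : Ideal.span {g} ≠ (⊥ : Ideal O) := by
    rwa [Ne, Ideal.span_singleton_eq_bot]
  have hq'0 : q' ≠ ⊥ := fun h => hg00 (by rw [hq', h, Ideal.mul_bot])
  have hcop := hg q' hq'
  have hgd : E.deg g ≤ a := deg_le_top E hs hgV
  have hcodg : cod k b + cod k q' = E.deg g := by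
    rw [← hcm b q' hb0 hq'0, ← hq']
    exact E.cod_span g hg0
  -- dimensions
  have hM : finrank k (E.cap c t) + cod k c = t := hcap c t hc (by omega)
  have hT : finrank k (E.cap (b * c) (t + a)) + (cod k b + cod k c) = t + a := by
    have h1 : b * c ≠ ⊥ := mul_ne_zero hb0 hc
    have h2 := hcm b c hb0 hc
    have h3 := hcap (b * c) (t + a) h1 (by omega)
    omega
  have hI : finrank k (E.cap (q' * c) (t + E.deg g - a)) + (cod k q' + cod k c) =
      t + E.deg g - a := by
    have h1 : q' * c ≠ ⊥ := mul_ne_zero hq'0 hc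
    have h2 := hcm q' c hq'0 hc
    have h3 := hcap (q' * c) (t + E.deg g - a) h1 (by omega)
    omega
  set M := E.cap c t with hMdef
  set F := M.map (LinearMap.mulLeft k f) with hF
  set G := M.map (LinearMap.mulLeft k g) with hG
  have hFG : F ⊔ G ≤ V * M := by
    refine sup_le ?_ ?_
    · rintro _ ⟨x, hx, rfl⟩
      exact Submodule.mul_mem_mul hfV hx
    · rintro _ ⟨x, hx, rfl⟩
      exact Submodule.mul_mem_mul hgV hx
  have hinf : F ⊓ G ≤ (E.cap (q' * c) (t + E.deg g - a)).map (LinearMap.mulLeft k f) := by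
    rintro z ⟨⟨u, hu, huz⟩, ⟨v, hv, hvz⟩⟩
    refine ⟨u, ?_, huz⟩
    have huc : u ∈ c := hu.1
    have hvc : v ∈ c := hv.1
    have hvt : E.deg v ≤ t := hv.2
    have huv : f * u = g * v := by
      have h1 : f * u = z := huz
      have h2 : g * v = z := hvz
      rw [h1, h2]
    by_cases hu0 : u = 0
    · rw [hu0]
      exact Submodule.zero_mem _
    have hv0 : v ≠ 0 := by
      rintro rfl
      rw [mul_zero] at huv
      exact (mul_ne_zero hf0 hu0) huv
    refine ⟨?_, ?_⟩
    · have h1 : b * (q * Ideal.span {u}) = b * (q' * Ideal.span {v}) := by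
        rw [← mul_assoc, ← mul_assoc, ← hq, ← hq', Ideal.span_singleton_mul_span_singleton,
          Ideal.span_singleton_mul_span_singleton, huv]
      have h2 := mul_left_cancel₀ hb0 h1
      have h3 : Ideal.span {u} ≤ q' * c := by
        calc Ideal.span {u} = (q ⊔ q') * Ideal.span {u} := by rw [hcop, Ideal.top_mul]
          _ = q' * Ideal.span {v} ⊔ q' * Ideal.span {u} := by rw [Ideal.sup_mul, h2]
          _ ≤ q' * c := sup_le
              (Ideal.mul_mono_right ((Ideal.span_singleton_le_iff_mem _).2 hvc))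
              (Ideal.mul_mono_right ((Ideal.span_singleton_le_iff_mem _).2 huc))
      exact h3 (Ideal.mem_span_singleton_self _)
    · have h1 := E.deg_mul f u hf0 hu0
      have h2 := E.deg_mul g v hg0 hv0
      rw [huv, h2] at h1
      change E.deg u ≤ t + E.deg g - a
      omega
  have hMf : FiniteDimensional k M := hcapfd c t
  have hFf : FiniteDimensional k F := inferInstance
  have hGf : FiniteDimensional k G := inferInstance
  have e1 : finrank k F = finrank k M := finrank_map_mulLeft f hf0 M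
  have e2 : finrank k G = finrank k M := finrank_map_mulLeft g hg0 M
  have e3 := Submodule.finrank_sup_add_finrank_inf_eq F G
  have e4 : finrank k ↥(F ⊓ G) ≤ finrank k (E.cap (q' * c) (t + E.deg g - a)) := by
    rw [← finrank_map_mulLeft f hf0 (E.cap (q' * c) (t + E.deg g - a))]
    exact Submodule.finrank_mono hinf
  have hVM : FiniteDimensional k ↥(V * M) := Submodule.finiteDimensional_of_le hle
  have e5 : finrank k ↥(F ⊔ G) ≤ finrank k ↥(V * M) := Submodule.finrank_mono hFG
  omega

end Pool.Agent.NH60.SS
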