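import Pool.Agent.NH60.SS.Stmts

/-!
# Dimensions of truncated ideals
-/

set_option autoImplicit false

namespace Pool.Agent.NH60.SS

open Finset Module

section codim

variable {k R : Type} [Field k] [CommRing R] [IsDedekindDomain R] [Algebra k R]

/-- The codimension is additive. -/
theorem cod_mul_aux {I J : Ideal R} (hI0 : I ≠ ⊥) (hJ0 : J ≠ ⊥)
    [FiniteDimensional k (R ⧸ (I * J))] :
    Module.finrank k (R ⧸ J) + Module.finrank k (R ⧸ I) = Module.finrank k (R ⧸ (I * J)) := by
  have hK0 : I * J ≠ (0 : Ideal R) := mul_ne_zero hI0 hJ0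
  have hle : I * J ≤ I := Ideal.mul_le_left
  obtain ⟨b, hb⟩ := IsDedekindDomain.exists_sup_span_eq hle hK0
  set mk : R →ₗ[R] (R ⧸ (I * J)) := (I * J).mkQ with hmk
  let φ : R →ₗ[R] (R ⧸ (I * J)) := mk.comp (LinearMap.toSpanSingleton R R b)
  have hφ : ∀ r : R, φ r = mk (r * b) := fun r => rfl
  have hker : LinearMap.ker φ = J := by
    ext r
    rw [LinearMap.mem_ker, hφ, hmk, Submodule.mkQ_apply, Submodule.Quotient.mk_eq_zero]
    constructor
    · intro h
      have h1 : I * Ideal.span {r} ≤ I * J := by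
        refine Ideal.mul_le.2 fun y hy s hs => ?_
        obtain ⟨s', rfl⟩ := Ideal.mem_span_singleton'.1 hs
        rw [← hb] at hy
        obtain ⟨y1, hy1, y2, hy2, rfl⟩ := Submodule.mem_sup.1 hy
        obtain ⟨y3, rfl⟩ := Ideal.mem_span_singleton'.1 hy2
        have e : (y1 + y3 * b) * (s' * r) = s' * r * y1 + s' * y3 * (r * b) := by ring
        rw [e]
        exact add_mem (Ideal.mul_mem_left _ _ hy1) (Ideal.mul_mem_left _ _ h)
      have h2 : J ∣ Ideal.span {r} := by
        have h3 : I * J ∣ I * Ideal.span {r} := Ideal.dvd_iff_le.2 h1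
        exact (mul_dvd_mul_iff_left hI0).1 h3
      exact (Ideal.span_singleton_le_iff_mem _).1 (Ideal.dvd_iff_le.1 h2)
    · intro h
      rw [mul_comm r b]
      refine Ideal.mul_mem_mul ?_ h
      rw [← hb]
      exact Submodule.mem_sup_right (Ideal.mem_span_singleton_self b)
  let ψ : (R ⧸ (I * J)) →ₗ[R] (R ⧸ I) := Submodule.factor hle
  have hψ : ∀ r : R, ψ (mk r) = I.mkQ r := fun r => rfl
  have hkerψ : LinearMap.ker ψ = LinearMap.range φ := by
    ext x
    obtain ⟨r, rfl⟩ := Submodule.mkQ_surjective _ x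
    constructor
    · intro h
      have h1 : r ∈ I := by
        have h2 : I.mkQ r = 0 := h
        rwa [Submodule.mkQ_apply, Submodule.Quotient.mk_eq_zero] at h2
      rw [← hb] at h1
      obtain ⟨y1, hy1, y2, hy2, rfl⟩ := Submodule.mem_sup.1 h1
      obtain ⟨y3, rfl⟩ := Ideal.mem_span_singleton'.1 hy2
      refine ⟨y3, ?_⟩
      rw [hφ]
      show mk (y3 * b) = mk (y1 + y3 * b)
      rw [map_add]
      have : mk y1 = 0 := by
        rw [hmk, Submodule.mkQ_apply, Submodule.Quotient.mk_eq_zero]
        exact hy1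
      rw [this, zero_add]
    · rintro ⟨s, hs⟩
      rw [LinearMap.mem_ker, ← hs, hφ, hψ, Submodule.mkQ_apply, Submodule.Quotient.mk_eq_zero]
      refine Ideal.mul_mem_left _ _ ?_
      rw [← hb]
      exact Submodule.mem_sup_right (Ideal.mem_span_singleton_self b)
  have hsurj : Function.Surjective ψ := by
    intro x
    obtain ⟨r, rfl⟩ := Submodule.mkQ_surjective _ x
    exact ⟨mk r, rfl⟩
  have h1 := LinearMap.finrank_range_add_finrank_ker (ψ.restrictScalars k)
  have h2 : Module.finrank k (LinearMap.range (ψ.restrictScalars k)) = Module.finrank k (R ⧸ I) := by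
    rw [LinearMap.range_eq_top.2 (show Function.Surjective (ψ.restrictScalars k) from hsurj),
      finrank_top]
  have h3 : Module.finrank k (LinearMap.ker (ψ.restrictScalars k)) = Module.finrank k (R ⧸ J) := by
    have e1 : (R ⧸ J) ≃ₗ[R] LinearMap.range φ :=
      (Submodule.quotEquivOfEq _ _ hker.symm).trans φ.quotKerEquivRange
    have e2 : LinearMap.range φ ≃ₗ[R] LinearMap.ker ψ := LinearEquiv.ofEq _ _ hkerψ.symm
    exact ((e1.trans e2).restrictScalars k).finrank_eq.symm
  rw [h2, h3] at h1
  omega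

end codim

section step

variable {k O : Type} [Field k] [CommRing O] [Algebra k O]

/-- adding one vector -/
theorem step_aux (U U' : Submodule k O) (hU : U ≤ U') (hfin : FiniteDimensional k U) (f : O)
    (hf : f ∈ U') (hfU : f ∉ U) (hg : ∀ g ∈ U', ∃ c : k, g - c • f ∈ U) :
    FiniteDimensional k U' ∧ finrank k U' = finrank k U + 1 := by
  have e : U' = U ⊔ Submodule.span k {f} := by
    apply le_antisymm
    · intro g hgU
      obtain ⟨c, hc⟩ := hg g hgU
      rw [Submodule.mem_sup]
      exact ⟨g - c • f, hc, c • f, Submodule.smul_mem _ _ (Submodule.mem_span_singleton_self f), by abel⟩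
    · rw [sup_le_iff, Submodule.span_singleton_le_iff_mem]
      exact ⟨hU, hf⟩
  have hf0 : f ≠ 0 := by
    rintro rfl
    exact hfU U.zero_mem
  have hinf : U ⊓ Submodule.span k {f} = ⊥ := by
    rw [eq_bot_iff]
    rintro x ⟨hx, hx'⟩
    obtain ⟨c, rfl⟩ := Submodule.mem_span_singleton.1 hx'
    rw [Submodule.mem_bot]
    by_contra hne
    have hc : c ≠ 0 := by
      rintro rfl
      exact hne (zero_smul _ _)
    apply hfU
    have := U.smul_mem c⁻¹ hx
    rwa [smul_smul, inv_mul_cancel₀ hc, one_smul] at this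
  rw [e]
  have := hfin
  refine ⟨inferInstance, ?_⟩
  have h := Submodule.finrank_sup_add_finrank_inf_eq U (Submodule.span k {f})
  rw [hinf, finrank_bot, finrank_span_singleton hf0] at h
  omega

end step

section basic

variable {k O : Type} [Field k] [CommRing O] [IsDomain O] [Algebra k O] (E : Ell k O)

open Classical in
/-- the degrees at most `t` which occur in a subspace -/
noncomputable def dg (W : Submodule k O) (t : ℕ) : Finset ℕ :=
  (range (t + 1)).filter (fun m => ∃ f ∈ W, f ≠ 0 ∧ E.deg f = m)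

theorem mem_dg {W : Submodule k O} {t m : ℕ} :
    m ∈ dg E W t ↔ m ≤ t ∧ ∃ f ∈ W, f ≠ 0 ∧ E.deg f = m := by
  classical
  rw [dg, mem_filter, mem_range, Nat.lt_succ_iff]

/-- the dimension is the number of degrees -/
theorem fd_cnt (W : Submodule k O) (t : ℕ) :
    FiniteDimensional k (W ⊓ E.L t : Submodule k O) ∧
      finrank k (W ⊓ E.L t : Submodule k O) = (dg E W t).card := by
  induction t with
  | zero =>
    by_cases h : ∃ f ∈ W, f ≠ 0 ∧ E.deg f = 0
    · obtain ⟨f, hfW, hf0, hfd⟩ := h
      have e1 : (dg E W 0) = {0} := by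
        ext m
        rw [mem_dg, mem_singleton]
        constructor
        · intro h
          omega
        · rintro rfl
          exact ⟨le_rfl, f, hfW, hf0, hfd⟩
      have h1 := step_aux (⊥ : Submodule k O) (W ⊓ E.L 0) bot_le inferInstance f
        ⟨hfW, by rw [SetLike.mem_coe, E.mem_L, hfd]⟩ (by rwa [Submodule.mem_bot]) (by
          rintro g ⟨hgW, hg⟩
          rw [SetLike.mem_coe, E.mem_L, Nat.le_zero] at hg
          obtain ⟨c, hc⟩ := E.deg_const f hfd
          obtain ⟨c', hc'⟩ := E.deg_const g hg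
          have hc0 : c ≠ 0 := by
            rintro rfl
            rw [map_zero] at hc
            exact hf0 hc
          refine ⟨c' / c, ?_⟩
          rw [Submodule.mem_bot, hc, hc', Algebra.smul_def, ← map_mul, div_mul_cancel₀ _ hc0, sub_self])
      rw [finrank_bot, zero_add] at h1
      rw [e1, card_singleton]
      exact h1
    · have e1 : (dg E W 0) = ∅ := by
        ext m
        rw [mem_dg]
        constructor
        · rintro ⟨hm, f, hf, hf0, hfd⟩
          exact absurd ⟨f, hf, hf0, by omega⟩ h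
        · intro hm
          exact absurd hm (notMem_empty m)
      have e2 : W ⊓ E.L 0 = ⊥ := by
        rw [eq_bot_iff]
        rintro g ⟨hgW, hg⟩
        rw [SetLike.mem_coe, E.mem_L, Nat.le_zero] at hg
        rw [Submodule.mem_bot]
        by_contra hne
        exact h ⟨g, hgW, hne, hg⟩
      rw [e1, e2, card_empty]
      exact ⟨inferInstance, finrank_bot k O⟩
  | succ t ih =>
    have hLL : E.L t ≤ E.L (t + 1) := fun f hf => by
      rw [E.mem_L] at hf ⊢
      omega
    by_cases h : ∃ f ∈ W, f ≠ 0 ∧ E.deg f = t + 1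
    · obtain ⟨f, hfW, hf0, hfd⟩ := h
      have e1 : (dg E W (t + 1)) = insert (t + 1) (dg E W t) := by
        ext m
        rw [mem_insert, mem_dg, mem_dg]
        constructor
        · rintro ⟨hm, h⟩
          by_cases hmt : m = t + 1
          · exact Or.inl hmt
          · exact Or.inr ⟨by omega, h⟩
        · rintro (rfl | ⟨hm, h⟩)
          · exact ⟨le_rfl, f, hfW, hf0, hfd⟩
          · exact ⟨by omega, h⟩
      have e2 : t + 1 ∉ dg E W t := by
        rw [mem_dg]
        rintro ⟨h, -⟩
        omega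
      have h1 := step_aux (W ⊓ E.L t) (W ⊓ E.L (t + 1)) (inf_le_inf le_rfl hLL) ih.1 f
        ⟨hfW, by rw [SetLike.mem_coe, E.mem_L, hfd]⟩ (by
          rintro ⟨-, h⟩
          rw [SetLike.mem_coe, E.mem_L] at h
          omega) (by
          rintro g ⟨hgW, hg⟩
          rw [SetLike.mem_coe, E.mem_L] at hg
          by_cases hgt : E.deg g ≤ t
          · refine ⟨0, ?_⟩
            rw [zero_smul, sub_zero]
            exact ⟨hgW, hgt⟩
          · obtain ⟨c, hc⟩ := E.lead g f (by omega) (by omega)
            refine ⟨c, ⟨W.sub_mem hgW (W.smul_mem c hfW), ?_⟩⟩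
            rw [SetLike.mem_coe, E.mem_L]
            omega)
      rw [e1, card_insert_of_notMem e2, ← ih.2]
      exact h1
    · have e1 : (dg E W (t + 1)) = dg E W t := by
        ext m
        rw [mem_dg, mem_dg]
        constructor
        · rintro ⟨hm, h'⟩
          have : m ≠ t + 1 := by
            rintro rfl
            exact h h'
          exact ⟨by omega, h'⟩
        · rintro ⟨hm, h⟩
          exact ⟨by omega, h⟩
      have e2 : W ⊓ E.L (t + 1) = W ⊓ E.L t := by
        apply le_antisymm _ (inf_le_inf le_rfl hLL)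
        rintro g ⟨hgW, hg⟩
        rw [SetLike.mem_coe, E.mem_L] at hg
        refine ⟨hgW, ?_⟩
        rw [SetLike.mem_coe, E.mem_L]
        by_contra hcon
        refine h ⟨g, hgW, ?_, by omega⟩
        rintro rfl
        rw [E.deg_zero] at hcon
        omega
      rw [e1, e2]
      exact ih

theorem L_eq (t : ℕ) : (⊤ : Submodule k O) ⊓ E.L t = E.L t := top_inf_eq _

theorem fd_L (t : ℕ) : FiniteDimensional k (E.L t) := by
  have := (fd_cnt E ⊤ t).1
  rwa [L_eq] at this

theorem dg_top (t : ℕ) : dg E (⊤ : Submodule k O) t = (range (t + 1)).erase 1 := by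
  ext m
  rw [mem_dg, mem_erase, mem_range]
  constructor
  · rintro ⟨hm, f, -, hf0, hfd⟩
    refine ⟨?_, by omega⟩
    rintro rfl
    exact E.deg_ne_one f hfd
  · rintro ⟨h1, hm⟩
    obtain ⟨f, hf0, hfd⟩ := E.exists_deg m h1
    exact ⟨by omega, f, Submodule.mem_top, hf0, hfd⟩

theorem finrank_L0 : finrank k (E.L 0) = 1 := by
  have := (fd_cnt E ⊤ 0).2
  rw [L_eq, dg_top] at this
  rw [this]
  rfl

theorem finrank_L {t : ℕ} (ht : 1 ≤ t) : finrank k (E.L t) = t := by
  have := (fd_cnt E ⊤ t).2
  rw [L_eq, dg_top, card_erase_of_mem (mem_range.2 (by omega)), card_range] at this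
  rw [this]
  omega

end basic

section dedekind

variable {k O : Type} [Field k] [CommRing O] [IsDedekindDomain O] [Algebra k O] (E : Ell k O)

include E in
theorem cod_mul {b c : Ideal O} (hb : b ≠ ⊥) (hc : c ≠ ⊥) : cod k (b * c) = cod k b + cod k c := by
  have : FiniteDimensional k (O ⧸ (b * c)) := E.fin_quot _ (mul_ne_zero hb hc)
  have := cod_mul_aux (k := k) hb hc
  unfold cod
  omega

/-- the complementary ideal of an element -/
theorem cod_elt {b : Ideal O} {f : O} (hf : f ∈ b) (hf0 : f ≠ 0) :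
    ∃ b' : Ideal O, b' ≠ ⊥ ∧ Ideal.span {f} = b * b' ∧ E.deg f = cod k b + cod k b' := by
  obtain ⟨b', hb'⟩ := Ideal.dvd_iff_le.2 ((Ideal.span_singleton_le_iff_mem _).2 hf)
  have hsp : Ideal.span {f} ≠ (⊥ : Ideal O) := fun h0 => hf0 (Ideal.span_singleton_eq_bot.1 h0)
  have hb0 : b ≠ ⊥ := by
    rintro rfl
    exact hf0 ((Submodule.mem_bot O).1 hf)
  have hb'0 : b' ≠ ⊥ := by
    rintro rfl
    rw [Ideal.mul_bot] at hb'
    exact hsp hb'
  refine ⟨b', hb'0, hb', ?_⟩
  rw [← cod_mul E hb0 hb'0, ← hb', cod, E.cod_span f hf0]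

theorem cod_le_deg {b : Ideal O} {f : O} (hf : f ∈ b) (hf0 : f ≠ 0) : cod k b ≤ E.deg f := by
  obtain ⟨b', -, -, h⟩ := cod_elt E hf hf0
  omega

/-- a generator -/
theorem span_of_deg {b : Ideal O} {f : O} (hf : f ∈ b) (hf0 : f ≠ 0) (hd : E.deg f = cod k b) :
    b = Ideal.span {f} := by
  obtain ⟨b', hb'0, hb', h⟩ := cod_elt E hf hf0
  have h1 : finrank k (O ⧸ b') = 0 := by
    unfold cod at h hd
    omega
  have := E.fin_quot b' hb'0
  have h2 : Subsingleton (O ⧸ b') := Module.finrank_zero_iff.1 h1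
  have h3 : b' = ⊤ := Ideal.Quotient.subsingleton_iff.1 h2
  rw [hb', h3, Ideal.mul_top]

theorem cap_eq (b : Ideal O) (t : ℕ) : E.cap b t = b.restrictScalars k ⊓ E.L t := rfl

theorem cap_finrank {b : Ideal O} (hb : b ≠ ⊥) {t : ℕ} (ht : cod k b + 1 ≤ t) :
    finrank k (E.cap b t) + cod k b = t := by
  have := E.fin_quot b hb
  have := fd_L E t
  apply le_antisymm
  · -- the upper bound
    rw [cap_eq, (fd_cnt E (b.restrictScalars k) t).2]
    set c := cod k b with hc
    have hsub : ∃ m ∈ Icc c t, dg E (b.restrictScalars k) t ⊆ (Icc c t).erase m := by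
      by_cases h : ∃ f ∈ b, f ≠ 0 ∧ E.deg f = c
      · obtain ⟨f, hf, hf0, hfd⟩ := h
        have hspan := span_of_deg E hf hf0 hfd
        refine ⟨c + 1, mem_Icc.2 ⟨by omega, ht⟩, fun m hm => ?_⟩
        rw [mem_dg] at hm
        obtain ⟨hm, g, hg, hg0, hgd⟩ := hm
        have hg' : g ∈ b := hg
        rw [mem_erase, mem_Icc]
        refine ⟨?_, ?_, hm⟩
        · rintro rfl
          rw [hspan, Ideal.mem_span_singleton'] at hg'
          obtain ⟨r, rfl⟩ := hg'
          have hr0 : r ≠ 0 := by
            rintro rfl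
            exact hg0 (zero_mul _)
          rw [E.deg_mul _ _ hr0 hf0, hfd] at hgd
          exact E.deg_ne_one r (by omega)
        · have := cod_le_deg E hg' hg0
          omega
      · refine ⟨c, mem_Icc.2 ⟨le_rfl, by omega⟩, fun m hm => ?_⟩
        rw [mem_dg] at hm
        obtain ⟨hm, g, hg, hg0, hgd⟩ := hm
        have hg' : g ∈ b := hg
        rw [mem_erase, mem_Icc]
        refine ⟨?_, ?_, hm⟩
        · rintro rfl
          exact h ⟨g, hg', hg0, hgd⟩
        · have := cod_le_deg E hg' hg0
          omega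
    obtain ⟨m, hm, hsub⟩ := hsub
    have h1 := card_le_card hsub
    rw [card_erase_of_mem hm, Nat.card_Icc] at h1
    omega
  · -- the lower bound
    let φ : E.L t →ₗ[k] (O ⧸ b) := (b.mkQ.restrictScalars k).comp (E.L t).subtype
    have h1 := LinearMap.finrank_range_add_finrank_ker φ
    have h2 : finrank k (LinearMap.range φ) ≤ cod k b := Submodule.finrank_le _
    have h3 : finrank k (LinearMap.ker φ) = finrank k (E.cap b t) := by
      have e1 : (LinearMap.ker φ).map (E.L t).subtype = E.cap b t := by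
        ext x
        rw [Submodule.mem_map, E.mem_cap]
        constructor
        · rintro ⟨y, hy, rfl⟩
          rw [LinearMap.mem_ker] at hy
          refine ⟨?_, y.2⟩
          have hy' : b.mkQ (y : O) = 0 := hy
          rwa [Submodule.mkQ_apply, Submodule.Quotient.mk_eq_zero] at hy'
        · rintro ⟨hx, hxt⟩
          refine ⟨⟨x, hxt⟩, ?_, rfl⟩
          rw [LinearMap.mem_ker]
          show b.mkQ x = 0
          rwa [Submodule.mkQ_apply, Submodule.Quotient.mk_eq_zero]
      rw [← e1]
      exact (Submodule.equivMapOfInjective _ (E.L t).subtype_injective (LinearMap.ker φ)).finrank_eq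
    rw [finrank_L E (by omega : 1 ≤ t)] at h1
    omega

end dedekind

/-- dimensions of truncated ideals -/
theorem t_RR : StmtRR := by
  intro k O _ _ _ _ E
  exact ⟨fd_L E, finrank_L0 E, fun t ht => finrank_L E ht, fun b c hb hc => cod_mul E hb hc,
    fun b f hf hf0 => cod_le_deg E hf hf0, fun b t hb ht => cap_finrank E hb ht⟩

end Pool.Agent.NH60.SS
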