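import Pool.Agent.NH60.SS.Stmts

/-!
# Coordinates on a quotient of the ring of power series in three variables
-/

set_option autoImplicit false
set_option linter.unusedSectionVars false

namespace Pool.Agent.NH60.SS

open Finset Module MvPolynomial

namespace Ser

variable {k O : Type} [Field k] [CommRing O] [IsDomain O] [Algebra k O]
  {w : Fin 3 → ℕ}

/-- the exponents of weight `n` -/
noncomputable def Sx (hw : ∀ i, 1 ≤ w i) (n : ℕ) : Finset (Fin 3 →₀ ℕ) :=
  (Finsupp.finite_of_nat_weight_eq w (fun i => by have := hw i; omega) n).toFinset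

theorem mem_Sx {hw : ∀ i, 1 ≤ w i} {n : ℕ} {m : Fin 3 →₀ ℕ} :
    m ∈ Sx hw n ↔ Finsupp.weight w m = n := by
  unfold Sx
  rw [Set.Finite.mem_toFinset]
  rfl

/-- the value of a monomial -/
noncomputable def mo (ξ : Fin 3 → O) (m : Fin 3 →₀ ℕ) : O := ∏ i, ξ i ^ m i

theorem mo_add (ξ : Fin 3 → O) (a b : Fin 3 →₀ ℕ) : mo ξ (a + b) = mo ξ a * mo ξ b := by
  unfold mo
  rw [← Finset.prod_mul_distrib]
  exact Finset.prod_congr rfl fun i _ => by rw [Finsupp.add_apply, pow_add]

theorem mo_zero (ξ : Fin 3 → O) : mo ξ 0 = 1 := by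
  unfold mo
  exact Finset.prod_eq_one fun i _ => by rw [Finsupp.zero_apply, pow_zero]

/-- the component of weight `n` of a power series, evaluated at `ξ` -/
noncomputable def ev (hw : ∀ i, 1 ≤ w i) (ξ : Fin 3 → O) (n : ℕ) :
    MvPowerSeries (Fin 3) k →ₗ[k] O where
  toFun F := ∑ m ∈ Sx hw n, MvPowerSeries.coeff m F • mo ξ m
  map_add' F G := by
    rw [← Finset.sum_add_distrib]
    exact Finset.sum_congr rfl fun m _ => by rw [map_add, add_smul]
  map_smul' c F := by
    rw [RingHom.id_apply, Finset.smul_sum]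
    exact Finset.sum_congr rfl fun m _ => by rw [map_smul, smul_eq_mul, mul_smul]

theorem ev_apply (hw : ∀ i, 1 ≤ w i) (ξ : Fin 3 → O) (n : ℕ) (F : MvPowerSeries (Fin 3) k) :
    ev hw ξ n F = ∑ m ∈ Sx hw n, MvPowerSeries.coeff m F • mo ξ m := rfl

theorem ev_mul (hw : ∀ i, 1 ≤ w i) (ξ : Fin 3 → O) (n : ℕ) (F G : MvPowerSeries (Fin 3) k) :
    ev hw ξ n (F * G) = ∑ p ∈ antidiagonal n, ev hw ξ p.1 F * ev hw ξ p.2 G := by
  classical
  let φ : (Fin 3 →₀ ℕ) × (Fin 3 →₀ ℕ) → O := fun p =>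
    (MvPowerSeries.coeff p.1 F • mo ξ p.1) * (MvPowerSeries.coeff p.2 G • mo ξ p.2)
  have h1 : ev hw ξ n (F * G) = ∑ m ∈ Sx hw n, ∑ p ∈ antidiagonal m, φ p := by
    rw [ev_apply]
    refine Finset.sum_congr rfl fun m _ => ?_
    rw [MvPowerSeries.coeff_mul, Finset.sum_smul]
    refine Finset.sum_congr rfl fun p hp => ?_
    rw [← HasAntidiagonal.mem_antidiagonal.1 hp, mo_add]
    simp only [φ, Algebra.smul_def, map_mul]
    ring
  have h2 : ∑ p ∈ antidiagonal n, ev hw ξ p.1 F * ev hw ξ p.2 G =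
      ∑ q ∈ antidiagonal n, ∑ p ∈ Sx hw q.1 ×ˢ Sx hw q.2, φ p := by
    refine Finset.sum_congr rfl fun q _ => ?_
    rw [ev_apply, ev_apply, Finset.sum_mul_sum, Finset.sum_product]
  rw [h1, h2, Finset.sum_sigma', Finset.sum_sigma']
  refine Finset.sum_bij' (fun x _ => ⟨(Finsupp.weight w x.2.1, Finsupp.weight w x.2.2), x.2⟩)
    (fun x _ => ⟨x.2.1 + x.2.2, x.2⟩) ?_ ?_ ?_ ?_ ?_
  · rintro ⟨m, p⟩ hx
    rw [Finset.mem_sigma] at hx
    have h3 := mem_Sx.1 hx.1
    have h4 := HasAntidiagonal.mem_antidiagonal.1 hx.2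
    rw [Finset.mem_sigma, Finset.mem_product, mem_Sx, mem_Sx,
      HasAntidiagonal.mem_antidiagonal]
    refine ⟨?_, rfl, rfl⟩
    change Finsupp.weight w p.1 + Finsupp.weight w p.2 = n
    rw [← map_add, h4, h3]
  · rintro ⟨q, p⟩ hx
    rw [Finset.mem_sigma, Finset.mem_product, mem_Sx, mem_Sx,
      HasAntidiagonal.mem_antidiagonal] at hx
    rw [Finset.mem_sigma, mem_Sx, HasAntidiagonal.mem_antidiagonal]
    refine ⟨?_, rfl⟩
    change Finsupp.weight w (p.1 + p.2) = n
    have h3 : Finsupp.weight w p.1 = q.1 := hx.2.1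
    have h4 : Finsupp.weight w p.2 = q.2 := hx.2.2
    rw [map_add, h3, h4]
    exact hx.1
  · rintro ⟨m, p⟩ hx
    rw [Finset.mem_sigma] at hx
    have h4 := HasAntidiagonal.mem_antidiagonal.1 hx.2
    change (⟨p.1 + p.2, p⟩ : (_ : Fin 3 →₀ ℕ) × ((Fin 3 →₀ ℕ) × (Fin 3 →₀ ℕ))) = ⟨m, p⟩
    rw [h4]
  · rintro ⟨q, p⟩ hx
    rw [Finset.mem_sigma, Finset.mem_product, mem_Sx, mem_Sx,
      HasAntidiagonal.mem_antidiagonal] at hx
    have h3 := hx.2.1
    have h4 := hx.2.2
    change (⟨(Finsupp.weight w p.1, Finsupp.weight w p.2), p⟩ :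
      (_ : ℕ × ℕ) × ((Fin 3 →₀ ℕ) × (Fin 3 →₀ ℕ))) = ⟨q, p⟩
    rw [h3, h4]
  · rintro ⟨m, p⟩ _
    rfl

theorem aeval_eq (ξ : Fin 3 → O) (P : MvPolynomial (Fin 3) k) :
    aeval ξ P = ∑ m ∈ P.support, coeff m P • mo ξ m := by
  rw [aeval_def, eval₂_eq']
  exact Finset.sum_congr rfl fun m _ => by rw [Algebra.smul_def]; rfl

theorem ev_coe (hw : ∀ i, 1 ≤ w i) (ξ : Fin 3 → O) {n : ℕ} {P : MvPolynomial (Fin 3) k}
    (hP : IsWeightedHomogeneous w P n) : ev hw ξ n (P : MvPowerSeries (Fin 3) k) = aeval ξ P := by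
  rw [aeval_eq, ev_apply]
  symm
  refine Finset.sum_subset_zero_on_sdiff (fun m hm => mem_Sx.2 (hP (MvPolynomial.mem_support_iff.1 hm)))
    (fun m hm => ?_) fun m _ => by rw [coeff_coe]
  rw [Finset.mem_sdiff, MvPolynomial.mem_support_iff, not_not] at hm
  rw [coeff_coe, hm.2, zero_smul]

theorem ev_coe_ne (hw : ∀ i, 1 ≤ w i) (ξ : Fin 3 → O) {n n' : ℕ} {P : MvPolynomial (Fin 3) k}
    (hP : IsWeightedHomogeneous w P n') (hn : n ≠ n') :
    ev hw ξ n (P : MvPowerSeries (Fin 3) k) = 0 := by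
  rw [ev_apply]
  refine Finset.sum_eq_zero fun m hm => ?_
  rw [coeff_coe]
  by_cases h : coeff m P = 0
  · rw [h, zero_smul]
  · exact absurd ((mem_Sx.1 hm).symm.trans (hP h)) hn

theorem deg_one (E : Ell k O) : E.deg 1 = 0 := by
  have h1 := E.deg_algebraMap 1
  rwa [map_one] at h1

theorem deg_mul_le (E : Ell k O) (f g : O) : E.deg (f * g) ≤ E.deg f + E.deg g := by
  by_cases hf : f = 0
  · rw [hf, zero_mul, E.deg_zero]
    exact Nat.zero_le _
  by_cases hg : g = 0
  · rw [hg, mul_zero, E.deg_zero]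
    exact Nat.zero_le _
  exact (E.deg_mul f g hf hg).le

theorem deg_pow_le (E : Ell k O) (f : O) (n : ℕ) : E.deg (f ^ n) ≤ n * E.deg f := by
  induction n with
  | zero => rw [pow_zero, deg_one]; exact Nat.zero_le _
  | succ n ih =>
    rw [pow_succ, Nat.succ_mul]
    exact (deg_mul_le E _ _).trans (Nat.add_le_add_right ih _)

theorem mo_mem (E : Ell k O) {d : ℕ} {ξ : Fin 3 → O} (hξ : ∀ i, ξ i ∈ E.L (d * w i))
    (m : Fin 3 →₀ ℕ) : mo ξ m ∈ E.L (d * Finsupp.weight w m) := by
  rw [Ell.mem_L]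
  unfold mo
  rw [Fin.prod_univ_three, Finsupp.weight_eq_sum, Fin.sum_univ_three]
  have h1 : ∀ i, E.deg (ξ i ^ m i) ≤ m i * (d * w i) := fun i =>
    (deg_pow_le E _ _).trans (Nat.mul_le_mul_left _ (hξ i))
  refine (deg_mul_le E _ _).trans ?_
  have h2 := (deg_mul_le E (ξ 0 ^ m 0) (ξ 1 ^ m 1)).trans (Nat.add_le_add (h1 0) (h1 1))
  refine (Nat.add_le_add h2 (h1 2)).trans (le_of_eq ?_)
  simp only [smul_eq_mul]
  ring

theorem ev_mem (E : Ell k O) (hw : ∀ i, 1 ≤ w i) {d : ℕ} {ξ : Fin 3 → O}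
    (hξ : ∀ i, ξ i ∈ E.L (d * w i)) (n : ℕ) (F : MvPowerSeries (Fin 3) k) :
    ev hw ξ n F ∈ E.L (d * n) := by
  rw [ev_apply]
  refine Submodule.sum_mem _ fun m hm => Submodule.smul_mem _ _ ?_
  have h1 := mo_mem E hξ m
  rwa [mem_Sx.1 hm] at h1

/-- the number of the exponents of weight `n` -/
theorem card_Sx (hw : ∀ i, 1 ≤ w i) (n : ℕ) : (Sx hw n).card = cnt (w 0) (w 1) (w 2) n := by
  unfold cnt
  refine Finset.card_nbij' (fun m => (m 0, m 1, m 2))
    (fun p => Finsupp.equivFunOnFinite.symm ![p.1, p.2.1, p.2.2]) ?_ ?_ ?_ ?_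
  · intro m hm
    have h1 := mem_Sx.1 (Finset.mem_coe.1 hm)
    rw [Finsupp.weight_eq_sum, Fin.sum_univ_three] at h1
    simp only [smul_eq_mul] at h1
    have w0 := hw 0
    have w1 := hw 1
    have w2 := hw 2
    have a0 : m 0 ≤ m 0 * w 0 := Nat.le_mul_of_pos_right _ w0
    have a1 : m 1 ≤ m 1 * w 1 := Nat.le_mul_of_pos_right _ w1
    have a2 : m 2 ≤ m 2 * w 2 := Nat.le_mul_of_pos_right _ w2
    rw [Finset.mem_coe, Finset.mem_filter, Finset.mem_product, Finset.mem_product, mem_range,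
      mem_range, mem_range]
    refine ⟨⟨?_, ?_, ?_⟩, ?_⟩
    · change m 0 < n + 1
      omega
    · change m 1 < n + 1
      omega
    · change m 2 < n + 1
      omega
    · change w 0 * m 0 + w 1 * m 1 + w 2 * m 2 = n
      rw [← h1]
      ring
  · intro p hp
    rw [Finset.mem_coe, Finset.mem_filter] at hp
    rw [Finset.mem_coe, mem_Sx, Finsupp.weight_eq_sum, Fin.sum_univ_three]
    rw [← hp.2]
    simp only [smul_eq_mul, Finsupp.equivFunOnFinite_symm_apply_apply, Matrix.cons_val_zero,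
      Matrix.cons_val_one, Matrix.cons_val]
    ring
  · intro m _
    ext i
    fin_cases i <;> rfl
  · intro p _
    rfl

theorem finrank_W (hw : ∀ i, 1 ≤ w i) (n : ℕ) :
    FiniteDimensional k (weightedHomogeneousSubmodule k w n) ∧
    finrank k (weightedHomogeneousSubmodule k w n) = cnt (w 0) (w 1) (w 2) n := by
  have hfin := Finsupp.finite_of_nat_weight_eq w (fun i => by have := hw i; omega) n
  have := hfin.to_subtype
  have b := basisRestrictSupport k {d : Fin 3 →₀ ℕ | Finsupp.weight w d = n}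
  rw [weightedHomogeneousSubmodule_eq_finsupp_supported]
  refine ⟨Module.Finite.of_basis b, ?_⟩
  rw [← card_Sx hw n]
  have h1 := Module.finrank_eq_nat_card_basis b
  refine h1.trans ?_
  rw [Nat.card_coe_set_eq, Set.ncard_eq_toFinset_card _ hfin]
  rfl

section good

variable {E : Ell k O} {d : ℕ} {ξ : Fin 3 → O} {f : MvPolynomial (Fin 3) k} {h : ℕ}

/-- every element of degree at most `d n` is the value of a homogeneous polynomial -/
theorem exists_pol (hG : Good E d w ξ f h) (n : ℕ) : ∀ (m : ℕ) (g : O), E.deg g = m → m ≤ d * n →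
    ∃ P : MvPolynomial (Fin 3) k, IsWeightedHomogeneous w P n ∧ aeval ξ P = g := by
  intro m
  induction m using Nat.strong_induction_on with
  | _ m ih =>
    intro g hg hm
    have hm1 : m ≠ 1 := fun h1 => E.deg_ne_one g (hg.trans h1)
    obtain ⟨P, hP, hP0, hPm⟩ := hG.sur n m hm hm1
    rcases Nat.eq_zero_or_pos m with h0 | h0
    · subst h0
      obtain ⟨c, hc⟩ := E.deg_const g hg
      obtain ⟨c', hc'⟩ := E.deg_const _ hPm
      have hc0 : c' ≠ 0 := by
        intro h1
        rw [hc', h1, map_zero] at hP0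
        exact hP0 rfl
      refine ⟨C (c / c') * P, hP.C_mul _, ?_⟩
      rw [map_mul, aeval_C, hc', hc, ← map_mul, div_mul_cancel₀ _ hc0]
    · obtain ⟨c, hc⟩ := E.lead g (aeval ξ P) (hg.trans hPm.symm) (hg ▸ h0)
      obtain ⟨P', hP', he⟩ := ih _ (hg ▸ hc) (g - c • aeval ξ P) rfl
        (((hg ▸ hc : _ < m)).le.trans hm)
      refine ⟨P' + C c * P, hP'.add (hP.C_mul _), ?_⟩
      rw [map_add, map_mul, aeval_C, he, Algebra.smul_def]
      ring

/-- the evaluation on the homogeneous polynomials -/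
noncomputable def rho (w : Fin 3 → ℕ) (ξ : Fin 3 → O) (n : ℕ) :
    weightedHomogeneousSubmodule k w n →ₗ[k] O :=
  (aeval ξ : MvPolynomial (Fin 3) k →ₐ[k] O).toLinearMap.domRestrict
    (weightedHomogeneousSubmodule k w n)

theorem rho_apply (n : ℕ) (P : weightedHomogeneousSubmodule k w n) :
    rho w ξ n P = aeval ξ (P : MvPolynomial (Fin 3) k) := rfl

theorem range_rho (hG : Good E d w ξ f h) (n : ℕ) :
    LinearMap.range (rho (k := k) w ξ n) = E.L (d * n) := by
  ext g
  rw [LinearMap.mem_range]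
  constructor
  · rintro ⟨P, rfl⟩
    rw [rho_apply, ← ev_coe hG.w_pos ξ P.2]
    exact ev_mem E hG.w_pos hG.mem n _
  · intro hg
    obtain ⟨P, hP, he⟩ := exists_pol hG n _ g rfl hg
    exact ⟨⟨P, hP⟩, he⟩

theorem finrank_ker (hd : 1 ≤ d) (h1 : ∀ t, 1 ≤ t → finrank k (E.L t) = t)
    (hG : Good E d w ξ f h) {n : ℕ} (hn : 1 ≤ n) :
    finrank k (LinearMap.ker (rho (k := k) w ξ n)) =
      if h ≤ n then cnt (w 0) (w 1) (w 2) (n - h) else 0 := by
  have hW := finrank_W (k := k) hG.w_pos n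
  have := hW.1
  have h2 := LinearMap.finrank_range_add_finrank_ker (rho (k := k) w ξ n)
  rw [range_rho hG, hW.2, h1 _ (Nat.one_le_iff_ne_zero.2 (Nat.mul_ne_zero (by omega) (by omega))),
    hG.cnt n hn] at h2
  omega

theorem ker_small (hd : 1 ≤ d) (h1 : ∀ t, 1 ≤ t → finrank k (E.L t) = t)
    (hG : Good E d w ξ f h) {n : ℕ} (hn : n < h) {P : MvPolynomial (Fin 3) k}
    (hP : IsWeightedHomogeneous w P n) (h0 : aeval ξ P = 0) : P = 0 := by
  rcases Nat.eq_zero_or_pos n with hn0 | hn0
  · subst hn0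
    have h2 : P = C (coeff 0 P) := by
      ext m
      rw [coeff_C]
      split_ifs with hm
      · rw [← hm]
      · by_contra hne
        have h3 := hP hne
        rw [Finsupp.weight_eq_sum, Fin.sum_univ_three] at h3
        simp only [smul_eq_mul, Nat.add_eq_zero_iff, Nat.mul_eq_zero] at h3
        have w0 := hG.w_pos 0
        have w1 := hG.w_pos 1
        have w2 := hG.w_pos 2
        apply hm
        ext i
        rw [Finsupp.zero_apply]
        fin_cases i
        · change 0 = m 0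
          omega
        · change 0 = m 1
          omega
        · change 0 = m 2
          omega
    rw [h2, aeval_C, FaithfulSMul.algebraMap_eq_zero_iff] at h0
    rw [h2, h0, C_0]
  · have hW := finrank_W (k := k) hG.w_pos n
    have := hW.1
    have h2 := finrank_ker hd h1 hG hn0
    rw [if_neg (by omega)] at h2
    have h3 : LinearMap.ker (rho (k := k) w ξ n) = ⊥ := Submodule.finrank_eq_zero.1 h2
    have h4 : (⟨P, hP⟩ : weightedHomogeneousSubmodule k w n) ∈ LinearMap.ker (rho (k := k) w ξ n) :=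
      h0
    rw [h3, Submodule.mem_bot] at h4
    exact congrArg Subtype.val h4

theorem ker_div (hd : 1 ≤ d) (h1 : ∀ t, 1 ≤ t → finrank k (E.L t) = t)
    (hG : Good E d w ξ f h) (j : ℕ) {P : MvPolynomial (Fin 3) k}
    (hP : IsWeightedHomogeneous w P (j + h)) (h0 : aeval ξ P = 0) :
    ∃ Q : MvPolynomial (Fin 3) k, IsWeightedHomogeneous w Q j ∧ P = f * Q := by
  have hW := finrank_W (k := k) hG.w_pos (j + h)
  have := hW.1
  have hW' := finrank_W (k := k) hG.w_pos j
  have := hW'.1
  let μ : weightedHomogeneousSubmodule k w j →ₗ[k] weightedHomogeneousSubmodule k w (j + h) :=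
    { toFun := fun Q => ⟨f * Q, by
        have h2 := hG.hom.mul Q.2
        rw [add_comm] at h2
        exact h2⟩
      map_add' := fun Q Q' => Subtype.ext (mul_add _ _ _)
      map_smul' := fun c Q => Subtype.ext (by
        change f * (c • (Q : MvPolynomial (Fin 3) k)) = c • (f * (Q : MvPolynomial (Fin 3) k))
        rw [mul_smul_comm]) }
  have hμ : Function.Injective μ := by
    intro Q Q' hQ
    have h2 := congrArg Subtype.val hQ
    exact Subtype.ext (mul_left_cancel₀ hG.ne h2)
  have h2 := finrank_ker hd h1 hG (n := j + h) (by have := hG.h_pos; omega)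
  rw [if_pos (by omega), Nat.add_sub_cancel] at h2
  have h3 : LinearMap.range μ = LinearMap.ker (rho (k := k) w ξ (j + h)) := by
    apply Submodule.eq_of_le_of_finrank_eq
    · rintro _ ⟨Q, rfl⟩
      rw [LinearMap.mem_ker, rho_apply]
      change aeval ξ (f * (Q : MvPolynomial (Fin 3) k)) = 0
      rw [map_mul, hG.rel, zero_mul]
    · rw [LinearMap.finrank_range_of_inj hμ, hW'.2, h2]
  have h4 : (⟨P, hP⟩ : weightedHomogeneousSubmodule k w (j + h)) ∈
      LinearMap.ker (rho (k := k) w ξ (j + h)) := h0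
  rw [← h3] at h4
  obtain ⟨Q, hQ⟩ := h4
  exact ⟨Q, Q.2, (congrArg Subtype.val hQ).symm⟩

end good

/-- the component of weight `n` of a power series -/
noncomputable def comp (hw : ∀ i, 1 ≤ w i) (n : ℕ) (F : MvPowerSeries (Fin 3) k) :
    MvPolynomial (Fin 3) k := ∑ m ∈ Sx hw n, monomial m (MvPowerSeries.coeff m F)

theorem coeff_comp (hw : ∀ i, 1 ≤ w i) (n : ℕ) (F : MvPowerSeries (Fin 3) k) (m : Fin 3 →₀ ℕ) :
    coeff m (comp hw n F) = if Finsupp.weight w m = n then MvPowerSeries.coeff m F else 0 := by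
  classical
  unfold comp
  rw [coeff_sum]
  simp only [coeff_monomial]
  rw [Finset.sum_ite_eq']
  simp only [mem_Sx]

theorem comp_hom (hw : ∀ i, 1 ≤ w i) (n : ℕ) (F : MvPowerSeries (Fin 3) k) :
    IsWeightedHomogeneous w (comp hw n F) n := by
  intro m hm
  rw [coeff_comp] at hm
  by_contra hne
  exact hm (if_neg hne)

theorem aeval_comp (hw : ∀ i, 1 ≤ w i) (ξ : Fin 3 → O) (n : ℕ) (F : MvPowerSeries (Fin 3) k) :
    aeval ξ (comp hw n F) = ev hw ξ n F := by
  rw [← ev_coe hw ξ (comp_hom hw n F), ev_apply, ev_apply]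
  refine Finset.sum_congr rfl fun m hm => ?_
  rw [coeff_coe, coeff_comp, if_pos (mem_Sx.1 hm)]

/-- the power series with given components -/
noncomputable def glue (w : Fin 3 → ℕ) (P : ℕ → MvPolynomial (Fin 3) k) :
    MvPowerSeries (Fin 3) k := fun m => coeff m (P (Finsupp.weight w m))

theorem coeff_glue (P : ℕ → MvPolynomial (Fin 3) k) (m : Fin 3 →₀ ℕ) :
    MvPowerSeries.coeff m (glue w P) = coeff m (P (Finsupp.weight w m)) := rfl

theorem ev_glue (hw : ∀ i, 1 ≤ w i) (ξ : Fin 3 → O) (P : ℕ → MvPolynomial (Fin 3) k)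
    (hP : ∀ n, IsWeightedHomogeneous w (P n) n) (n : ℕ) :
    ev hw ξ n (glue w P) = aeval ξ (P n) := by
  rw [← ev_coe hw ξ (hP n), ev_apply, ev_apply]
  refine Finset.sum_congr rfl fun m hm => ?_
  rw [coeff_glue, coeff_coe, mem_Sx.1 hm]

section good

variable {E : Ell k O} {d : ℕ} {ξ : Fin 3 → O} {f : MvPolynomial (Fin 3) k} {h : ℕ}

/-- a power series all of whose components vanish at `ξ` is divisible by `f` -/
theorem exists_quot (hd : 1 ≤ d) (h1 : ∀ t, 1 ≤ t → finrank k (E.L t) = t)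
    (hG : Good E d w ξ f h) {F : MvPowerSeries (Fin 3) k} (hF : ∀ n, ev hG.w_pos ξ n F = 0) :
    ∃ Q : MvPowerSeries (Fin 3) k, F = (f : MvPowerSeries (Fin 3) k) * Q := by
  classical
  have h2 : ∀ j, ∃ Q : MvPolynomial (Fin 3) k, IsWeightedHomogeneous w Q j ∧
      comp hG.w_pos (j + h) F = f * Q := fun j =>
    ker_div hd h1 hG j (comp_hom _ _ _) (by rw [aeval_comp, hF])
  choose Q hQ hQF using h2
  refine ⟨glue w Q, ?_⟩
  ext m
  have h3 : MvPowerSeries.coeff m ((f : MvPowerSeries (Fin 3) k) * glue w Q) =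
      ∑ p ∈ antidiagonal m, coeff p.1 f * coeff p.2 (Q (Finsupp.weight w p.2)) := by
    rw [MvPowerSeries.coeff_mul]
    exact Finset.sum_congr rfl fun p _ => by rw [coeff_coe, coeff_glue]
  rw [h3]
  by_cases hm : h ≤ Finsupp.weight w m
  · have h4 : ∑ p ∈ antidiagonal m, coeff p.1 f * coeff p.2 (Q (Finsupp.weight w p.2)) =
        ∑ p ∈ antidiagonal m, coeff p.1 f * coeff p.2 (Q (Finsupp.weight w m - h)) := by
      refine Finset.sum_congr rfl fun p hp => ?_
      by_cases hp0 : coeff p.1 f = 0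
      · rw [hp0, zero_mul, zero_mul]
      · have h5 := hG.hom hp0
        have h6 := HasAntidiagonal.mem_antidiagonal.1 hp
        have h7 : Finsupp.weight w m = Finsupp.weight w p.1 + Finsupp.weight w p.2 := by
          rw [← h6, map_add]
        have h8 : Finsupp.weight w p.2 = Finsupp.weight w m - h := by omega
        rw [h8]
    rw [h4, ← coeff_mul, ← hQF, coeff_comp, if_pos (by omega)]
  · have h4 : ∑ p ∈ antidiagonal m, coeff p.1 f * coeff p.2 (Q (Finsupp.weight w p.2)) = 0 := by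
      refine Finset.sum_eq_zero fun p hp => ?_
      by_cases hp0 : coeff p.1 f = 0
      · rw [hp0, zero_mul]
      · exfalso
        have h5 := hG.hom hp0
        have h6 := HasAntidiagonal.mem_antidiagonal.1 hp
        have h7 : Finsupp.weight w m = Finsupp.weight w p.1 + Finsupp.weight w p.2 := by
          rw [← h6, map_add]
        omega
    rw [h4]
    have h5 := ker_small hd h1 hG (n := Finsupp.weight w m) (by omega)
      (comp_hom hG.w_pos (Finsupp.weight w m) F) (by rw [aeval_comp, hF])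
    have h6 := congrArg (coeff m) h5
    rwa [coeff_comp, if_pos rfl, coeff_zero] at h6

theorem ev_ideal (hG : Good E d w ξ f h) {F : MvPowerSeries (Fin 3) k}
    (hF : F ∈ Ideal.span {(f : MvPowerSeries (Fin 3) k)}) (n : ℕ) : ev hG.w_pos ξ n F = 0 := by
  obtain ⟨G, rfl⟩ := Ideal.mem_span_singleton'.1 hF
  rw [ev_mul]
  refine Finset.sum_eq_zero fun p _ => ?_
  by_cases hp : p.2 = h
  · rw [hp, ev_coe hG.w_pos ξ hG.hom, hG.rel, mul_zero]
  · rw [ev_coe_ne hG.w_pos ξ hG.hom hp, mul_zero]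

end good

/-- a power series whose monomials have degree at least `N` -/
theorem mem_pow (N : ℕ) : ∀ F : MvPowerSeries (Fin 3) k,
    (∀ m, MvPowerSeries.coeff m F ≠ 0 → N ≤ m 0 + m 1 + m 2) →
    F ∈ (Ideal.span (Set.range fun i : Fin 3 => (MvPowerSeries.X i : MvPowerSeries (Fin 3) k))) ^ N := by
  classical
  induction N with
  | zero =>
    intro F _
    rw [pow_zero, Ideal.one_eq_top]
    exact Submodule.mem_top
  | succ N ih =>
    intro F hF
    let G : Fin 3 → MvPowerSeries (Fin 3) k := fun i m =>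
      if ∀ j, j < i → m j = 0 then MvPowerSeries.coeff (m + Finsupp.single i 1) F else 0
    have hG : ∀ i m, MvPowerSeries.coeff m (G i) =
        if ∀ j, j < i → m j = 0 then MvPowerSeries.coeff (m + Finsupp.single i 1) F else 0 :=
      fun i m => rfl
    have hXG : ∀ i m, MvPowerSeries.coeff m (MvPowerSeries.X i * G i) =
        if m i = 0 then 0 else if ∀ j, j < i → m j = 0 then MvPowerSeries.coeff m F else 0 := by
      intro i m
      by_cases hmi : m i = 0
      · rw [if_pos hmi, MvPowerSeries.X_def, MvPowerSeries.coeff_monomial_mul, if_neg]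
        intro hle
        have := hle i
        rw [Finsupp.single_eq_same] at this
        omega
      · have hle : Finsupp.single i 1 ≤ m := by
          rw [Finsupp.single_le_iff]
          omega
        rw [if_neg hmi, MvPowerSeries.X_def, MvPowerSeries.coeff_monomial_mul, if_pos hle, one_mul,
          hG, tsub_add_cancel_of_le hle]
        have h1 : (∀ j, j < i → (m - Finsupp.single i 1 : Fin 3 →₀ ℕ) j = 0) ↔ ∀ j, j < i → m j = 0 := by
          refine forall_congr' fun j => forall_congr' fun hj => ?_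
          rw [Finsupp.tsub_apply, Finsupp.single_eq_of_ne (ne_of_lt hj), Nat.sub_zero]
        simp only [h1]
    have hFG : F = ∑ i, MvPowerSeries.X i * G i := by
      ext m
      rw [map_sum, Fin.sum_univ_three, hXG, hXG, hXG]
      have c0 : (∀ j : Fin 3, j < 0 → m j = 0) := fun j hj => absurd hj (Fin.not_lt_zero j)
      have c1 : (∀ j : Fin 3, j < 1 → m j = 0) ↔ m 0 = 0 := by
        constructor
        · intro h1
          exact h1 0 (by decide)
        · intro h1 j hj
          fin_cases j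
          · exact h1
          · exact absurd hj (by decide)
          · exact absurd hj (by decide)
      have c2 : (∀ j : Fin 3, j < 2 → m j = 0) ↔ m 0 = 0 ∧ m 1 = 0 := by
        constructor
        · intro h1
          exact ⟨h1 0 (by decide), h1 1 (by decide)⟩
        · intro h1 j hj
          fin_cases j
          · exact h1.1
          · exact h1.2
          · exact absurd hj (by decide)
      simp only [c1, c2, if_pos c0]
      by_cases m0 : m 0 = 0
      · by_cases m1 : m 1 = 0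
        · by_cases m2 : m 2 = 0
          · simp only [m0, m1, m2, if_true, add_zero]
            by_contra hne
            have := hF m hne
            omega
          · simp [m0, m1, m2]
        · simp [m0, m1]
      · simp [m0]
    rw [hFG, pow_succ']
    refine Ideal.sum_mem _ fun i _ => Ideal.mul_mem_mul (Ideal.subset_span ⟨i, rfl⟩) ?_
    apply ih
    intro m hm
    rw [hG] at hm
    have h1 : MvPowerSeries.coeff (m + Finsupp.single i 1) F ≠ 0 := by
      intro h2
      apply hm
      rw [h2, ite_self]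
    have h2 := hF _ h1
    have h3 : ∀ j, (m + Finsupp.single i 1 : Fin 3 →₀ ℕ) j = m j + if i = j then 1 else 0 := by
      intro j
      rw [Finsupp.add_apply, Finsupp.single_apply]
    rw [h3, h3, h3] at h2
    fin_cases i <;> simp at h2 <;> omega

/-- coordinates on the quotient -/
theorem exists_coord {E : Ell k O} {d : ℕ} {ξ : Fin 3 → O} {f : MvPolynomial (Fin 3) k} {h : ℕ}
    (hd : 1 ≤ d) (h1 : ∀ t, 1 ≤ t → finrank k (E.L t) = t) (hG : Good E d w ξ f h)
    (I : Ideal (MvPowerSeries (Fin 3) k))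
    (hI : I = Ideal.span {(f : MvPowerSeries (Fin 3) k)}) :
    ∃ Y : Coord1 E d (MvPowerSeries (Fin 3) k ⧸ I),
      ∀ N : ℕ, ∃ M : ℕ, ∀ u, (∀ n < M, Y.co n u = 0) →
        u ∈ (Ideal.span (Set.range fun i : Fin 3 => (Ideal.Quotient.mk I
          (MvPowerSeries.X i : MvPowerSeries (Fin 3) k)))) ^ N := by
  classical
  have hwd : ∀ n (F G : MvPowerSeries (Fin 3) k), Ideal.Quotient.mk I F = Ideal.Quotient.mk I G →
      ev hG.w_pos ξ n F = ev hG.w_pos ξ n G := by
    intro n F G hFG
    rw [← sub_eq_zero, ← map_sub]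
    apply ev_ideal hG
    rw [← hI]
    exact Ideal.Quotient.eq.1 hFG
  have hsurj : ∀ u : MvPowerSeries (Fin 3) k ⧸ I, ∃ F, Ideal.Quotient.mk I F = u :=
    Ideal.Quotient.mk_surjective
  choose r hr using hsurj
  have hr' : ∀ n F, ev hG.w_pos ξ n (r (Ideal.Quotient.mk I F)) = ev hG.w_pos ξ n F :=
    fun n F => hwd n _ _ (hr _)
  have hco : ∀ n u F, Ideal.Quotient.mk I F = u → ev hG.w_pos ξ n (r u) = ev hG.w_pos ξ n F := by
    rintro n _ F rfl
    exact hr' n F
  have hinj : ∀ F : MvPowerSeries (Fin 3) k, (∀ n, ev hG.w_pos ξ n F = 0) →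
      Ideal.Quotient.mk I F = 0 := by
    intro F hF
    obtain ⟨Q, hQ⟩ := exists_quot hd h1 hG hF
    rw [Ideal.Quotient.eq_zero_iff_mem, hI, hQ]
    exact Ideal.mul_mem_right _ _ (Ideal.subset_span rfl)
  have hsur : ∀ F : ℕ → O, (∀ n, F n ∈ E.L (d * n)) → ∃ P : ℕ → MvPolynomial (Fin 3) k,
      (∀ n, IsWeightedHomogeneous w (P n) n) ∧ (∀ n, F n = 0 → P n = 0) ∧
      ∀ n, ev hG.w_pos ξ n (glue w P) = F n := by
    intro F hF
    have h2 : ∀ n, ∃ P : MvPolynomial (Fin 3) k, IsWeightedHomogeneous w P n ∧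
        (F n = 0 → P = 0) ∧ aeval ξ P = F n := by
      intro n
      by_cases h0 : F n = 0
      · exact ⟨0, isWeightedHomogeneous_zero _ _ _, fun _ => rfl, by rw [map_zero, h0]⟩
      · obtain ⟨P, hP, he⟩ := exists_pol hG n _ (F n) rfl (hF n)
        exact ⟨P, hP, fun h => absurd h h0, he⟩
    choose P hP hP0 he using h2
    exact ⟨P, hP, hP0, fun n => by rw [ev_glue hG.w_pos ξ P hP, he]⟩
  let Y : Coord1 E d (MvPowerSeries (Fin 3) k ⧸ I) :=
    { co := fun n =>
        { toFun := fun u => ev hG.w_pos ξ n (r u)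
          map_add' := by
            intro u v
            rw [← map_add]
            exact hco n _ _ (by rw [map_add, hr, hr])
          map_smul' := by
            intro c u
            rw [RingHom.id_apply, ← map_smul]
            refine hco n _ _ ?_
            have h2 : Ideal.Quotient.mk I (c • r u) = c • Ideal.Quotient.mk I (r u) := rfl
            rw [h2, hr] }
      mem := fun n u => ev_mem E hG.w_pos hG.mem n _
      inj := by
        intro u hu
        rw [← hr u]
        exact hinj _ hu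
      surj := by
        intro F hF
        obtain ⟨P, _, _, he⟩ := hsur F hF
        exact ⟨Ideal.Quotient.mk I (glue w P), fun n => (hr' n _).trans (he n)⟩
      one := by
        intro n
        have h2 : ev hG.w_pos ξ n (r 1) = ev hG.w_pos ξ n ((1 : MvPolynomial (Fin 3) k) :
            MvPowerSeries (Fin 3) k) := hco n _ _ (by rw [MvPolynomial.coe_one, map_one])
        change ev hG.w_pos ξ n (r 1) = _
        rw [h2]
        split_ifs with hn
        · subst hn
          rw [ev_coe hG.w_pos ξ (isWeightedHomogeneous_one _ _), map_one]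
        · exact ev_coe_ne hG.w_pos ξ (isWeightedHomogeneous_one _ _) hn
      mul := by
        intro n u v
        have h2 : ev hG.w_pos ξ n (r (u * v)) = ev hG.w_pos ξ n (r u * r v) :=
          hco n _ _ (by rw [map_mul, hr, hr])
        exact h2.trans (ev_mul hG.w_pos ξ n _ _) }
  refine ⟨Y, fun N => ⟨N * (w 0 + w 1 + w 2), fun u hu => ?_⟩⟩
  obtain ⟨P, hP, hP0, he⟩ := hsur (fun n => Y.co n u) (fun n => Y.mem n u)
  have h2 : Ideal.Quotient.mk I (glue w P) = u := by
    rw [← sub_eq_zero]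
    apply Y.inj
    intro n
    rw [map_sub, sub_eq_zero]
    exact (hr' n _).trans (he n)
  have h3 := mem_pow N (glue w P) (by
    intro m hm
    rw [coeff_glue] at hm
    by_contra hlt
    push Not at hlt
    apply hm
    have h4 : Finsupp.weight w m < N * (w 0 + w 1 + w 2) := by
      rw [Finsupp.weight_eq_sum, Fin.sum_univ_three]
      simp only [smul_eq_mul]
      have w0 := hG.w_pos 0
      have w1 := hG.w_pos 1
      have w2 := hG.w_pos 2
      have a0 : m 0 * w 0 ≤ m 0 * (w 0 + w 1 + w 2) := Nat.mul_le_mul_left _ (by omega)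
      have a1 : m 1 * w 1 ≤ m 1 * (w 0 + w 1 + w 2) := Nat.mul_le_mul_left _ (by omega)
      have a2 : m 2 * w 2 ≤ m 2 * (w 0 + w 1 + w 2) := Nat.mul_le_mul_left _ (by omega)
      have a3 : (m 0 + m 1 + m 2) * (w 0 + w 1 + w 2) < N * (w 0 + w 1 + w 2) :=
        Nat.mul_lt_mul_of_pos_right hlt (by omega)
      have a4 : (m 0 + m 1 + m 2) * (w 0 + w 1 + w 2) = m 0 * (w 0 + w 1 + w 2) +
        m 1 * (w 0 + w 1 + w 2) + m 2 * (w 0 + w 1 + w 2) := by ring
      omega
    rw [hP0 _ (hu _ h4), coeff_zero])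
  have h4 := Ideal.mem_map_of_mem (Ideal.Quotient.mk I) h3
  rw [Ideal.map_pow, Ideal.map_span, ← Set.range_comp, h2] at h4
  exact h4

end Ser

/-- **Coordinates** on the quotient of the ring of power series by a good equation. -/
theorem t_Ser : StmtSer := by
  intro k O _ _ _ _ E d w ξ f h hd _ _ h1 hG
  exact Ser.exists_coord hd h1 hG _ rfl

end Pool.Agent.NH60.SS
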