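import Pool.Agent.NH60.SS.LMone
import Pool.Agent.NH60.SS.Alg
import Pool.Agent.NH60.SS.Curve
import Pool.Agent.NH60.SS.RR
import Pool.Agent.NH60.SS.Pencil
import Pool.Agent.NH60.SS.Mu
import Pool.Agent.NH60.SS.Len
import Pool.Agent.NH60.SS.Ser
import Pool.Agent.NH60.SS.Fams

/-!
# Semistability of the simple elliptic singularities
-/

set_option autoImplicit false

namespace Pool.Agent.NH60.SS.Z

open Finset Module IsLocalRing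
open Pool.Agent.X272.LMBase

theorem mods : Mods := ⟨t_RR, t_Pencil t_RR, t_Mu t_RR, t_Len⟩

/-- the quotient ring of a polynomial -/
abbrev Rp (f : MvPolynomial (Fin 3) ℂ) : Type :=
  MvPowerSeries (Fin 3) ℂ ⧸ Ideal.span {(f : MvPowerSeries (Fin 3) ℂ)}

/-- A good equation gives a semistable ring. -/
theorem semi_of_good (hC : StmtComb) {O : Type} [CommRing O] [IsDedekindDomain O] [Algebra ℂ O]
    {E : Ell ℂ O} {d : ℕ} {w : Fin 3 → ℕ} {ξ : Fin 3 → O} {f : MvPolynomial (Fin 3) ℂ} {h : ℕ}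
    (hd : 1 ≤ d) (hd3 : d ≤ 3) (hg : Good E d w ξ f h)
    (hc : MvPowerSeries.constantCoeff (f : MvPowerSeries (Fin 3) ℂ) = 0) :
    ∃ _ : IsLocalRing (PowerSeries (Rp f)), LM (PowerSeries (Rp f)) = 1 := by
  have hRR := t_RR ℂ O E
  obtain ⟨Y, hY⟩ := t_Ser ℂ O E d w ξ f h hd hRR.1 hRR.2.1 hRR.2.2.1 hg
  have h0 : (f : MvPowerSeries (Fin 3) ℂ) ≠ 0 := by
    intro h0
    exact hg.ne (MvPolynomial.coe_eq_zero_iff.1 h0)
  haveI : IsLocalRing (Rp f) := local_Rf hc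
  refine ⟨inferInstance, ?_⟩
  refine LM_eq_one (psC Y) mods hC hd hd3 (dimN_A hc h0) (box_le Y fun N => ?_) (res_A hc)
  obtain ⟨M, hM⟩ := hY N
  exact ⟨M, fun u hu => Ideal.pow_right_mono (span_X_le hc) N (hM u hu)⟩

theorem cc_J (lam : ℂ) : MvPowerSeries.constantCoeff (fJ lam : MvPowerSeries (Fin 3) ℂ) = 0 := by
  simp [fJ]

theorem cc_X (lam : ℂ) : MvPowerSeries.constantCoeff (fX lam : MvPowerSeries (Fin 3) ℂ) = 0 := by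
  simp [fX]

theorem cc_T (lam : ℂ) : MvPowerSeries.constantCoeff (fT lam : MvPowerSeries (Fin 3) ℂ) = 0 := by
  simp [fT]

theorem semi_J (hC : StmtComb) (lam : ℂ) (hl : lam ^ 6 ≠ 432) :
    ∃ _ : IsLocalRing (PowerSeries (Rp (fJ lam))), LM (PowerSeries (Rp (fJ lam))) = 1 := by
  obtain ⟨O, i1, i2, i3, E, x, y, hx, hy, hxy⟩ := exists_curve (lam ^ 2 / 4) 0 (-1) (by
    intro h0
    apply hl
    linear_combination 16 * h0)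
  exact semi_of_good hC (by norm_num) (by norm_num) (t_FamJ O E x y lam hx hy hxy) (cc_J lam)

theorem semi_T (hC : StmtComb) (lam : ℂ) (hl : lam ^ 3 ≠ -27) :
    ∃ _ : IsLocalRing (PowerSeries (Rp (fT lam))), LM (PowerSeries (Rp (fT lam))) = 1 := by
  set e : ℂ := -4 * (27 + lam ^ 3) / 27 with he
  have he' : 27 * e = -4 * (27 + lam ^ 3) := by
    rw [he]
    ring
  have he0 : e ≠ 0 := by
    intro h0
    apply hl
    rw [h0] at he'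
    linear_combination (1 / 4 : ℂ) * he'
  obtain ⟨O, i1, i2, i3, E, x, y, hx, hy, hxy⟩ := exists_curve (-lam ^ 2 / 3) (-2 * e * lam / 9)
    (-e ^ 2 / 27) (by
    intro h0
    have h1 : e ^ 3 = 0 := by
      linear_combination (27 / 4 : ℂ) * h0 + (e ^ 3 / 108) * he'
    exact he0 (pow_eq_zero_iff (by norm_num) |>.1 h1))
  exact semi_of_good hC (by norm_num) (by norm_num) (t_FamT O E x y lam e he' he0 hx hy hxy)
    (cc_T lam)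

theorem semi_X (hC : StmtComb) (lam : ℂ) (hl : lam ^ 4 ≠ 64) :
    ∃ _ : IsLocalRing (PowerSeries (Rp (fX lam))), LM (PowerSeries (Rp (fX lam))) = 1 := by
  obtain ⟨s, hs⟩ := IsAlgClosed.exists_eq_mul_self (lam ^ 4 / 16 - 4)
  obtain ⟨ρ, hρ⟩ := IsAlgClosed.exists_eq_mul_self ((lam ^ 2 / 4 + s) / 2)
  have h1 : lam ^ 2 * ρ ^ 2 / 4 - ρ ^ 4 - 1 = 0 := by
    have e1 : ρ ^ 2 = (lam ^ 2 / 4 + s) / 2 := by rw [hρ]; ring
    have e2 : ρ ^ 4 = ((lam ^ 2 / 4 + s) / 2) ^ 2 := by rw [← e1]; ring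
    rw [e1, e2]
    linear_combination (1 / 4 : ℂ) * hs
  have hρ0 : ρ ≠ 0 := by
    rintro rfl
    norm_num at h1
  have hρ4 : ρ ^ 4 ≠ 1 := by
    intro h4
    apply hl
    have h5 : lam ^ 2 * ρ ^ 2 = 8 := by linear_combination 4 * h1 + 4 * h4
    have h6 : lam ^ 4 * ρ ^ 4 = 64 := by
      have : lam ^ 4 * ρ ^ 4 = (lam ^ 2 * ρ ^ 2) ^ 2 := by ring
      rw [this, h5]
      norm_num
    rw [h4, mul_one] at h6
    exact h6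
  have hD : lam ^ 2 * ρ / 2 - 4 * ρ ^ 3 ≠ 0 := by
    intro h2
    apply hρ4
    have h3 : ρ * (lam ^ 2 * ρ / 2 - 4 * ρ ^ 3) = 2 - 2 * ρ ^ 4 := by
      linear_combination 2 * h1
    rw [h2, mul_zero] at h3
    linear_combination (1 / 2 : ℂ) * h3
  set e : ℂ := 1 / (lam ^ 2 * ρ / 2 - 4 * ρ ^ 3) with he
  have he' : e * (lam ^ 2 * ρ / 2 - 4 * ρ ^ 3) = 1 := by
    rw [he]
    exact one_div_mul_cancel hD
  have he0 : e ≠ 0 := by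
    intro h0
    rw [h0, zero_mul] at he'
    exact zero_ne_one he'
  obtain ⟨O, i1, i2, i3, E, x, y, hx, hy, hxy⟩ := exists_curve
    (-6 * ρ ^ 2 * e ^ 2 + lam ^ 2 * e ^ 2 / 4) (-4 * ρ * e ^ 3) (-e ^ 4) (by
    intro h0
    -- the discriminant is `e ^ 10 * 4 * (1 - ρ ^ 4) ^ 2 / ρ ^ 6`
    have hL : lam ^ 2 * ρ ^ 2 = 4 * (1 + ρ ^ 4) := by linear_combination 4 * h1
    have hE : e * (2 - 2 * ρ ^ 4) = ρ := by
      have h3 : ρ * (lam ^ 2 * ρ / 2 - 4 * ρ ^ 3) = 2 - 2 * ρ ^ 4 := by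
        linear_combination 2 * h1
      rw [← h3]
      linear_combination ρ * he'
    have hA : (-6 * ρ ^ 2 * e ^ 2 + lam ^ 2 * e ^ 2 / 4) * ρ ^ 2 = e ^ 2 * (1 - 5 * ρ ^ 4) := by
      linear_combination (e ^ 2 / 4) * hL
    set A := (-6 * ρ ^ 2 * e ^ 2 + lam ^ 2 * e ^ 2 / 4) with hAd
    have h5 : ρ ^ 6 * (A ^ 2 * (-4 * ρ * e ^ 3) ^ 2 - 4 * (-4 * ρ * e ^ 3) ^ 3 -
        4 * A ^ 3 * (-e ^ 4) - 27 * (-e ^ 4) ^ 2 + 18 * A * (-4 * ρ * e ^ 3) * (-e ^ 4)) =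
        4 * e ^ 10 * (1 - ρ ^ 4) ^ 2 := by
      have hρe : ρ = e * (2 - 2 * ρ ^ 4) := hE.symm
      have k1 : ρ ^ 6 * (A ^ 2 * (-4 * ρ * e ^ 3) ^ 2) =
          16 * e ^ 6 * ρ ^ 4 * (A * ρ ^ 2) ^ 2 := by ring
      have k2 : ρ ^ 6 * (4 * (-4 * ρ * e ^ 3) ^ 3) = -256 * ρ ^ 9 * e ^ 9 := by ring
      have k3 : ρ ^ 6 * (4 * A ^ 3 * (-e ^ 4)) = -4 * e ^ 4 * (A * ρ ^ 2) ^ 3 := by ring
      have k4 : ρ ^ 6 * (27 * (-e ^ 4) ^ 2) = 27 * e ^ 8 * ρ ^ 6 := by ring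
      have k5 : ρ ^ 6 * (18 * A * (-4 * ρ * e ^ 3) * (-e ^ 4)) =
          72 * e ^ 7 * ρ ^ 5 * (A * ρ ^ 2) := by ring
      have k6 : 256 * ρ ^ 9 * e ^ 9 = 256 * ρ ^ 8 * e ^ 10 * (2 - 2 * ρ ^ 4) := by
        linear_combination (-256 * ρ ^ 8 * e ^ 9) * hE
      have k7 : 27 * e ^ 8 * ρ ^ 6 = 27 * e ^ 10 * ρ ^ 4 * (2 - 2 * ρ ^ 4) ^ 2 := by
        linear_combination (-27 * e ^ 8 * ρ ^ 4) * (ρ + e * (2 - 2 * ρ ^ 4)) * hE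
      have k8 : 72 * e ^ 7 * ρ ^ 5 * (e ^ 2 * (1 - 5 * ρ ^ 4)) =
          72 * e ^ 10 * ρ ^ 4 * (2 - 2 * ρ ^ 4) * (1 - 5 * ρ ^ 4) := by
        linear_combination (-72 * e ^ 9 * ρ ^ 4 * (1 - 5 * ρ ^ 4)) * hE
      have k9 : ρ ^ 6 * (A ^ 2 * (-4 * ρ * e ^ 3) ^ 2 - 4 * (-4 * ρ * e ^ 3) ^ 3 -
        4 * A ^ 3 * (-e ^ 4) - 27 * (-e ^ 4) ^ 2 + 18 * A * (-4 * ρ * e ^ 3) * (-e ^ 4)) =
        16 * e ^ 6 * ρ ^ 4 * (A * ρ ^ 2) ^ 2 + 256 * ρ ^ 9 * e ^ 9 + 4 * e ^ 4 * (A * ρ ^ 2) ^ 3 -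
        27 * e ^ 8 * ρ ^ 6 + 72 * e ^ 7 * ρ ^ 5 * (A * ρ ^ 2) := by
        linear_combination k1 - k2 - k3 - k4 + k5
      rw [k9, hA, k6, k7, k8]
      ring
    rw [h0, mul_zero] at h5
    have h6 : (1 - ρ ^ 4) ≠ 0 := sub_ne_zero.2 (Ne.symm hρ4)
    have h7 : 4 * e ^ 10 * (1 - ρ ^ 4) ^ 2 ≠ 0 :=
      mul_ne_zero (mul_ne_zero (by norm_num) (pow_ne_zero _ he0)) (pow_ne_zero _ h6)
    exact h7 h5.symm)
  exact semi_of_good hC (by norm_num) (by norm_num) (t_FamX O E x y lam ρ e h1 he' hx hy hxy)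
    (cc_X lam)

end Pool.Agent.NH60.SS.Z
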