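import Pool.Agent.NH60.SS.Bound

/-!
# The costs of the places of the cone
-/

set_option autoImplicit false

namespace Pool.Agent.NH60.SS.Z

open Finset Module
open scoped Classical

theorem card_mono {P : ℕ → Prop} {M : ℕ} (hP : ∀ a b, a ≤ b → P a → P b) (hM : P M) :
    ((range M).filter fun κ => ¬ P κ).card ≤ M ∧ P ((range M).filter fun κ => ¬ P κ).card := by
  refine ⟨(card_filter_le _ _).trans (by rw [card_range]), ?_⟩
  have hex : ∃ a, P a := ⟨M, hM⟩
  have h1 : Nat.find hex ≤ M := Nat.find_min' hex hM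
  have h2 : ((range M).filter fun κ => ¬ P κ) = range (Nat.find hex) := by
    ext a
    rw [mem_filter, mem_range, mem_range]
    constructor
    · rintro ⟨_, h⟩
      by_contra hcon
      exact h (hP _ _ (not_lt.1 hcon) (Nat.find_spec hex))
    · intro h
      exact ⟨by omega, Nat.find_min hex h⟩
  rw [h2, card_range]
  exact Nat.find_spec hex

section

variable {k O : Type} [Field k] [Infinite k] [CommRing O] [IsDedekindDomain O] [Algebra k O]
  {E : Ell k O} {d : ℕ} {A : Type} [CommRing A] [Algebra k A] (X : Coord E d A)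

/-- the number of places of a row which are not yet hit -/
noncomputable def tau (I : Ideal A) (M n j : ℕ) : ℕ :=
  ((range M).filter fun κ => ¬ Hit X I n j κ).card

theorem tau_le (I : Ideal A) (M n j : ℕ) : tau X I M n j ≤ M :=
  (card_filter_le _ _).trans (by rw [card_range])

theorem hit_tau (hM : Mods) {I : Ideal A} {M : ℕ} (h : X.Box M ≤ I) {n j : ℕ}
    (hj : d * n = 1 → 1 ≤ j) : Hit X I n j (tau X I M n j) :=
  (card_mono (P := Hit X I n j) (fun _ _ hab => hit_mono X hM I n le_rfl hab)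
    (hit_full X hM h (Or.inr le_rfl) j hj)).2

theorem tau_anti (hM : Mods) (I : Ideal A) (M n : ℕ) {j j' : ℕ} (hj : j ≤ j') :
    tau X I M n j' ≤ tau X I M n j := by
  apply card_le_card
  intro κ hκ
  rw [mem_filter] at hκ ⊢
  exact ⟨hκ.1, fun h => hκ.2 (hit_mono X hM I n hj le_rfl h)⟩

theorem tau_far (hM : Mods) (hd : 1 ≤ d) {I : Ideal A} {M : ℕ} (hM2 : 2 ≤ M) (h : X.Box M ≤ I)
    {n : ℕ} (hn : M ≤ n) (j : ℕ) : tau X I M n j = 0 := by
  unfold tau
  rw [card_eq_zero, filter_eq_empty_iff]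
  intro κ _
  rw [not_not]
  refine hit_full X hM h (Or.inl hn) j fun h1 => ?_
  have : 1 * 2 ≤ d * n := Nat.mul_le_mul hd (by omega)
  omega

theorem row_le (hM : Mods) (hd : 1 ≤ d) (I : Ideal A) (M n : ℕ) :
    ∑ j ∈ Jn d n, tau X I M n j ≤
      ∑ κ ∈ range M, (finrank k (E.L (d * n)) - finrank k (X.V I n κ)) := by
  refine le_trans ?_ (sum_le_sum fun κ _ => row_place X hM hd I n κ)
  unfold tau
  simp only [card_filter]
  rw [sum_comm]

/-- the finite set of places -/
noncomputable def pool (I : Ideal A) (M : ℕ) : Finset (ℕ × ℕ) :=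
  ((range (M + 1)) ×ˢ (range (M + 1))).filter fun p => X.V I p.1 p.2 ≠ ⊥

theorem pool_ne (I : Ideal A) (M : ℕ) : ∀ p ∈ pool X I M, X.V I p.1 p.2 ≠ ⊥ :=
  fun _ hp => (mem_filter.1 hp).2

theorem ach_hit {I : Ideal A} {M n j κ : ℕ} (hn : n ≤ M) (hκ : κ ≤ M) (h : Hit X I n j κ) :
    Ach X I (pool X I M) 1 n j κ := by
  have hp : ((n, κ) : ℕ × ℕ) ∈ pool X I M := by
    rw [pool, mem_filter, mem_product, mem_range, mem_range]
    exact ⟨⟨by omega, by omega⟩, h.1⟩
  exact ach_mono X I _ _ _ _ _ _ _ _ le_rfl h.2 le_rfl (ach_one X I hp)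

/-- the costs -/
noncomputable def gam (I : Ideal A) (M n j : ℕ) : ℝ :=
  if d * n = 1 ∧ j = 0 then tau X I M 0 0
  else if j + 1 = d * n then
    (tau X I M n 0 + (d * n - 1 : ℝ) * tau X I M n (d * n)) / (d * n)
  else tau X I M n j

theorem gam_nonneg (I : Ideal A) (M n j : ℕ) : 0 ≤ gam X I M n j := by
  unfold gam
  split_ifs with h1 h2
  · exact Nat.cast_nonneg _
  · have h3 : (1 : ℝ) ≤ (d : ℝ) * n := by
      have : 1 ≤ d * n := by omega
      exact_mod_cast this
    have h4 : (0 : ℝ) ≤ d * n - 1 := by linarith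
    positivity
  · exact Nat.cast_nonneg _

theorem gam_far (hM : Mods) (hd : 1 ≤ d) {I : Ideal A} {M : ℕ} (hM2 : 2 ≤ M) (h : X.Box M ≤ I)
    {n : ℕ} (hn : M ≤ n) (j : ℕ) : gam X I M n j = 0 := by
  have h2 : 1 * 2 ≤ d * n := Nat.mul_le_mul hd (by omega)
  unfold gam
  rw [if_neg (by omega), tau_far X hM hd hM2 h hn, tau_far X hM hd hM2 h hn,
    tau_far X hM hd hM2 h hn]
  split_ifs <;> simp

theorem ach_far (hM : Mods) (hd : 1 ≤ d) {I : Ideal A} {M : ℕ} (hM2 : 2 ≤ M) (h : X.Box M ≤ I) :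
    Ach X I (pool X I M) 1 M 0 0 := by
  refine ach_hit X le_rfl (Nat.zero_le _) (hit_full X hM h (Or.inl le_rfl) 0 fun h1 => ?_)
  have : 1 * 2 ≤ d * M := Nat.mul_le_mul hd hM2
  omega

theorem ach_gam (hM : Mods) (hd : 1 ≤ d) {I : Ideal A} {M : ℕ} (hM2 : 2 ≤ M) (h : X.Box M ≤ I)
    (n j : ℕ) (hj : j ≤ d * n) (m κ : ℕ) (hκ : gam X I M n j * m + M ≤ κ) :
    Ach X I (pool X I M) m (m * n) (m * j) κ := by
  by_cases hn : M ≤ n
  · have h1 := ach_mul X I _ (ach_far X hM hd hM2 h) m
    rw [mul_one, mul_zero] at h1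
    exact ach_mono X I _ _ _ _ _ _ _ _ (Nat.mul_le_mul_left _ hn) (Nat.zero_le _)
      (Nat.zero_le _) h1
  have hn' : n ≤ M := by omega
  unfold gam at hκ
  split_ifs at hκ with h1 h2
  · -- the exceptional place
    have h3 := ach_mul X I _ (ach_hit X (Nat.zero_le _) (tau_le X I M 0 0)
      (hit_tau X hM h (n := 0) (j := 0) (by omega))) m
    rw [mul_one, mul_zero] at h3
    refine ach_mono X I _ _ _ _ _ _ _ _ (Nat.zero_le _) (Nat.zero_le _) ?_ h3
    have h4 : ((m * tau X I M 0 0 : ℕ) : ℝ) ≤ κ := by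
      push_cast
      have : (0 : ℝ) ≤ M := Nat.cast_nonneg _
      nlinarith
    exact_mod_cast h4
  · -- interpolation
    have hdn1 : d * n ≠ 1 := by
      intro h3
      exact h1 ⟨h3, by omega⟩
    have hdn : 2 ≤ d * n := by omega
    set D := d * n with hD
    obtain ⟨u, hu1, hu2, hu3⟩ : ∃ u : ℕ, u ≤ m ∧ m ≤ u * D ∧ u * D ≤ m + D := by
      refine ⟨(m + D - 1) / D, ?_, ?_, ?_⟩
      · rcases Nat.eq_zero_or_pos m with h0 | h0
        · subst h0
          rw [Nat.zero_add, Nat.div_eq_of_lt (by omega)]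
        · apply Nat.div_le_of_le_mul
          have : D * 1 + 1 * m ≤ D * m + 1 * 1 := by nlinarith
          have h3 : D + m ≤ D * m + 1 := by linarith
          omega
      · have h3 := Nat.div_add_mod (m + D - 1) D
        have h4 := Nat.mod_lt (m + D - 1) (show 0 < D by omega)
        rw [mul_comm] at h3
        omega
      · have h3 := Nat.div_mul_le_self (m + D - 1) D
        omega
    have hA := ach_mul X I _ (ach_hit X hn' (tau_le X I M n 0)
      (hit_tau X hM h (n := n) (j := 0) (by omega))) u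
    have hB := ach_mul X I _ (ach_hit X hn' (tau_le X I M n D)
      (hit_tau X hM h (n := n) (j := D) (by omega))) (m - u)
    have hC := ach_add X I _ _ _ _ _ _ _ _ _ hA hB
    rw [mul_one, mul_one, Nat.add_sub_cancel' hu1] at hC
    refine ach_mono X I _ _ _ _ _ _ _ _ ?_ ?_ ?_ hC
    · rw [← add_mul, Nat.add_sub_cancel' hu1]
    · have h3 : (m - u) * D = m * D - u * D := Nat.sub_mul _ _ _
      have h4 : m * D = m * j + m := by
        rw [← h2]
        ring
      omega
    · have ht := tau_anti X hM I M n (Nat.zero_le D)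
      have ht0 := tau_le X I M n 0
      have h5 : ((u * tau X I M n 0 + (m - u) * tau X I M n D : ℕ) : ℝ) ≤ κ := by
        refine le_trans ?_ hκ
        push_cast [Nat.cast_sub hu1]
        have c1 : (u : ℝ) * D ≤ m + D := by exact_mod_cast hu3
        have c2 : (tau X I M n D : ℝ) ≤ tau X I M n 0 := by exact_mod_cast ht
        have c3 : (tau X I M n 0 : ℝ) ≤ M := by exact_mod_cast ht0
        have c0 : (0 : ℝ) ≤ tau X I M n D := Nat.cast_nonneg _
        have c4 : (0 : ℝ) < D := by
          have : 0 < D := by omega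
          exact_mod_cast this
        have c5 : (d : ℝ) * n = D := by
          rw [hD]
          push_cast
          ring
        rw [c5]
        have c6 : (u : ℝ) ≤ m / D + 1 := by
          rw [← sub_le_iff_le_add, le_div_iff₀ c4]
          linarith
        have c7 : ((tau X I M n 0 : ℝ) + (D - 1) * tau X I M n D) / D * m =
            m * tau X I M n D + m / D * (tau X I M n 0 - tau X I M n D) := by
          field_simp
          ring
        rw [c7]
        have c8 : (u : ℝ) * (tau X I M n 0 - tau X I M n D) ≤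
            (m / D + 1) * (tau X I M n 0 - tau X I M n D) :=
          mul_le_mul_of_nonneg_right c6 (by linarith)
        nlinarith
      exact_mod_cast h5
  · have h3 := ach_mul X I _ (ach_hit X hn' (tau_le X I M n j)
      (hit_tau X hM h (n := n) (j := j) (fun h4 => by
        by_contra hcon
        exact h1 ⟨h4, by omega⟩))) m
    rw [mul_one] at h3
    refine ach_mono X I _ _ _ _ _ _ _ _ le_rfl le_rfl ?_ h3
    have h4 : ((m * tau X I M n j : ℕ) : ℝ) ≤ κ := by
      push_cast
      have : (0 : ℝ) ≤ M := Nat.cast_nonneg _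
      nlinarith
    exact_mod_cast h4

end

end Pool.Agent.NH60.SS.Z
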