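import Pool.Agent.NH60.SS.Tri
import Pool.Agent.X272.LMBase

/-!
# The Lech-Mumford constant of a ring with coordinates
-/

set_option autoImplicit false

namespace Pool.Agent.NH60.SS.Z

open Finset Module IsLocalRing Filter Topology
open Pool.Agent.X272.LMBase
open scoped ENNReal Nat

section

variable {k O : Type} [Field k] [Infinite k] [CommRing O] [IsDedekindDomain O] [Algebra k O]
  {E : Ell k O} {d : ℕ} {A : Type} [CommRing A] [Algebra k A] [IsNoetherianRing A] [IsLocalRing A]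
  (X : Coord E d A)

theorem len_eq_finrank (hres : ∀ b : A, ∃ a : k, b - algebraMap k A a ∈ maximalIdeal A)
    {I : Ideal A} (hI : I.radical = maximalIdeal A) [FiniteDimensional k (A ⧸ I)] :
    len I = ENNReal.ofReal (finrank k (A ⧸ I)) := by
  unfold len
  rw [← length_eq_of_res (A := k) hres (A ⧸ I) (isFiniteLength_quot hI), Module.length_eq_finrank]
  simp

include X in
theorem one_ne : (1 : A) ≠ 0 := by
  intro h
  have h1 := X.one 0 0
  rw [h, map_zero] at h1
  simp at h1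

theorem Tri_one_le : Tri X 1 ≤ maximalIdeal A := by
  intro x hx
  rw [mem_maximalIdeal, mem_nonunits_iff]
  intro hu
  obtain ⟨y, hy⟩ := hu.exists_right_inv
  have h1 := X.one 0 0
  rw [← hy, X.mul] at h1
  simp only [Finset.Nat.antidiagonal_zero, sum_singleton, and_self, if_true] at h1
  rw [hx 0 0 (by omega), zero_mul] at h1
  exact zero_ne_one h1

theorem max_le_Tri : maximalIdeal A ≤ Tri X 1 := by
  intro x hx n j h
  have hn : n = 0 := by omega
  have hj : j = 0 := by omega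
  subst hn
  subst hj
  have h1 := X.mem 0 0 x
  rw [Ell.mem_L, mul_zero, Nat.le_zero] at h1
  obtain ⟨c, hc⟩ := E.deg_const _ h1
  have h2 : X.co 0 0 (algebraMap k A c) = algebraMap k O c := by
    rw [Algebra.algebraMap_eq_smul_one, map_smul, X.one, if_pos ⟨rfl, rfl⟩,
      Algebra.algebraMap_eq_smul_one]
  have h3 : x - algebraMap k A c ∈ Tri X 1 := by
    intro n j h
    have hn : n = 0 := by omega
    have hj : j = 0 := by omega
    subst hn
    subst hj
    rw [map_sub, h2, hc, sub_self]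
  have h4 : algebraMap k A c ∈ maximalIdeal A := by
    have := sub_mem hx (Tri_one_le X h3)
    rwa [sub_sub_cancel] at this
  have h5 : c = 0 := by
    by_contra hc0
    rw [mem_maximalIdeal, mem_nonunits_iff] at h4
    exact h4 ((IsUnit.mk0 c hc0).map _)
  rw [hc, h5, map_zero]

theorem Tri_radical {a : ℕ} (ha : 1 ≤ a) : (Tri X a).radical = maximalIdeal A := by
  apply le_antisymm
  · have h1 : Tri X a ≤ maximalIdeal A := by
      refine le_trans ?_ (Tri_one_le X)
      intro x hx n j h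
      exact hx n j (by omega)
    exact ((maximalIdeal.isMaximal A).isPrime.radical_le_iff).2 h1
  · intro x hx
    refine ⟨a, ?_⟩
    have h1 := Tri_pow X 1 a
    rw [mul_one] at h1
    exact h1 (Ideal.pow_mem_pow (max_le_Tri X hx) a)

theorem exists_box (hbox : ∀ N, ∃ M, X.Box M ≤ maximalIdeal A ^ N) {I : Ideal A}
    (hI : I.radical = maximalIdeal A) : ∃ M, 2 ≤ M ∧ X.Box M ≤ I := by
  obtain ⟨N, hN⟩ := I.exists_radical_pow_le_of_fg (IsNoetherian.noetherian _)
  rw [hI] at hN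
  obtain ⟨M, hM⟩ := hbox N
  exact ⟨M + 2, by omega, (Box_anti X (by omega)).trans (hM.trans hN)⟩

theorem rad_pow {I : Ideal A} (hI : I.radical = maximalIdeal A) {m : ℕ} (hm : 1 ≤ m) :
    (I ^ m).radical = maximalIdeal A := by
  rw [Ideal.radical_pow I (by omega), hI]

/-- The upper bound for the multiplicity. -/
theorem mult_le (hM : Mods) (hC : StmtComb) (hd : 1 ≤ d) (hd3 : d ≤ 3) (hdim : dimN A = 3)
    (hbox : ∀ N, ∃ M, X.Box M ≤ maximalIdeal A ^ N)
    (hres : ∀ b : A, ∃ a : k, b - algebraMap k A a ∈ maximalIdeal A) {I : Ideal A}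
    (hI : I.radical = maximalIdeal A) : mult I ≤ ((dimN A)! : ℝ≥0∞) * len I := by
  obtain ⟨M, hM2, hM'⟩ := exists_box X hbox hI
  have hpow : ∀ m, ∃ N, X.Box N ≤ I ^ m := by
    intro m
    rcases Nat.eq_zero_or_pos m with h0 | h0
    · subst h0
      exact ⟨0, by rw [pow_zero, Ideal.one_eq_top]; exact le_top⟩
    · obtain ⟨N, _, hN⟩ := exists_box X hbox (rad_pow hI h0)
      exact ⟨N, hN⟩
  have hfin : ∀ J : Ideal A, J.radical = maximalIdeal A → FiniteDimensional k (A ⧸ J) := by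
    intro J hJ
    obtain ⟨N, _, hN⟩ := exists_box X hbox hJ
    exact ((hM.len k O A E d X (hM.rr k O E).1).2.2.2.2 J N hN).1
  obtain ⟨C, hCb⟩ := upper X hM hC hd hd3 hM2 hM' hpow
  haveI := hfin I hI
  rw [len_eq_finrank hres hI, hdim]
  set l : ℝ := (finrank k (A ⧸ I) : ℝ) with hl
  have hl0 : 0 ≤ l := Nat.cast_nonneg _
  have e6 : ((3 ! : ℕ) : ℝ≥0∞) = ENNReal.ofReal 6 := by
    rw [show (3 ! : ℕ) = 6 from rfl]
    simp
  rw [e6, ← ENNReal.ofReal_mul (by norm_num)]
  have hlim : Tendsto (fun m : ℕ => ENNReal.ofReal (6 * l + 6 * |C| / m)) atTop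
      (𝓝 (ENNReal.ofReal (6 * l))) := by
    apply ENNReal.tendsto_ofReal
    have h1 : Tendsto (fun m : ℕ => (6 * |C|) / (m : ℝ)) atTop (𝓝 0) :=
      tendsto_const_div_atTop_nhds_zero_nat _
    simpa using h1.const_add (6 * l)
  rw [← hlim.limsup_eq]
  unfold mult
  refine limsup_le_limsup ?_
  rw [EventuallyLE, eventually_atTop]
  refine ⟨1, fun m hm => ?_⟩
  haveI := hfin _ (rad_pow hI hm)
  have hm0 : (0 : ℝ) < m := by exact_mod_cast hm
  have hb := hCb m hm
  rw [len_eq_finrank hres (rad_pow hI hm), hdim, e6, ← ENNReal.ofReal_mul (by norm_num),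
    ← ENNReal.ofReal_natCast m, ← ENNReal.ofReal_pow hm0.le, ← ENNReal.ofReal_div_of_pos (by positivity)]
  apply ENNReal.ofReal_le_ofReal
  rw [div_le_iff₀ (by positivity)]
  have e1 : (6 * l + 6 * |C| / (m : ℝ)) * (m : ℝ) ^ 3 = 6 * l * (m : ℝ) ^ 3 +
      6 * |C| * (m : ℝ) ^ 2 := by
    field_simp
  rw [e1]
  have h2 : C * (m : ℝ) ^ 2 ≤ |C| * (m : ℝ) ^ 2 :=
    mul_le_mul_of_nonneg_right (le_abs_self C) (by positivity)
  linarith

theorem mult_Tri (hM : Mods) (hd : 1 ≤ d) (hd3 : d ≤ 3) (hdim : dimN A = 3)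
    (hres : ∀ b : A, ∃ a : k, b - algebraMap k A a ∈ maximalIdeal A) {a : ℕ} (ha : 1 ≤ a) :
    ENNReal.ofReal (d * (a : ℝ) ^ 3) ≤ mult (Tri X a) := by
  unfold mult
  apply le_limsup_of_frequently_le
  · apply Eventually.frequently
    rw [eventually_atTop]
    refine ⟨1, fun m hm => ?_⟩
    have hma : 1 ≤ m * a := Nat.mul_le_mul hm ha
    have h1 := len_mono (Tri_pow X a m)
    haveI : FiniteDimensional k (A ⧸ Tri X (m * a)) :=
      ((hM.len k O A E d X (hM.rr k O E).1).2.2.2.2 _ _ (Box_le_Tri X (m * a))).1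
    rw [len_eq_finrank hres (Tri_radical X hma)] at h1
    have hm0 : (0 : ℝ) < m := by exact_mod_cast hm
    have e6 : ((3 ! : ℕ) : ℝ≥0∞) = ENNReal.ofReal 6 := by
      rw [show (3 ! : ℕ) = 6 from rfl]
      simp
    have h2 : ENNReal.ofReal (d * (a : ℝ) ^ 3) ≤
        ((3 ! : ℕ) : ℝ≥0∞) * ENNReal.ofReal (finrank k (A ⧸ Tri X (m * a))) / (m : ℝ≥0∞) ^ 3 := by
      rw [e6, ← ENNReal.ofReal_mul (by norm_num), ← ENNReal.ofReal_natCast m,
        ← ENNReal.ofReal_pow hm0.le, ← ENNReal.ofReal_div_of_pos (by positivity)]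
      apply ENNReal.ofReal_le_ofReal
      rw [le_div_iff₀ (by positivity)]
      have h3 := finrank_Tri X hM hd (m * a)
      have h4 : (6 : ℝ) * finrank k (A ⧸ Tri X (m * a)) + d * (m * a) =
          6 * (m * a) + d * (m * a) ^ 3 := by exact_mod_cast h3
      have h5 : (d : ℝ) ≤ 3 := by exact_mod_cast hd3
      have h6 : (0 : ℝ) ≤ (m : ℝ) * a := by positivity
      nlinarith
    rw [hdim]
    refine h2.trans ?_
    exact ENNReal.div_le_div_right (mul_le_mul_right h1 _) _
  · isBoundedDefault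

/-- The Lech-Mumford constant is one. -/
theorem LM_eq_one (hM : Mods) (hC : StmtComb) (hd : 1 ≤ d) (hd3 : d ≤ 3) (hdim : dimN A = 3)
    (hbox : ∀ N, ∃ M, X.Box M ≤ maximalIdeal A ^ N)
    (hres : ∀ b : A, ∃ a : k, b - algebraMap k A a ∈ maximalIdeal A) : LM A = 1 := by
  apply le_antisymm
  · unfold LM
    refine iSup₂_le fun I hI => ?_
    exact ENNReal.div_le_of_le_mul (by
      rw [one_mul]
      exact mult_le X hM hC hd hd3 hdim hbox hres hI)
  · have hlim : Tendsto (fun a : ℕ => ENNReal.ofReal (1 - 6 / (a : ℝ))) atTop (𝓝 1) := by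
      rw [← ENNReal.ofReal_one]
      apply ENNReal.tendsto_ofReal
      have h1 : Tendsto (fun m : ℕ => (6 : ℝ) / (m : ℝ)) atTop (𝓝 0) :=
        tendsto_const_div_atTop_nhds_zero_nat _
      simpa using h1.const_sub 1
    refine le_of_tendsto hlim ?_
    rw [eventually_atTop]
    refine ⟨1, fun a ha => ?_⟩
    have hrad := Tri_radical X ha
    refine le_trans ?_ (le_iSup₂ (f := fun (I : Ideal A) (_ : I.radical = maximalIdeal A) =>
      mult I / (((dimN A)! : ℝ≥0∞) * len I)) (Tri X a) hrad)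
    haveI : FiniteDimensional k (A ⧸ Tri X a) :=
      ((hM.len k O A E d X (hM.rr k O E).1).2.2.2.2 _ _ (Box_le_Tri X a)).1
    have e6 : ((3 ! : ℕ) : ℝ≥0∞) = ENNReal.ofReal 6 := by
      rw [show (3 ! : ℕ) = 6 from rfl]
      simp
    have ha0 : (0 : ℝ) < a := by exact_mod_cast ha
    have ha1 : (1 : ℝ) ≤ a := by exact_mod_cast ha
    have h3 := finrank_Tri X hM hd a
    have h4 : (6 : ℝ) * finrank k (A ⧸ Tri X a) + d * a = 6 * a + d * (a : ℝ) ^ 3 := by
      exact_mod_cast h3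
    have h5 : (d : ℝ) ≤ 3 := by exact_mod_cast hd3
    have h5' : (1 : ℝ) ≤ d := by exact_mod_cast hd
    have hpos : (0 : ℝ) < 6 * finrank k (A ⧸ Tri X a) := by
      have : (0 : ℝ) ≤ d * (a : ℝ) ^ 3 := by positivity
      nlinarith
    refine le_trans ?_ (ENNReal.div_le_div_right (mult_Tri X hM hd hd3 hdim hres ha) _)
    rw [len_eq_finrank hres hrad, hdim, e6, ← ENNReal.ofReal_mul (by norm_num),
      ← ENNReal.ofReal_div_of_pos hpos]
    apply ENNReal.ofReal_le_ofReal
    rw [le_div_iff₀ hpos]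
    have h6 : (6 : ℝ) * finrank k (A ⧸ Tri X a) ≤ 6 * a + d * (a : ℝ) ^ 3 := by nlinarith
    rcases le_or_gt (1 - 6 / (a : ℝ)) 0 with h7 | h7
    · have : (0 : ℝ) ≤ d * (a : ℝ) ^ 3 := by positivity
      nlinarith
    · refine (mul_le_mul_of_nonneg_left h6 h7.le).trans ?_
      have e1 : (1 - 6 / (a : ℝ)) * (6 * a + d * (a : ℝ) ^ 3) =
          6 * a + d * (a : ℝ) ^ 3 - 36 - 6 * d * (a : ℝ) ^ 2 := by
        field_simp
        ring
      rw [e1]
      nlinarith

end

end Pool.Agent.NH60.SS.Z
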