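import Pool.Agent.NH60.SS.Gam

/-!
# The final inequality
-/

set_option autoImplicit false

namespace Pool.Agent.NH60.SS.Z

open Finset Module
open scoped Classical

theorem trap (f : ℕ → ℝ) (D : ℕ) :
    ∑ j ∈ range D, (f j + f (j + 1)) / 2 = ∑ j ∈ range D, f j - f 0 / 2 + f D / 2 := by
  induction D with
  | zero => simp
  | succ D ih =>
    rw [sum_range_succ, ih, sum_range_succ]
    ring

section

variable {k O : Type} [Field k] [Infinite k] [CommRing O] [IsDedekindDomain O] [Algebra k O]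
  {E : Ell k O} {d : ℕ} {A : Type} [CommRing A] [Algebra k A] (X : Coord E d A)

theorem Jn_zero : Jn d 0 = {0} := by
  rw [Jn, Nat.mul_zero]
  ext j
  simp

theorem Jn_two {n : ℕ} (h : 1 ≤ d * n) : Jn d n = insert (d * n) (range (d * n - 1)) := by
  rw [Jn]
  ext j
  rw [mem_filter, mem_insert, mem_range, mem_range]
  omega

theorem sum_Jn (hM : Mods) (I : Ideal A) (M : ℕ) {n : ℕ} (h : 1 ≤ d * n) :
    ∑ j ∈ Jn d n, tau X I M n j = tau X I M n (d * n) + ∑ j ∈ range (d * n - 1), tau X I M n j := by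
  rw [Jn_two h, sum_insert]
  rw [mem_range]
  omega

theorem row_two (hM : Mods) (I : Ideal A) (M : ℕ) {n : ℕ} (h : 2 ≤ d * n) :
    ∑ j ∈ range (d * n), (gam X I M n j + gam X I M n (j + 1)) / 2 ≤
      ((∑ j ∈ Jn d n, tau X I M n j : ℕ) : ℝ) := by
  rw [trap, sum_Jn X hM I M (by omega)]
  obtain ⟨D, hD⟩ : ∃ D, d * n = D + 2 := ⟨d * n - 2, by omega⟩
  have e0 : gam X I M n 0 = tau X I M n 0 := by
    unfold gam
    rw [if_neg (by omega), if_neg (by omega)]
  have e1 : gam X I M n (d * n) = tau X I M n (d * n) := by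
    unfold gam
    rw [if_neg (by omega), if_neg (by omega)]
  have e2 : ∑ j ∈ range (d * n), gam X I M n j = gam X I M n (d * n - 1) +
      ∑ j ∈ range (d * n - 1), (tau X I M n j : ℝ) := by
    have h3 : d * n = (d * n - 1) + 1 := by omega
    rw [h3, sum_range_succ, Nat.add_sub_cancel, add_comm]
    congr 1
    refine sum_congr rfl fun j hj => ?_
    rw [mem_range] at hj
    unfold gam
    rw [if_neg (by omega), if_neg (by omega)]
  have e3 : gam X I M n (d * n - 1) =
      (tau X I M n 0 + (d * n - 1 : ℝ) * tau X I M n (d * n)) / (d * n) := by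
    unfold gam
    rw [if_neg (by omega), if_pos (by omega)]
  rw [e0, e1, e2, e3]
  push_cast
  have ht : (tau X I M n (d * n) : ℝ) ≤ tau X I M n 0 := by
    exact_mod_cast tau_anti X hM I M n (Nat.zero_le _)
  have h4 : (2 : ℝ) ≤ (d : ℝ) * n := by exact_mod_cast h
  have h5 : ((tau X I M n 0 : ℝ) + (d * n - 1) * tau X I M n (d * n)) / (d * n) ≤
      (tau X I M n 0 + tau X I M n (d * n)) / 2 := by
    rw [div_le_div_iff₀ (by linarith) two_pos]
    nlinarith
  linarith

theorem row_one (hM : Mods) (I : Ideal A) (M : ℕ) {n : ℕ} (h : d * n = 1) :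
    ∑ j ∈ range (d * n), (gam X I M n j + gam X I M n (j + 1)) / 2 =
      (tau X I M 0 0 + tau X I M n 1) / 2 := by
  rw [h, sum_range_one]
  have e0 : gam X I M n 0 = tau X I M 0 0 := by
    unfold gam
    rw [if_pos ⟨h, rfl⟩]
  have e1 : gam X I M n (0 + 1) = tau X I M n 1 := by
    unfold gam
    rw [if_neg (by omega), if_neg (by omega)]
  rw [e0, e1]

/-- The comparison of the asymptotic sum with the sum over the rows. -/
theorem lam_le (hM : Mods) (hd : 1 ≤ d) (hd3 : d ≤ 3) {I : Ideal A} {M : ℕ} (hM2 : 2 ≤ M)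
    (h : X.Box M ≤ I) :
    (d : ℝ) / 4 * gam X I M 0 0 +
      ∑ n ∈ Icc 1 M, ∑ j ∈ range (d * n), (gam X I M n j + gam X I M n (j + 1)) / 2 ≤
      ((∑ n ∈ range M, ∑ j ∈ Jn d n, tau X I M n j : ℕ) : ℝ) := by
  have g0 : gam X I M 0 0 = tau X I M 0 0 := by
    unfold gam
    rw [if_neg (by omega), if_neg (by omega)]
  have hM' : ∑ n ∈ Icc 1 M, ∑ j ∈ range (d * n), (gam X I M n j + gam X I M n (j + 1)) / 2 =
      ∑ n ∈ Ico 1 M, ∑ j ∈ range (d * n), (gam X I M n j + gam X I M n (j + 1)) / 2 := by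
    have : Icc 1 M = insert M (Ico 1 M) := by
      ext a
      rw [mem_Icc, mem_insert, mem_Ico]
      omega
    rw [this, sum_insert (by rw [mem_Ico]; omega)]
    have h0 : ∑ j ∈ range (d * M), (gam X I M M j + gam X I M M (j + 1)) / 2 = 0 := by
      refine sum_eq_zero fun j _ => ?_
      rw [gam_far X hM hd hM2 h le_rfl, gam_far X hM hd hM2 h le_rfl]
      norm_num
    rw [h0, zero_add]
  have hR : range M = insert 0 (Ico 1 M) := by
    ext a
    rw [mem_range, mem_insert, mem_Ico]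
    omega
  rw [hM', hR, sum_insert (by rw [mem_Ico]; omega), Jn_zero, sum_singleton, g0]
  push_cast
  have hpos : (0 : ℝ) ≤ tau X I M 0 0 := Nat.cast_nonneg _
  have hd3' : (d : ℝ) ≤ 3 := by exact_mod_cast hd3
  rcases Nat.lt_or_ge d 2 with h1 | h1
  · have hd1 : d = 1 := by omega
    subst hd1
    have hI : Ico 1 M = insert 1 (Ico 2 M) := by
      ext a
      rw [mem_Ico, mem_insert, mem_Ico]
      omega
    rw [hI, sum_insert (by rw [mem_Ico]; omega), sum_insert (by rw [mem_Ico]; omega),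
      row_one X hM I M (one_mul 1)]
    have h2 : ∑ n ∈ Ico 2 M, ∑ j ∈ range (1 * n), (gam X I M n j + gam X I M n (j + 1)) / 2 ≤
        ∑ n ∈ Ico 2 M, ∑ j ∈ Jn 1 n, (tau X I M n j : ℝ) := by
      refine sum_le_sum fun n hn => ?_
      rw [mem_Ico] at hn
      have := row_two X hM I M (n := n) (by omega)
      push_cast at this
      exact this
    have h3 : ∑ j ∈ Jn 1 1, (tau X I M 1 j : ℝ) = tau X I M 1 1 := by
      rw [Jn_two (by norm_num)]
      simp
    have h4 : (0 : ℝ) ≤ tau X I M 1 1 := Nat.cast_nonneg _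
    rw [h3]
    push_cast
    linarith
  · have h2 : ∑ n ∈ Ico 1 M, ∑ j ∈ range (d * n), (gam X I M n j + gam X I M n (j + 1)) / 2 ≤
        ∑ n ∈ Ico 1 M, ∑ j ∈ Jn d n, (tau X I M n j : ℝ) := by
      refine sum_le_sum fun n hn => ?_
      rw [mem_Ico] at hn
      have h5 : 2 * 1 ≤ d * n := Nat.mul_le_mul h1 hn.1
      have := row_two X hM I M (n := n) (by omega)
      push_cast at this
      exact this
    nlinarith

end

end Pool.Agent.NH60.SS.Z
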