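import Pool.Agent.NH60.SS.Stmts

/-!
# Products of powers of spaces of functions
-/

set_option autoImplicit false

namespace Pool.Agent.NH60.SS.Z

open Finset Module

section

variable {k O : Type} [Field k] [CommRing O] [IsDedekindDomain O] [Algebra k O] (E : Ell k O)

theorem cap_top (t : ℕ) : E.cap ⊤ t = E.L t := by
  ext f
  rw [Ell.mem_cap, Ell.mem_L]
  exact ⟨fun h => h.2, fun h => ⟨trivial, h⟩⟩

theorem cod_top' : cod k (⊤ : Ideal O) = 0 := by
  unfold cod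
  have : Subsingleton (O ⧸ (⊤ : Ideal O)) := Ideal.Quotient.subsingleton_iff.2 rfl
  exact finrank_zero_of_subsingleton

theorem cont_ne_bot {V : Submodule k O} (hV : V ≠ ⊥) : cont V ≠ ⊥ := by
  obtain ⟨x, hx, hx0⟩ := V.exists_mem_ne_zero_of_ne_bot hV
  intro h
  apply hx0
  have : x ∈ cont V := Ideal.subset_span hx
  rw [h] at this
  exact this

include E in
theorem cod_pow (hRR : StmtRR) {b : Ideal O} (hb : b ≠ ⊥) (r : ℕ) :
    cod k (b ^ r) = r * cod k b := by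
  induction r with
  | zero => rw [pow_zero, Ideal.one_eq_top, cod_top', zero_mul]
  | succ r ih =>
    rw [pow_succ, (hRR k O E).2.2.2.1 _ _ (pow_ne_zero r hb) hb, ih]
    ring

theorem pow_cap (hRR : StmtRR) (hP : StmtPencil) [Infinite k] {V : Submodule k O} {s : ℕ}
    (hV : V ≠ ⊥) (hs : V ≤ E.L s) (hle : cod k (cont V) ≤ E.top V) {c : Ideal O} (hc : c ≠ ⊥)
    {t : ℕ} (ht : cod k c + E.mu V + 1 ≤ t) (r : ℕ) :
    V ^ r * E.cap c t = E.cap (cont V ^ r * c) (t + r * E.top V) := by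
  induction r with
  | zero => rw [pow_zero, one_mul, pow_zero, one_mul, zero_mul, add_zero]
  | succ r ih =>
    have hb := cont_ne_bot hV
    have h1 : cont V ^ r * c ≠ ⊥ := mul_ne_zero (pow_ne_zero r hb) hc
    have h2 : cod k (cont V ^ r * c) = r * cod k (cont V) + cod k c := by
      rw [(hRR k O E).2.2.2.1 _ _ (pow_ne_zero r hb) hc, cod_pow E hRR hb]
    have h3 : r * cod k (cont V) ≤ r * E.top V := Nat.mul_le_mul_left r hle
    rw [pow_succ', mul_assoc, ih, hP k O E V s _ _ hV hs h1 (by omega), ← mul_assoc, ← pow_succ']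
    congr 1
    ring

theorem prod_cap (hRR : StmtRR) (hP : StmtPencil) [Infinite k] {ι : Type} (G : Finset ι)
    (V : ι → Submodule k O) (s : ι → ℕ) (q0 : ℕ) (hV : ∀ i ∈ G, V i ≠ ⊥)
    (hs : ∀ i ∈ G, V i ≤ E.L (s i)) (hle : ∀ i ∈ G, cod k (cont (V i)) ≤ E.top (V i))
    (hq : ∀ i ∈ G, E.mu (V i) + 1 ≤ q0) (m : ι → ℕ) (q : ℕ) (hq0 : q0 ≤ q) :
    (∏ i ∈ G, V i ^ m i) * E.L q =
      E.cap (∏ i ∈ G, cont (V i) ^ m i) (q + ∑ i ∈ G, m i * E.top (V i)) ∧
    cod k (∏ i ∈ G, cont (V i) ^ m i) = ∑ i ∈ G, m i * cod k (cont (V i)) ∧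
    (∏ i ∈ G, cont (V i) ^ m i) ≠ ⊥ := by
  classical
  induction G using Finset.induction_on with
  | empty =>
    rw [prod_empty, prod_empty, sum_empty, sum_empty, one_mul, add_zero, Ideal.one_eq_top, cap_top,
      cod_top']
    exact ⟨rfl, rfl, top_ne_bot⟩
  | insert a G ha ih =>
    obtain ⟨i1, i2, i3⟩ := ih (fun i hi => hV i (mem_insert_of_mem hi))
      (fun i hi => hs i (mem_insert_of_mem hi)) (fun i hi => hle i (mem_insert_of_mem hi))
      (fun i hi => hq i (mem_insert_of_mem hi))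
    have ma := mem_insert_self a G
    have hb := cont_ne_bot (hV a ma)
    have hsum : ∑ i ∈ G, m i * cod k (cont (V i)) ≤ ∑ i ∈ G, m i * E.top (V i) :=
      sum_le_sum fun i hi => Nat.mul_le_mul_left _ (hle i (mem_insert_of_mem hi))
    have hqa := hq a ma
    refine ⟨?_, ?_, ?_⟩
    · rw [prod_insert ha, prod_insert ha, sum_insert ha, mul_assoc, i1,
        pow_cap E hRR hP (hV a ma) (hs a ma) (hle a ma) i3 (by omega)]
      congr 1
      ring
    · rw [prod_insert ha, sum_insert ha, (hRR k O E).2.2.2.1 _ _ (pow_ne_zero _ hb) i3, i2,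
        cod_pow E hRR hb]
    · rw [prod_insert ha]
      exact mul_ne_zero (pow_ne_zero _ hb) i3

/-- The dimension of a product of powers. -/
theorem finrank_prod (hRR : StmtRR) (hP : StmtPencil) [Infinite k] {ι : Type} (G : Finset ι)
    (V : ι → Submodule k O) (s : ι → ℕ) (q0 : ℕ) (hV : ∀ i ∈ G, V i ≠ ⊥)
    (hs : ∀ i ∈ G, V i ≤ E.L (s i)) (hle : ∀ i ∈ G, cod k (cont (V i)) ≤ E.top (V i))
    (hq : ∀ i ∈ G, E.mu (V i) + 1 ≤ q0) (m : ι → ℕ) (q : ℕ) (hq0 : q0 ≤ q) (hq1 : 1 ≤ q0) :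
    finrank k ↥((∏ i ∈ G, V i ^ m i) * E.L q) = q + ∑ i ∈ G, m i * E.mu (V i) := by
  obtain ⟨h1, h2, h3⟩ := prod_cap E hRR hP G V s q0 hV hs hle hq m q hq0
  have hsum : ∑ i ∈ G, m i * cod k (cont (V i)) ≤ ∑ i ∈ G, m i * E.top (V i) :=
    sum_le_sum fun i hi => Nat.mul_le_mul_left _ (hle i hi)
  have h4 := (hRR k O E).2.2.2.2.2 (∏ i ∈ G, cont (V i) ^ m i)
    (q + ∑ i ∈ G, m i * E.top (V i)) h3 (by omega)
  rw [h1]
  have h5 : ∑ i ∈ G, m i * E.mu (V i) + ∑ i ∈ G, m i * cod k (cont (V i)) =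
      ∑ i ∈ G, m i * E.top (V i) := by
    rw [← sum_add_distrib]
    refine sum_congr rfl fun i hi => ?_
    rw [← mul_add]
    congr 1
    have := hle i hi
    unfold Ell.mu
    omega
  omega

end

end Pool.Agent.NH60.SS.Z
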