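import Pool.Agent.NH60.SS.Defs

/-!
# Semistability of simple elliptic surface singularities: statements of the modules
-/

set_option autoImplicit false

namespace Pool.Agent.NH60.SS

open Finset Module MvPolynomial

/-- Module RR: dimensions of truncated ideals. -/
def StmtRR : Prop :=
  ∀ (k O : Type) [Field k] [CommRing O] [IsDedekindDomain O] [Algebra k O] (E : Ell k O),
    (∀ t, FiniteDimensional k (E.L t)) ∧
    finrank k (E.L 0) = 1 ∧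
    (∀ t, 1 ≤ t → finrank k (E.L t) = t) ∧
    (∀ b c : Ideal O, b ≠ ⊥ → c ≠ ⊥ → cod k (b * c) = cod k b + cod k c) ∧
    (∀ (b : Ideal O) (f : O), f ∈ b → f ≠ 0 → cod k b ≤ E.deg f) ∧
    (∀ (b : Ideal O) (t : ℕ), b ≠ ⊥ → cod k b + 1 ≤ t → finrank k (E.cap b t) + cod k b = t)

/-- Module Pencil: multiplication of a truncated ideal by a space of functions. -/
def StmtPencil : Prop :=
  ∀ (k O : Type) [Field k] [Infinite k] [CommRing O] [IsDedekindDomain O] [Algebra k O]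
    (E : Ell k O) (V : Submodule k O) (s : ℕ) (c : Ideal O) (t : ℕ), V ≠ ⊥ → V ≤ E.L s → c ≠ ⊥ →
    cod k c + E.mu V + 1 ≤ t → V * E.cap c t = E.cap (cont V * c) (t + E.top V)

/-- Module Mu: the degree of the moving part of a space of functions. -/
def StmtMu : Prop :=
  ∀ (k O : Type) [Field k] [CommRing O] [IsDedekindDomain O] [Algebra k O] (E : Ell k O),
    (∀ (V : Submodule k O) (s : ℕ), V ≠ ⊥ → V ≤ E.L s →
      cod k (cont V) ≤ E.top V ∧ E.top V ≤ s ∧ E.mu V ≠ 1 ∧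
      (E.mu V = 0 → finrank k V = 1) ∧ (2 ≤ E.mu V → finrank k V ≤ E.mu V) ∧
      (∀ W : Submodule k O, V ≤ W → W ≤ E.L s → E.mu V ≤ E.mu W)) ∧
    E.mu (E.L 0) = 0 ∧ E.mu (E.L 1) = 0 ∧ (∀ t, 2 ≤ t → E.mu (E.L t) = t)

/-- Module Len: leading coefficients and lengths. -/
def StmtLen : Prop :=
  ∀ (k O A : Type) [Field k] [CommRing O] [IsDomain O] [Algebra k O] (E : Ell k O) (d : ℕ)
    [CommRing A] [Algebra k A] (X : Coord E d A), (∀ t, FiniteDimensional k (E.L t)) →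
    (∀ (J : Ideal A) (n j : ℕ), X.V J n j ≤ E.L (d * n)) ∧
    (∀ (I J : Ideal A) (n j n' j' : ℕ), X.V I n j * X.V J n' j' ≤ X.V (I * J) (n + n') (j + j')) ∧
    (∀ n j : ℕ, X.V ⊤ n j = E.L (d * n)) ∧
    (∀ (J : Ideal A) (M : ℕ), X.Box M ≤ J → ∀ n j, (M ≤ n ∨ M ≤ j) → X.V J n j = E.L (d * n)) ∧
    (∀ (J : Ideal A) (M : ℕ), X.Box M ≤ J → FiniteDimensional k (A ⧸ J) ∧
      finrank k (A ⧸ J) = ∑ n ∈ range M, ∑ j ∈ range M,
        (finrank k (E.L (d * n)) - finrank k (X.V J n j)))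

/-- Module Comb: asymptotic count, by interpolation on the cone `0 ≤ j ≤ d n`. -/
def StmtComb : Prop :=
  ∀ (d : ℕ), 1 ≤ d → ∀ (Ach : ℕ → ℕ → ℕ → ℕ → Prop),
    (∀ m n j κ m' n' j' κ', Ach m n j κ → Ach m' n' j' κ' →
      Ach (m + m') (n + n') (j + j') (κ + κ')) →
    (∀ m n j κ n' j' κ', n ≤ n' → j ≤ j' → κ ≤ κ' → Ach m n j κ → Ach m n' j' κ') →
    Ach 0 0 0 0 →
    ∀ (γ : ℕ → ℕ → ℝ) (ns : ℕ) (C : ℝ), (∀ n j, 0 ≤ γ n j) → (∀ n j, ns ≤ n → γ n j = 0) →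
    Ach 1 ns 0 0 →
    (∀ n j, j ≤ d * n → ∀ m κ : ℕ, γ n j * m + C ≤ κ → Ach m (m * n) (m * j) κ) →
    ∃ C' : ℝ, ∀ m : ℕ, 1 ≤ m → ∀ K : ℕ → ℕ → ℕ, (∀ n j κ, Ach m n j κ → K n j ≤ κ) →
      ∀ N : ℕ, (∑ n ∈ range N, ∑ j ∈ range (d * n), (K n j : ℝ)) ≤
        ((d : ℝ) / 4 * γ 0 0 +
          ∑ n ∈ Icc 1 ns, ∑ j ∈ range (d * n), (γ n j + γ n (j + 1)) / 2) * (m : ℝ) ^ 3 +
        C' * (m : ℝ) ^ 2

/-- Coordinates on a ring of dimension two: it is identified with the ring of all series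
`∑ a n s ^ n` with `a n` in `L (d n)`. -/
structure Coord1 {k O : Type} [Field k] [CommRing O] [IsDomain O] [Algebra k O] (E : Ell k O)
    (d : ℕ) (R : Type) [CommRing R] [Algebra k R] where
  /-- the coefficients -/
  co : ℕ → R →ₗ[k] O
  mem : ∀ n x, co n x ∈ E.L (d * n)
  inj : ∀ x, (∀ n, co n x = 0) → x = 0
  surj : ∀ F : ℕ → O, (∀ n, F n ∈ E.L (d * n)) → ∃ x, ∀ n, co n x = F n
  one : ∀ n, co n 1 = if n = 0 then 1 else 0
  mul : ∀ n x y, co n (x * y) = ∑ p ∈ antidiagonal n, co p.1 x * co p.2 y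

/-- the number of monomials of weight `n` in three variables of weights `a`, `b`, `c` -/
def cnt (a b c n : ℕ) : ℕ :=
  (((range (n + 1)) ×ˢ (range (n + 1)) ×ˢ (range (n + 1))).filter
    fun p => a * p.1 + b * p.2.1 + c * p.2.2 = n).card

/-- The properties of a weighted homogeneous equation `f` and a point `ξ` which allow one to
compute the quotient of the ring of power series by `f`. -/
structure Good {k O : Type} [Field k] [CommRing O] [IsDomain O] [Algebra k O] (E : Ell k O)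
    (d : ℕ) (w : Fin 3 → ℕ) (ξ : Fin 3 → O) (f : MvPolynomial (Fin 3) k) (h : ℕ) : Prop where
  w_pos : ∀ i, 1 ≤ w i
  h_pos : 1 ≤ h
  mem : ∀ i, ξ i ∈ E.L (d * w i)
  ne : f ≠ 0
  hom : IsWeightedHomogeneous w f h
  rel : aeval ξ f = 0
  sur : ∀ n m : ℕ, m ≤ d * n → m ≠ 1 → ∃ P : MvPolynomial (Fin 3) k,
    IsWeightedHomogeneous w P n ∧ aeval ξ P ≠ 0 ∧ E.deg (aeval ξ P) = m
  cnt : ∀ n, 1 ≤ n → cnt (w 0) (w 1) (w 2) n =
    d * n + (if h ≤ n then Pool.Agent.NH60.SS.cnt (w 0) (w 1) (w 2) (n - h) else 0)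

/-- Module Ser: a good equation defines a ring with coordinates. -/
def StmtSer : Prop :=
  ∀ (k O : Type) [Field k] [CommRing O] [IsDomain O] [Algebra k O] (E : Ell k O) (d : ℕ)
    (w : Fin 3 → ℕ) (ξ : Fin 3 → O) (f : MvPolynomial (Fin 3) k) (h : ℕ), 1 ≤ d →
    (∀ t, FiniteDimensional k (E.L t)) → finrank k (E.L 0) = 1 →
    (∀ t, 1 ≤ t → finrank k (E.L t) = t) → Good E d w ξ f h →
    ∃ Y : Coord1 E d (MvPowerSeries (Fin 3) k ⧸
        Ideal.span {(f : MvPowerSeries (Fin 3) k)}),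
      ∀ N : ℕ, ∃ M : ℕ, ∀ u, (∀ n < M, Y.co n u = 0) →
        u ∈ (Ideal.span (Set.range fun i : Fin 3 =>
          (Ideal.Quotient.mk (Ideal.span {(f : MvPowerSeries (Fin 3) k)})
            (MvPowerSeries.X i : MvPowerSeries (Fin 3) k)))) ^ N

/-- the equation of the family `J_{2,0}` -/
noncomputable def fJ (lam : ℂ) : MvPolynomial (Fin 3) ℂ :=
  X 0 ^ 2 + X 1 ^ 3 + X 2 ^ 6 + C lam * (X 0 * X 1 * X 2)

/-- the equation of the family `X_{1,0}` -/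
noncomputable def fX (lam : ℂ) : MvPolynomial (Fin 3) ℂ :=
  X 0 ^ 2 + X 1 ^ 4 + X 2 ^ 4 + C lam * (X 0 * X 1 * X 2)

/-- the equation of the family `T_{3,3,3}` -/
noncomputable def fT (lam : ℂ) : MvPolynomial (Fin 3) ℂ :=
  X 0 ^ 3 + X 1 ^ 3 + X 2 ^ 3 + C lam * (X 0 * X 1 * X 2)

/-- Module FamJ -/
def StmtFamJ : Prop :=
  ∀ (O : Type) [CommRing O] [IsDomain O] [Algebra ℂ O] (E : Ell ℂ O) (x y : O) (lam : ℂ),
    E.deg x = 2 → E.deg y = 3 →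
    y ^ 2 = x ^ 3 + (lam ^ 2 / 4) • x ^ 2 + (0 : ℂ) • x + algebraMap ℂ O (-1) →
    Good E 1 ![3, 2, 1] ![y + (lam / 2) • x, -x, 1] (fJ lam) 6

/-- Module FamX -/
def StmtFamX : Prop :=
  ∀ (O : Type) [CommRing O] [IsDomain O] [Algebra ℂ O] (E : Ell ℂ O) (x y : O) (lam ρ e : ℂ),
    lam ^ 2 * ρ ^ 2 / 4 - ρ ^ 4 - 1 = 0 → e * (lam ^ 2 * ρ / 2 - 4 * ρ ^ 3) = 1 →
    E.deg x = 2 → E.deg y = 3 →
    y ^ 2 = x ^ 3 + (-6 * ρ ^ 2 * e ^ 2 + lam ^ 2 * e ^ 2 / 4) • x ^ 2 + (-4 * ρ * e ^ 3) • x +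
      algebraMap ℂ O (-e ^ 4) →
    Good E 2 ![2, 1, 1]
      ![y - (lam / 2) • ((ρ • x + algebraMap ℂ O e) * x), ρ • x + algebraMap ℂ O e, x] (fX lam) 4

/-- Module FamT -/
def StmtFamT : Prop :=
  ∀ (O : Type) [CommRing O] [IsDomain O] [Algebra ℂ O] (E : Ell ℂ O) (x y : O) (lam e : ℂ),
    27 * e = -4 * (27 + lam ^ 3) → e ≠ 0 →
    E.deg x = 2 → E.deg y = 3 →
    y ^ 2 = x ^ 3 + (-lam ^ 2 / 3) • x ^ 2 + (-2 * e * lam / 9) • x +
      algebraMap ℂ O (-e ^ 2 / 27) →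
    Good E 3 ![1, 1, 1]
      ![(1 / 2 : ℂ) • ((lam / 3) • x + algebraMap ℂ O (e / 3) + y),
        (1 / 2 : ℂ) • ((lam / 3) • x + algebraMap ℂ O (e / 3) - y), x] (fT lam) 3

end Pool.Agent.NH60.SS
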