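import Pool.Agent.NH60.SS.Upper

/-!
# The lower bound: the ideals of elements of large order
-/

set_option autoImplicit false

namespace Pool.Agent.NH60.SS.Z

open Finset Module
open scoped Classical

section

variable {k O : Type} [Field k] [CommRing O] [IsDomain O] [Algebra k O]
  {E : Ell k O} {d : ℕ} {A : Type} [CommRing A] [Algebra k A] (X : Coord E d A)

/-- the ideal of elements of order at least `a` -/
def Tri (a : ℕ) : Ideal A where
  carrier := {x | ∀ n j, n + j < a → X.co n j x = 0}
  zero_mem' := fun _ _ _ => map_zero _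
  add_mem' := by
    intro x y hx hy n j h
    rw [map_add, hx n j h, hy n j h, add_zero]
  smul_mem' := by
    intro c x hx n j h
    rw [smul_eq_mul, X.mul]
    refine sum_eq_zero fun p hp => sum_eq_zero fun q hq => ?_
    have h1 := mem_antidiagonal.1 hp
    have h2 := mem_antidiagonal.1 hq
    rw [hx p.2 q.2 (by omega), mul_zero]

theorem mem_Tri {a : ℕ} {x : A} : x ∈ Tri X a ↔ ∀ n j, n + j < a → X.co n j x = 0 := Iff.rfl

theorem Tri_mul (a b : ℕ) : Tri X a * Tri X b ≤ Tri X (a + b) := by
  rw [Ideal.mul_le]
  intro x hx y hy n j h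
  rw [X.mul]
  refine sum_eq_zero fun p hp => sum_eq_zero fun q hq => ?_
  have h1 := mem_antidiagonal.1 hp
  have h2 := mem_antidiagonal.1 hq
  rcases Nat.lt_or_ge (p.1 + q.1) a with h3 | h3
  · rw [hx _ _ h3, zero_mul]
  · rw [hy _ _ (by omega), mul_zero]

theorem Tri_pow (a m : ℕ) : Tri X a ^ m ≤ Tri X (m * a) := by
  induction m with
  | zero =>
    intro x _ n j h
    omega
  | succ m ih =>
    rw [pow_succ, Nat.succ_mul]
    exact (Ideal.mul_mono ih le_rfl).trans (Tri_mul X _ _)

theorem Box_le_Tri (a : ℕ) : X.Box a ≤ Tri X a := by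
  intro x hx n j h
  exact hx n (by omega) j (by omega)

theorem V_Tri (a n j : ℕ) : X.V (Tri X a) n j = if n + j < a then ⊥ else E.L (d * n) := by
  split_ifs with h
  · rw [eq_bot_iff]
    rintro v ⟨x, hx, rfl, _⟩
    exact hx n j h
  · apply le_antisymm
    · rintro v ⟨x, _, rfl, _⟩
      exact X.mem n j x
    · intro v hv
      obtain ⟨x, hx⟩ := X.surj (fun n' j' => if n' = n ∧ j' = j then v else 0) (by
        intro n' j'
        split_ifs with h1
        · rw [h1.1]
          exact hv
        · exact Submodule.zero_mem _)
      refine ⟨x, ?_, ?_, ?_⟩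
      · intro n' j' h'
        rw [hx, if_neg]
        rintro ⟨rfl, rfl⟩
        exact h h'
      · rw [hx, if_pos ⟨rfl, rfl⟩]
      · intro n' j' h'
        rw [hx, if_neg]
        rintro ⟨rfl, rfl⟩
        omega

end

theorem sum_tri (d a : ℕ) :
    6 * ∑ n ∈ range a, (a - n) * (if d * n = 0 then 1 else d * n) + (if d = 0 then 0 else d * a) =
      (if d = 0 then 3 * a * (a + 1) else 6 * a + d * a ^ 3) := by
  by_cases hd : d = 0
  · subst hd
    simp only [zero_mul, if_true, mul_one, add_zero]
    have h : ∀ a : ℕ, 6 * ∑ n ∈ range a, (a - n) = 3 * a * (a + 1) := by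
      intro a
      have h1 : ∑ n ∈ range a, (a - n) = ∑ n ∈ range a, (n + 1) := by
        rw [← sum_range_reflect]
        refine sum_congr rfl fun n hn => ?_
        rw [mem_range] at hn
        omega
      rw [h1]
      induction a with
      | zero => simp
      | succ a ih =>
        have h2 : ∑ n ∈ range a, (a - n) = ∑ n ∈ range a, (n + 1) := by
          rw [← sum_range_reflect]
          refine sum_congr rfl fun n hn => ?_
          rw [mem_range] at hn
          omega
        rw [sum_range_succ, mul_add, ih h2]
        ring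
    exact h a
  · rw [if_neg hd, if_neg hd]
    rcases Nat.eq_zero_or_pos a with h0 | h0
    · subst h0
      simp
    have hR : range a = insert 0 (Ico 1 a) := by
      ext x
      rw [mem_range, mem_insert, mem_Ico]
      omega
    rw [hR, sum_insert (by rw [mem_Ico]; omega), Nat.mul_zero, if_pos rfl, Nat.sub_zero, mul_one]
    have h1 : ∑ n ∈ Ico 1 a, (a - n) * (if d * n = 0 then 1 else d * n) =
        d * ∑ n ∈ range a, (a - n) * n := by
      rw [hR, sum_insert (by rw [mem_Ico]; omega), mul_zero, zero_add, mul_sum]
      refine sum_congr rfl fun n hn => ?_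
      rw [mem_Ico] at hn
      rw [if_neg (Nat.mul_ne_zero hd (by omega))]
      ring
    have h2 : ∀ a : ℕ, 6 * ∑ n ∈ range a, (a - n) * n + a = a ^ 3 := by
      intro a
      induction a with
      | zero => simp
      | succ a ih =>
        have h3 : ∑ n ∈ range (a + 1), (a + 1 - n) * n =
            ∑ n ∈ range a, (a - n) * n + ∑ n ∈ range (a + 1), n := by
          rw [sum_range_succ, sum_range_succ (fun n => n), Nat.add_sub_cancel_left, one_mul,
            ← add_assoc, ← sum_add_distrib]
          congr 1
          refine sum_congr rfl fun n hn => ?_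
          rw [mem_range] at hn
          have : a + 1 - n = (a - n) + 1 := by omega
          rw [this, add_mul, one_mul]
        have h4 : (∑ n ∈ range (a + 1), n) * 2 = (a + 1) * a := by
          have := Finset.sum_range_id_mul_two (a + 1)
          simpa using this
        rw [h3]
        nlinarith
    rw [h1]
    have h3 := h2 a
    calc 6 * (a + d * ∑ n ∈ range a, (a - n) * n) + d * a
        = 6 * a + d * (6 * ∑ n ∈ range a, (a - n) * n + a) := by ring
      _ = 6 * a + d * a ^ 3 := by rw [h3]

section

variable {k O : Type} [Field k] [Infinite k] [CommRing O] [IsDedekindDomain O] [Algebra k O]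
  {E : Ell k O} {d : ℕ} {A : Type} [CommRing A] [Algebra k A] (X : Coord E d A)

/-- The length of the quotient by the ideal of elements of order at least `a`. -/
theorem finrank_Tri (hM : Mods) (hd : 1 ≤ d) (a : ℕ) :
    6 * finrank k (A ⧸ Tri X a) + d * a = 6 * a + d * a ^ 3 := by
  have h := sum_tri d a
  rw [if_neg (by omega), if_neg (by omega)] at h
  rw [← h, length_eq X hM (Box_le_Tri X a)]
  congr 2
  refine sum_congr rfl fun n hn => ?_
  rw [mem_range] at hn
  have h1 : ∀ j, cd X (Tri X a) n j =
      if n + j < a then (if d * n = 0 then 1 else d * n) else 0 := by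
    intro j
    unfold cd
    rw [V_Tri]
    by_cases h2 : n + j < a
    · rw [if_pos h2, if_pos h2, finrank_bot, Nat.sub_zero, finrank_L hM E]
    · rw [if_neg h2, if_neg h2, Nat.sub_self]
  rw [sum_congr rfl fun j _ => h1 j, ← sum_filter, sum_const]
  have h3 : ((range a).filter fun j => n + j < a) = range (a - n) := by
    ext j
    rw [mem_filter, mem_range, mem_range]
    omega
  rw [h3, card_range, smul_eq_mul]

end

end Pool.Agent.NH60.SS.Z
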