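import Pool.Agent.NH60.SS.Lam

/-!
# The upper bound for the lengths of the powers of an ideal
-/

set_option autoImplicit false

namespace Pool.Agent.NH60.SS.Z

open Finset Module
open scoped Classical

section

variable {k O : Type} [Field k] [Infinite k] [CommRing O] [IsDedekindDomain O] [Algebra k O]
  {E : Ell k O} {d : ℕ} {A : Type} [CommRing A] [Algebra k A] (X : Coord E d A)

/-- the codimension of a leading space -/
noncomputable def cd (J : Ideal A) (n κ : ℕ) : ℕ :=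
  finrank k (E.L (d * n)) - finrank k (X.V J n κ)

theorem Box_anti {M N : ℕ} (h : M ≤ N) : X.Box N ≤ X.Box M := by
  intro x hx n hn j hj
  exact hx n (by omega) j (by omega)

theorem length_eq (hM : Mods) {J : Ideal A} {N : ℕ} (h : X.Box N ≤ J) :
    finrank k (A ⧸ J) = ∑ n ∈ range N, ∑ κ ∈ range N, cd X J n κ :=
  ((hM.len k O A E d X (hM.rr k O E).1).2.2.2.2 J N h).2

theorem cd_far (hM : Mods) {I : Ideal A} {M : ℕ} (h : X.Box M ≤ I) (m n κ : ℕ)
    (hκ : m * M ≤ κ) : cd X (I ^ m) n κ = 0 := by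
  have h1 := V_pow X hM I 0 M m
  rw [V_box X hM h (Or.inr le_rfl), mul_zero] at h1
  have h2 := V_mul X hM (I ^ m) ⊤ 0 (m * M) n (κ - m * M)
  rw [V_top X hM, Ideal.mul_top, zero_add, Nat.add_sub_cancel' hκ] at h2
  have h3 : (1 : O) ∈ X.V (I ^ m) 0 (m * M) := by
    apply h1
    have : (1 : O) ^ m ∈ (E.L (d * 0)) ^ m := Submodule.pow_mem_pow _ (one_mem_L _) m
    rwa [one_pow] at this
  have h4 : E.L (d * n) ≤ X.V (I ^ m) n κ := by
    intro v hv
    apply h2
    rw [← one_mul v]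
    exact Submodule.mul_mem_mul h3 hv
  have h5 : X.V (I ^ m) n κ = E.L (d * n) := le_antisymm (V_le X hM _ _ _) h4
  unfold cd
  rw [h5, Nat.sub_self]

theorem cd_le (hM : Mods) (J : Ideal A) (n κ : ℕ) : cd X J n κ ≤ d * n + 1 := by
  unfold cd
  rw [finrank_L hM E]
  split_ifs <;> omega

theorem sum_levels {N D : ℕ} (g : ℕ → ℕ) (hg : ∀ κ, g κ ≤ D) :
    ∑ κ ∈ range N, g κ = ∑ j ∈ range D, ((range N).filter fun κ => j < g κ).card := by
  simp only [card_filter]
  rw [sum_comm]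
  refine sum_congr rfl fun κ _ => ?_
  rw [← card_filter]
  have : ((range D).filter fun j => j < g κ) = range (g κ) := by
    ext j
    rw [mem_filter, mem_range, mem_range]
    have := hg κ
    omega
  rw [this, card_range]

/-- The upper bound. -/
theorem upper (hM : Mods) (hC : StmtComb) (hd : 1 ≤ d) (hd3 : d ≤ 3) {I : Ideal A} {M : ℕ}
    (hM2 : 2 ≤ M) (h : X.Box M ≤ I) (hpow : ∀ m, ∃ N, X.Box N ≤ I ^ m) :
    ∃ C : ℝ, ∀ m : ℕ, 1 ≤ m → (finrank k (A ⧸ I ^ m) : ℝ) ≤
      (finrank k (A ⧸ I) : ℝ) * (m : ℝ) ^ 3 + C * (m : ℝ) ^ 2 := by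
  obtain ⟨s0, hs0, hb⟩ := ach_bound X hM hd I (pool X I M) (pool_ne X I M)
  obtain ⟨C', hC'⟩ := hC d hd (Ach X I (pool X I M)) (ach_add X I _) (ach_mono X I _)
    (ach_zero X I _) (gam X I M) M M (gam_nonneg X I M)
    (fun n j hn => gam_far X hM hd hM2 h hn j) (ach_far X hM hd hM2 h)
    (fun n j hj m κ hκ => ach_gam X hM hd hM2 h n j hj m κ hκ)
  set Lam := (d : ℝ) / 4 * gam X I M 0 0 +
      ∑ n ∈ Icc 1 M, ∑ j ∈ range (d * n), (gam X I M n j + gam X I M n (j + 1)) / 2 with hLam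
  have hLam1 : Lam ≤ (finrank k (A ⧸ I) : ℝ) := by
    refine (lam_le X hM hd hd3 hM2 h).trans ?_
    rw [length_eq X hM h]
    exact_mod_cast sum_le_sum fun n _ => row_le X hM hd I M n
  refine ⟨C' + (d * s0 + 1) * M ^ 2 + s0 * (d * s0 + 1) * M, fun m hm => ?_⟩
  obtain ⟨N0, hN0⟩ := hpow m
  set N1 := N0 + m * M with hN1
  have hbox : X.Box (s0 + N1) ≤ I ^ m := (Box_anti X (by omega)).trans hN0
  rw [length_eq X hM hbox, sum_range_add]
  set N := s0 + N1 with hN
  -- the first rows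
  have p1 : ∑ n ∈ range s0, ∑ κ ∈ range N, cd X (I ^ m) n κ ≤ s0 * ((m * M) * (d * s0 + 1)) := by
    have : ∀ n ∈ range s0, ∑ κ ∈ range N, cd X (I ^ m) n κ ≤ (m * M) * (d * s0 + 1) := by
      intro n hn
      rw [mem_range] at hn
      have e1 : ∑ κ ∈ range N, cd X (I ^ m) n κ = ∑ κ ∈ range (m * M), cd X (I ^ m) n κ := by
        symm
        apply sum_subset
        · intro κ hκ
          rw [mem_range] at hκ ⊢
          omega
        · intro κ _ hκ
          rw [mem_range, not_lt] at hκ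
          exact cd_far X hM h m n κ hκ
      rw [e1]
      refine (sum_le_card_nsmul _ _ (d * s0 + 1) fun κ _ => ?_).trans (by simp)
      refine (cd_le X hM _ _ _).trans ?_
      have : d * n ≤ d * s0 := Nat.mul_le_mul_left _ hn.le
      omega
    refine (sum_le_card_nsmul _ _ _ this).trans (by simp)
  -- the levels
  set K : ℕ → ℕ → ℕ := fun n j => ((range N).filter fun κ => j < cd X (I ^ m) (s0 + n) κ).card
    with hK
  have hKa : ∀ n j κ, Ach X I (pool X I M) m n j κ → K n j ≤ κ := by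
    intro n j κ ha
    have : ((range N).filter fun κ => j < cd X (I ^ m) (s0 + n) κ) ⊆ range κ := by
      intro κ' hκ'
      rw [mem_filter] at hκ'
      rw [mem_range]
      by_contra hcon
      have h1 := hb m n j κ ha (s0 + n) κ' (by omega) (by omega)
      have h2 := hκ'.2
      unfold cd at h2
      omega
    exact (card_le_card this).trans (by rw [card_range])
  have hKm : ∀ n j, K n j ≤ m * M := by
    intro n j
    have : ((range N).filter fun κ => j < cd X (I ^ m) (s0 + n) κ) ⊆ range (m * M) := by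
      intro κ' hκ'
      rw [mem_filter] at hκ'
      rw [mem_range]
      by_contra hcon
      have h1 := cd_far X hM h m (s0 + n) κ' (by omega)
      omega
    exact (card_le_card this).trans (by rw [card_range])
  have hK0 : ∀ n j, m * M ≤ n → K n j = 0 := by
    intro n j hn
    have h1 := ach_mul X I _ (ach_far X hM hd hM2 h) m
    rw [mul_one, mul_zero] at h1
    have := hKa n j 0 (ach_mono X I _ _ _ _ _ _ _ _ hn (Nat.zero_le _) le_rfl h1)
    omega
  have p2 : ∀ n, ∑ κ ∈ range N, cd X (I ^ m) (s0 + n) κ =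
      ∑ j ∈ range (d * n), K n j + ∑ i ∈ range (d * s0 + 1), K n (d * n + i) := by
    intro n
    rw [sum_levels (D := d * n + (d * s0 + 1)) _ (fun κ => by
      have := cd_le X hM (I ^ m) (s0 + n) κ
      have e : d * (s0 + n) = d * n + d * s0 := by ring
      omega), sum_range_add]
  have p3 : ∑ n ∈ range N1, ∑ i ∈ range (d * s0 + 1), K n (d * n + i) ≤
      (m * M) * ((d * s0 + 1) * (m * M)) := by
    have e1 : ∑ n ∈ range N1, ∑ i ∈ range (d * s0 + 1), K n (d * n + i) =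
        ∑ n ∈ range (m * M), ∑ i ∈ range (d * s0 + 1), K n (d * n + i) := by
      symm
      apply sum_subset
      · intro κ hκ
        rw [mem_range] at hκ ⊢
        omega
      · intro n _ hn
        rw [mem_range, not_lt] at hn
        exact sum_eq_zero fun i _ => hK0 n _ hn
    rw [e1]
    refine (sum_le_card_nsmul _ _ ((d * s0 + 1) * (m * M)) fun n _ => ?_).trans (by simp)
    exact (sum_le_card_nsmul _ _ (m * M) fun i _ => hKm n _).trans (by simp)
  have p4 := hC' m hm K hKa N1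
  have p5 : ∑ n ∈ range N1, ∑ κ ∈ range N, cd X (I ^ m) (s0 + n) κ =
      ∑ n ∈ range N1, ∑ j ∈ range (d * n), K n j +
        ∑ n ∈ range N1, ∑ i ∈ range (d * s0 + 1), K n (d * n + i) := by
    rw [← sum_add_distrib]
    exact sum_congr rfl fun n _ => p2 n
  rw [p5]
  have q1 : ((∑ n ∈ range s0, ∑ κ ∈ range N, cd X (I ^ m) n κ : ℕ) : ℝ) ≤
      s0 * ((m * M) * (d * s0 + 1)) := by exact_mod_cast p1
  have q3 : ((∑ n ∈ range N1, ∑ i ∈ range (d * s0 + 1), K n (d * n + i) : ℕ) : ℝ) ≤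
      (m * M) * ((d * s0 + 1) * (m * M)) := by exact_mod_cast p3
  have q4 : ((∑ n ∈ range N1, ∑ j ∈ range (d * n), K n j : ℕ) : ℝ) ≤
      Lam * (m : ℝ) ^ 3 + C' * (m : ℝ) ^ 2 := by
    push_cast
    exact p4
  have hm1 : (1 : ℝ) ≤ m := by exact_mod_cast hm
  have q5 : Lam * (m : ℝ) ^ 3 ≤ (finrank k (A ⧸ I) : ℝ) * (m : ℝ) ^ 3 :=
    mul_le_mul_of_nonneg_right hLam1 (by positivity)
  have q6 : (s0 : ℝ) * ((m * M) * (d * s0 + 1)) ≤ s0 * (d * s0 + 1) * M * (m : ℝ) ^ 2 := by
    have e : (s0 : ℝ) * ((m * M) * (d * s0 + 1)) = s0 * (d * s0 + 1) * M * m := by ring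
    rw [e]
    refine mul_le_mul_of_nonneg_left ?_ (by positivity)
    nlinarith
  rw [Nat.cast_add, Nat.cast_add]
  have e7 : ((m : ℝ) * M) * ((d * s0 + 1) * (m * M)) = (d * s0 + 1) * M ^ 2 * (m : ℝ) ^ 2 := by
    ring
  rw [e7] at q3
  have e8 : (C' + (d * s0 + 1) * M ^ 2 + s0 * (d * s0 + 1) * M) * (m : ℝ) ^ 2 =
      C' * (m : ℝ) ^ 2 + (d * s0 + 1) * M ^ 2 * (m : ℝ) ^ 2 +
        s0 * (d * s0 + 1) * M * (m : ℝ) ^ 2 := by ring
  rw [e8]
  linarith

end

end Pool.Agent.NH60.SS.Z
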