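import Pool.Agent.NH60.SS.Defs

/-!
# The degree function on the coordinate ring of a Weierstrass curve
-/

set_option autoImplicit false

namespace Pool.Agent.NH60.SS

open Polynomial Module
open WeierstrassCurve.Affine WeierstrassCurve.Affine.CoordinateRing
open scoped Classical

section

variable {k : Type} [Field k] (W : WeierstrassCurve.Affine k)

instance finW : Module.Finite k[X] W.CoordinateRing := .of_basis (CoordinateRing.basis W)

/-- the degree: degree of the norm -/
noncomputable def wdeg (f : W.CoordinateRing) : ℕ := (Algebra.norm k[X] f).natDegree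

/-- the expected degree of `p + q Y` -/
noncomputable def pdeg (p q : k[X]) : ℕ :=
  max (2 * p.natDegree) (if q = 0 then 0 else 2 * q.natDegree + 3)

theorem wdeg_basis (p q : k[X]) :
    wdeg W (p • (1 : W.CoordinateRing) + q • CoordinateRing.mk W X) = pdeg p q := by
  unfold wdeg pdeg
  have h := degree_norm_smul_basis (W' := W) p q
  by_cases hq : q = 0
  · subst hq
    rw [if_pos rfl, max_eq_left (Nat.zero_le _)]
    by_cases hp : p = 0
    · subst hp
      rw [zero_smul, zero_smul, add_zero, Algebra.norm_zero, natDegree_zero]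
    · rw [degree_zero] at h
      apply natDegree_eq_of_degree_eq_some
      rw [h, degree_eq_natDegree hp]
      have : (2 • (⊥ : WithBot ℕ) + 3) = ⊥ := by rw [two_nsmul]; simp
      rw [this, max_eq_left bot_le]
      push_cast
      rw [two_nsmul, two_mul]
  · rw [if_neg hq]
    apply natDegree_eq_of_degree_eq_some
    rw [h, degree_eq_natDegree hq]
    by_cases hp : p = 0
    · subst hp
      have : (2 • (degree (0 : k[X])) : WithBot ℕ) = ⊥ := by rw [two_nsmul]; simp
      rw [this, max_eq_right bot_le, natDegree_zero, mul_zero, max_eq_right (Nat.zero_le _)]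
      push_cast
      rw [two_nsmul, two_mul]
    · rw [degree_eq_natDegree hp]
      have e1 : (2 • (p.natDegree : WithBot ℕ)) = ((2 * p.natDegree : ℕ) : WithBot ℕ) := by
        push_cast
        rw [two_nsmul, two_mul]
      have e2 : (2 • (q.natDegree : WithBot ℕ) + 3) =
          ((2 * q.natDegree + 3 : ℕ) : WithBot ℕ) := by
        push_cast
        rw [two_nsmul, two_mul]
      rw [e1, e2]
      exact (WithBot.coe_max _ _).symm

theorem exists_rep (f : W.CoordinateRing) : ∃ p q : k[X],
    f = p • (1 : W.CoordinateRing) + q • CoordinateRing.mk W X := by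
  obtain ⟨p, q, h⟩ := exists_smul_basis_eq f
  exact ⟨p, q, h.symm⟩

theorem natDegree_sub_lt' {p q : k[X]} (h : p.natDegree = q.natDegree) (hp : 0 < p.natDegree) :
    (p - C (p.leadingCoeff / q.leadingCoeff) * q).natDegree < p.natDegree := by
  have hq0 : q ≠ 0 := by
    rintro rfl
    rw [natDegree_zero] at h
    omega
  have hp0 : p ≠ 0 := by
    rintro rfl
    rw [natDegree_zero] at hp
    omega
  have hl : q.leadingCoeff ≠ 0 := leadingCoeff_ne_zero.2 hq0
  have hl' : p.leadingCoeff ≠ 0 := leadingCoeff_ne_zero.2 hp0
  have hc : p.leadingCoeff / q.leadingCoeff ≠ 0 := div_ne_zero hl' hl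
  have h1 : (C (p.leadingCoeff / q.leadingCoeff) * q).degree = q.degree := by
    rw [degree_C_mul hc]
  by_cases h0 : p - C (p.leadingCoeff / q.leadingCoeff) * q = 0
  · rw [h0, natDegree_zero]
    exact hp
  apply natDegree_lt_natDegree h0
  apply degree_sub_lt
  · rw [h1, degree_eq_natDegree hp0, degree_eq_natDegree hq0, h]
  · exact hp0
  · rw [leadingCoeff_mul, leadingCoeff_C, div_mul_cancel₀ _ hl]

theorem sub_rep (p q p' q' : k[X]) (c : k) :
    (p • (1 : W.CoordinateRing) + q • CoordinateRing.mk W X) -
      c • (p' • (1 : W.CoordinateRing) + q' • CoordinateRing.mk W X) =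
    (p - C c * p') • (1 : W.CoordinateRing) + (q - C c * q') • CoordinateRing.mk W X := by
  rw [sub_smul, sub_smul, mul_smul, mul_smul, smul_add]
  have : ∀ z : W.CoordinateRing, (C c : k[X]) • z = c • z := by
    intro z
    rw [← Polynomial.algebraMap_eq, algebraMap_smul]
  rw [this, this]
  abel

theorem add_rep (p q p' q' : k[X]) :
    (p • (1 : W.CoordinateRing) + q • CoordinateRing.mk W X) +
      (p' • (1 : W.CoordinateRing) + q' • CoordinateRing.mk W X) =
    (p + p') • (1 : W.CoordinateRing) + (q + q') • CoordinateRing.mk W X := by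
  rw [add_smul, add_smul]
  abel

theorem algebraMap_rep (c : k) : algebraMap k W.CoordinateRing c =
    (C c : k[X]) • (1 : W.CoordinateRing) + (0 : k[X]) • CoordinateRing.mk W X := by
  rw [zero_smul, add_zero, ← Polynomial.algebraMap_eq, algebraMap_smul,
    Algebra.algebraMap_eq_smul_one]

theorem finite_quot' {I : Ideal W.CoordinateRing} (hI : I ≠ ⊥) :
    FiniteDimensional k (W.CoordinateRing ⧸ I) := by
  classical
  have e := I.quotientEquivDirectSum k (CoordinateRing.basis W) hI
  haveI : ∀ i, Module.Finite k (k[X] ⧸ Ideal.span {I.smithCoeffs (CoordinateRing.basis W) hI i}) :=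
    fun i => PowerBasis.finite (AdjoinRoot.powerBasis (I.smithCoeffs_ne_zero _ hI i))
  haveI : Module.Finite k (DirectSum (Fin 2) fun i =>
    k[X] ⧸ Ideal.span {I.smithCoeffs (CoordinateRing.basis W) hI i}) := inferInstance
  exact Module.Finite.equiv e.symm

theorem pdeg_add (p q p' q' : k[X]) : pdeg (p + p') (q + q') ≤ max (pdeg p q) (pdeg p' q') := by
  unfold pdeg
  have h1 := natDegree_add_le p p'
  have h2 := natDegree_add_le q q'
  by_cases hq : q = 0
  · subst hq
    rw [zero_add, if_pos (rfl : (0 : k[X]) = 0)]
    split_ifs with h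
    · omega
    · omega
  · by_cases hq' : q' = 0
    · subst hq'
      rw [add_zero, if_pos rfl, if_neg hq]
      omega
    · rw [if_neg hq, if_neg hq']
      split_ifs with h
      · omega
      · omega

theorem pdeg_lead (p q p' q' : k[X]) (h : pdeg p q = pdeg p' q') (h0 : 0 < pdeg p q) :
    ∃ c : k, pdeg (p - C c * p') (q - C c * q') < pdeg p q := by
  have key : ∀ (r r' : k[X]) (c : k), (r - C c * r').natDegree ≤ max r.natDegree r'.natDegree := by
    intro r r' c
    refine (natDegree_sub_le _ _).trans (max_le_max le_rfl (natDegree_C_mul_le _ _))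
  rcases Nat.even_or_odd' (pdeg p q) with ⟨m, hm | hm⟩
  · -- even degree: the polynomial `p` leads
    have e1 : 2 * p.natDegree = pdeg p q := by
      unfold pdeg at hm ⊢
      split_ifs at hm ⊢ with hq
      · omega
      · omega
    have e2 : 2 * p'.natDegree = pdeg p' q' := by
      rw [← h]
      rw [h] at hm
      unfold pdeg at hm h ⊢
      split_ifs at hm h ⊢ with hq hq'
      all_goals omega
    refine ⟨p.leadingCoeff / p'.leadingCoeff, ?_⟩
    have h3 := natDegree_sub_lt' (p := p) (q := p') (by omega) (by omega)
    have h4 := key q q' (p.leadingCoeff / p'.leadingCoeff)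
    have h5 : q ≠ 0 → 2 * q.natDegree + 3 < pdeg p q := by
      intro hq
      have h6 : 2 * q.natDegree + 3 ≤ pdeg p q := by
        unfold pdeg
        rw [if_neg hq]
        exact le_max_right _ _
      omega
    have h5' : q' ≠ 0 → 2 * q'.natDegree + 3 < pdeg p q := by
      intro hq
      have h6 : 2 * q'.natDegree + 3 ≤ pdeg p' q' := by
        unfold pdeg
        rw [if_neg hq]
        exact le_max_right _ _
      omega
    have h7 : (q - C (p.leadingCoeff / p'.leadingCoeff) * q') ≠ 0 →
        2 * (q - C (p.leadingCoeff / p'.leadingCoeff) * q').natDegree + 3 < pdeg p q := by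
      intro hne
      by_cases hq : q = 0
      · by_cases hq' : q' = 0
        · exfalso
          apply hne
          rw [hq, hq', mul_zero, sub_zero]
        · have := h5' hq'
          have hq0 : q.natDegree = 0 := by rw [hq, natDegree_zero]
          omega
      · by_cases hq' : q' = 0
        · have := h5 hq
          have hq0 : q'.natDegree = 0 := by rw [hq', natDegree_zero]
          omega
        · have := h5 hq
          have := h5' hq'
          omega
    rw [pdeg]
    split_ifs with h8
    · omega
    · have := h7 h8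
      omega
  · have hodd : pdeg p q = 2 * m + 1 := hm
    have aux : ∀ a b : k[X], pdeg a b = 2 * m + 1 → b ≠ 0 ∧ 2 * b.natDegree + 3 = 2 * m + 1 ∧
        2 * a.natDegree < 2 * m + 1 := by
      intro a b hab
      unfold pdeg at hab
      split_ifs at hab with hb
      · omega
      · exact ⟨hb, by omega, by omega⟩
    obtain ⟨a1, a2, a3⟩ := aux p q hm
    obtain ⟨b1, b2, b3⟩ := aux p' q' (by omega)
    refine ⟨q.leadingCoeff / q'.leadingCoeff, ?_⟩
    have h4 := key p p' (q.leadingCoeff / q'.leadingCoeff)
    by_cases hd : q.natDegree = 0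
    · -- both constants
      have hd' : q'.natDegree = 0 := by omega
      have hz : q - C (q.leadingCoeff / q'.leadingCoeff) * q' = 0 := by
        obtain ⟨u, hu⟩ := natDegree_eq_zero.1 hd
        obtain ⟨v, hv⟩ := natDegree_eq_zero.1 hd'
        have hv0 : v ≠ 0 := by
          rintro rfl
          rw [C_0] at hv
          exact b1 hv.symm
        rw [← hu, ← hv, leadingCoeff_C, leadingCoeff_C, ← C_mul, div_mul_cancel₀ _ hv0, sub_self]
      rw [hz, pdeg, if_pos rfl, hodd]
      omega
    · have h3 := natDegree_sub_lt' (p := q) (q := q') (by omega) (by omega)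
      rw [pdeg, hodd]
      split_ifs with h8
      · omega
      · omega

/-- The degree function of a Weierstrass curve. -/
noncomputable def ellW : Ell k W.CoordinateRing where
  deg := wdeg W
  deg_zero := by
    have := wdeg_basis W 0 0
    rw [zero_smul, zero_smul, add_zero] at this
    rw [this]
    simp [pdeg]
  deg_mul := by
    intro f g hf hg
    unfold wdeg
    rw [map_mul]
    apply natDegree_mul
    · exact Algebra.norm_ne_zero_iff.2 hf
    · exact Algebra.norm_ne_zero_iff.2 hg
  deg_add := by
    intro f g
    obtain ⟨p, q, rfl⟩ := exists_rep W f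
    obtain ⟨p', q', rfl⟩ := exists_rep W g
    rw [add_rep, wdeg_basis, wdeg_basis, wdeg_basis]
    exact pdeg_add _ _ _ _
  deg_const := by
    intro f hf
    obtain ⟨p, q, rfl⟩ := exists_rep W f
    rw [wdeg_basis, pdeg] at hf
    have hq : q = 0 := by
      by_contra hq
      rw [if_neg hq] at hf
      omega
    have hp : p.natDegree = 0 := by omega
    obtain ⟨c, rfl⟩ := natDegree_eq_zero.1 hp
    exact ⟨c, by rw [algebraMap_rep, hq]⟩
  deg_algebraMap := by
    intro c
    rw [algebraMap_rep, wdeg_basis, pdeg, natDegree_C, if_pos rfl]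
    rfl
  deg_ne_one := fun f => natDegree_norm_ne_one f
  exists_deg := by
    intro m hm
    rcases Nat.even_or_odd' m with ⟨r, h | h⟩
    · have hd : wdeg W ((X ^ r : k[X]) • (1 : W.CoordinateRing) +
          (0 : k[X]) • CoordinateRing.mk W X) = m := by
        rw [wdeg_basis, pdeg, natDegree_X_pow, if_pos rfl]
        omega
      refine ⟨_, ?_, hd⟩
      intro h0
      obtain ⟨h1, _⟩ := smul_basis_eq_zero h0
      exact pow_ne_zero _ X_ne_zero h1
    · have hd : wdeg W ((0 : k[X]) • (1 : W.CoordinateRing) +
          (X ^ (r - 1) : k[X]) • CoordinateRing.mk W X) = m := by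
        rw [wdeg_basis, pdeg, natDegree_X_pow, if_neg (pow_ne_zero _ X_ne_zero), natDegree_zero]
        omega
      refine ⟨_, ?_, hd⟩
      intro h0
      obtain ⟨_, h1⟩ := smul_basis_eq_zero h0
      exact pow_ne_zero _ X_ne_zero h1
  lead := by
    intro f g hfg h0
    obtain ⟨p, q, rfl⟩ := exists_rep W f
    obtain ⟨p', q', rfl⟩ := exists_rep W g
    rw [wdeg_basis, wdeg_basis] at hfg
    rw [wdeg_basis] at h0
    obtain ⟨c, hc⟩ := pdeg_lead p q p' q' hfg h0
    refine ⟨c, ?_⟩
    rw [sub_rep, wdeg_basis, wdeg_basis]
    exact hc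
  fin_quot := fun b hb => finite_quot' W hb
  cod_span := by
    intro f hf
    exact finrank_quotient_span_eq_natDegree_norm (CoordinateRing.basis W) hf

theorem ellW_deg_x : (ellW W).deg (algebraMap k[X] W.CoordinateRing X) = 2 := by
  show wdeg W _ = 2
  have h := wdeg_basis W X 0
  rw [zero_smul, add_zero, ← Algebra.algebraMap_eq_smul_one] at h
  rw [h, pdeg, natDegree_X, if_pos rfl]
  rfl

theorem ellW_deg_y : (ellW W).deg (CoordinateRing.mk W X) = 3 := by
  show wdeg W _ = 3
  have h := wdeg_basis W 0 1
  rw [zero_smul, zero_add, one_smul] at h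
  rw [h, pdeg, natDegree_zero, if_neg one_ne_zero, natDegree_one]
  rfl

end

end Pool.Agent.NH60.SS
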